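import Pool.Agent.Q201.HTM.Fin

/-!
# The body bounded by four elliptic arcs
-/

set_option autoImplicit false
open MeasureTheory Set Pointwise

namespace Pool.Agent.Q201.HTM

/-- The body `M₀(a)` of the problem: with `b = a / √(2a² - 1)`, the part of the ellipse
`x²/a² + y²/b² ≤ 1` where `|x| ≤ |y|`, and the same turned by `π/2`. -/
def arcBody (a : ℝ) : Set (Fin 2 → ℝ) :=
  {x | (|x 0| ≤ |x 1| ∧ x 0 ^ 2 / a ^ 2 + x 1 ^ 2 / (a / √(2 * a ^ 2 - 1)) ^ 2 ≤ 1) ∨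
    (|x 1| ≤ |x 0| ∧ x 1 ^ 2 / a ^ 2 + x 0 ^ 2 / (a / √(2 * a ^ 2 - 1)) ^ 2 ≤ 1)}

theorem arcBody_eq {a : ℝ} (ha : 1 < a) : arcBody a = M0 a := by
  have ha0 : 0 < a := by linarith
  have hb : 0 < 2 * a ^ 2 - 1 := by nlinarith
  have hb2 : (a / √(2 * a ^ 2 - 1)) ^ 2 = a ^ 2 / (2 * a ^ 2 - 1) := by
    rw [div_pow, Real.sq_sqrt hb.le]
  have e : ∀ y : ℝ, y / (a ^ 2 / (2 * a ^ 2 - 1)) = y * (2 * a ^ 2 - 1) / a ^ 2 := by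
    intro y
    field_simp
  have key : ∀ u v : ℝ, |u| ≤ |v| →
      v ^ 2 / a ^ 2 + u ^ 2 * (2 * a ^ 2 - 1) / a ^ 2 ≤
        u ^ 2 / a ^ 2 + v ^ 2 * (2 * a ^ 2 - 1) / a ^ 2 := by
    intro u v h
    have h1 : u ^ 2 ≤ v ^ 2 := sq_le_sq.2 h
    rw [← add_div, ← add_div]
    have h2 : v ^ 2 + u ^ 2 * (2 * a ^ 2 - 1) ≤ u ^ 2 + v ^ 2 * (2 * a ^ 2 - 1) := by
      have h3 : 0 ≤ 2 * a ^ 2 - 2 := by nlinarith
      have h4 := mul_nonneg (sub_nonneg.2 h1) h3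
      linarith
    gcongr
  ext x
  show (|x 0| ≤ |x 1| ∧ _) ∨ (|x 1| ≤ |x 0| ∧ _) ↔ _ ∧ _
  rw [hb2]
  simp only [e]
  constructor
  · rintro (⟨h1, h2⟩ | ⟨h1, h2⟩)
    · have := key _ _ h1
      exact ⟨h2, by linarith⟩
    · have := key _ _ h1
      exact ⟨by linarith, by linarith⟩
  · rintro ⟨h1, h2⟩
    rcases le_total |x 0| |x 1| with h | h
    · exact Or.inl ⟨h, h1⟩
    · exact Or.inr ⟨h, by linarith⟩

end Pool.Agent.Q201.HTM
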