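import Pool.Agent.Q201.HTM.Stm

/-!
# BMA
-/

set_option autoImplicit false
open MeasureTheory Set
open scoped ENNReal Topology

namespace Pool.Agent.Q201.HTM

namespace BMA

variable {p q : ℝ} {V : ℝ → ℝ}

/-- the data -/
structure Dat (p q : ℝ) (V : ℝ → ℝ) : Prop where
  lt : p < q
  cont : ContinuousOn V (Ioo p q)
  pos : ∀ x ∈ Ioo p q, 0 < V x
  int : IntegrableOn V (Ioo p q)

noncomputable def F (p : ℝ) (V : ℝ → ℝ) (x : ℝ) : ℝ := ∫ t in p..x, V t

noncomputable def X (p q : ℝ) (V : ℝ → ℝ) (s : ℝ) : ℝ := Function.invFunOn (F p V) (Ioo p q) s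

theorem Dat.ii (h : Dat p q V) : IntervalIntegrable V volume p q :=
  (intervalIntegrable_iff_integrableOn_Ioo_of_le h.lt.le).2 h.int

theorem Dat.Fc (h : Dat p q V) : ContinuousOn (F p V) (Icc p q) := by
  have := intervalIntegral.continuousOn_primitive_interval (μ := volume) (f := V) (a := p) (b := q)
    (by rw [uIcc_of_le h.lt.le]; exact (integrableOn_Icc_iff_integrableOn_Ioo (by simp) (by simp)).2 h.int)
  rwa [uIcc_of_le h.lt.le] at this

theorem Dat.Fd (h : Dat p q V) {x : ℝ} (hx : x ∈ Ioo p q) : HasDerivAt (F p V) (V x) x := by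
  refine intervalIntegral.integral_hasDerivAt_right ?_ ?_ ?_
  · exact h.ii.mono_set (by
      rw [uIcc_of_le hx.1.le, uIcc_of_le h.lt.le]; exact Icc_subset_Icc le_rfl hx.2.le)
  · exact h.cont.stronglyMeasurableAtFilter isOpen_Ioo x hx
  · exact h.cont.continuousAt (isOpen_Ioo.mem_nhds hx)

theorem Dat.Fm (h : Dat p q V) : StrictMonoOn (F p V) (Icc p q) := by
  refine strictMonoOn_of_deriv_pos (convex_Icc _ _) h.Fc fun x hx => ?_
  rw [interior_Icc] at hx
  rw [(h.Fd hx).deriv]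
  exact h.pos x hx

noncomputable def A (p q : ℝ) (V : ℝ → ℝ) : ℝ := F p V q

theorem F_p : F p V p = 0 := by simp [F]

theorem Dat.A_pos (h : Dat p q V) : 0 < A p q V := by
  have := h.Fm (left_mem_Icc.2 h.lt.le) (right_mem_Icc.2 h.lt.le) h.lt
  rwa [F_p] at this

theorem Dat.F_mem (h : Dat p q V) {x : ℝ} (hx : x ∈ Ioo p q) : F p V x ∈ Ioo 0 (A p q V) := by
  constructor
  · have := h.Fm (left_mem_Icc.2 h.lt.le) (Ioo_subset_Icc_self hx) hx.1
    rwa [F_p] at this
  · exact h.Fm (Ioo_subset_Icc_self hx) (right_mem_Icc.2 h.lt.le) hx.2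

theorem Dat.ex (h : Dat p q V) {s : ℝ} (hs : s ∈ Ioo 0 (A p q V)) :
    ∃ x ∈ Ioo p q, F p V x = s := by
  have := intermediate_value_Ioo h.lt.le h.Fc
  rw [F_p] at this
  exact this hs

theorem Dat.X_mem (h : Dat p q V) {s : ℝ} (hs : s ∈ Ioo 0 (A p q V)) : X p q V s ∈ Ioo p q :=
  Function.invFunOn_mem (h.ex hs)

theorem Dat.FX (h : Dat p q V) {s : ℝ} (hs : s ∈ Ioo 0 (A p q V)) : F p V (X p q V s) = s :=
  Function.invFunOn_eq (h.ex hs)

theorem Dat.XF (h : Dat p q V) {x : ℝ} (hx : x ∈ Ioo p q) : X p q V (F p V x) = x :=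
  h.Fm.injOn (Ioo_subset_Icc_self (h.X_mem (h.F_mem hx))) (Ioo_subset_Icc_self hx)
    (h.FX (h.F_mem hx))

theorem Dat.Xm (h : Dat p q V) : StrictMonoOn (X p q V) (Ioo 0 (A p q V)) := by
  intro s hs t ht hst
  by_contra hle
  push Not at hle
  have := h.Fm.monotoneOn (Ioo_subset_Icc_self (h.X_mem ht)) (Ioo_subset_Icc_self (h.X_mem hs)) hle
  rw [h.FX hs, h.FX ht] at this
  linarith

theorem Dat.Xc (h : Dat p q V) {s : ℝ} (hs : s ∈ Ioo 0 (A p q V)) : ContinuousAt (X p q V) s := by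
  refine h.Xm.continuousAt_of_image_mem_nhds (isOpen_Ioo.mem_nhds hs) ?_
  refine Filter.mem_of_superset (isOpen_Ioo.mem_nhds (h.X_mem hs)) fun x hx => ?_
  exact ⟨F p V x, h.F_mem hx, h.XF hx⟩

theorem Dat.Xd (h : Dat p q V) {s : ℝ} (hs : s ∈ Ioo 0 (A p q V)) :
    HasDerivAt (X p q V) (V (X p q V s))⁻¹ s := by
  refine HasDerivAt.of_local_left_inverse (h.Xc hs) (h.Fd (h.X_mem hs)) (h.pos _ (h.X_mem hs)).ne' ?_
  filter_upwards [isOpen_Ioo.mem_nhds hs] with y hy using h.FX hy

theorem flip {a s : ℝ} (hs : s ∈ Ioo 0 a) : a - s ∈ Ioo 0 a := ⟨by linarith [hs.2], by linarith [hs.1]⟩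

/-- the change of variables -/
noncomputable def Z (p q : ℝ) (V : ℝ → ℝ) (s : ℝ) : ℝ := (X p q V s - X p q V (A p q V - s)) / 2

theorem Dat.Xd' (h : Dat p q V) {s : ℝ} (hs : s ∈ Ioo 0 (A p q V)) :
    HasDerivAt (fun s => X p q V (A p q V - s)) (-(V (X p q V (A p q V - s)))⁻¹) s := by
  have h1 := h.Xd (flip hs)
  have h2 : HasDerivAt (fun s => A p q V - s) (-1) s := by
    simpa using (hasDerivAt_id s).const_sub (A p q V)
  have h3 := HasDerivAt.comp s h1 h2
  refine HasDerivAt.congr_deriv (f := fun s => X p q V (A p q V - s)) h3 ?_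
  ring

theorem Dat.Zd (h : Dat p q V) {s : ℝ} (hs : s ∈ Ioo 0 (A p q V)) :
    HasDerivAt (Z p q V) (((V (X p q V s))⁻¹ + (V (X p q V (A p q V - s)))⁻¹) / 2) s := by
  have h1 := ((h.Xd hs).sub (h.Xd' hs)).div_const 2
  refine h1.congr_deriv ?_
  ring

theorem Dat.Z_inj (h : Dat p q V) : InjOn (Z p q V) (Ioo 0 (A p q V)) := by
  have : StrictMonoOn (Z p q V) (Ioo 0 (A p q V)) := by
    intro s hs t ht hst
    have h1 := h.Xm hs ht hst
    have h2 := h.Xm (flip ht) (flip hs) (by linarith)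
    unfold Z
    linarith
  exact this.injOn

theorem Dat.Z_mem (h : Dat p q V) : Z p q V '' Ioo 0 (A p q V) ⊆ Ioo (-(q - p) / 2) ((q - p) / 2) := by
  rintro _ ⟨s, hs, rfl⟩
  have h1 := h.X_mem hs
  have h2 := h.X_mem (flip hs)
  unfold Z
  constructor <;> linarith [h1.1, h1.2, h2.1, h2.2]

/-- the nonnegative error term -/
noncomputable def gap (p q : ℝ) (V : ℝ → ℝ) (s : ℝ) : ℝ :=
  (V (X p q V s) - V (X p q V (A p q V - s))) ^ 2 /
    (4 * V (X p q V s) * V (X p q V (A p q V - s)))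

theorem Dat.VX (h : Dat p q V) : ContinuousOn (fun s => V (X p q V s)) (Ioo 0 (A p q V)) := by
  intro s hs
  exact ((h.cont.continuousAt (isOpen_Ioo.mem_nhds (h.X_mem hs))).comp (h.Xc hs)).continuousWithinAt

theorem Dat.VX' (h : Dat p q V) :
    ContinuousOn (fun s => V (X p q V (A p q V - s))) (Ioo 0 (A p q V)) :=
  h.VX.comp (by fun_prop) fun _ hs => flip hs

theorem Dat.gap_cont (h : Dat p q V) : ContinuousOn (gap p q V) (Ioo 0 (A p q V)) := by
  refine ((h.VX.sub h.VX').pow 2).div ((continuousOn_const.mul h.VX).mul h.VX') fun s hs => ?_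
  have h1 := h.pos _ (h.X_mem hs)
  have h2 := h.pos _ (h.X_mem (flip hs))
  positivity

theorem Dat.gap_nonneg (h : Dat p q V) {s : ℝ} (hs : s ∈ Ioo 0 (A p q V)) : 0 ≤ gap p q V s := by
  have h1 := h.pos _ (h.X_mem hs)
  have h2 := h.pos _ (h.X_mem (flip hs))
  unfold gap
  positivity

theorem Dat.A_eq (h : Dat p q V) : ∫ x in Ioo p q, V x = A p q V := by
  unfold A F
  rw [intervalIntegral.integral_of_le h.lt.le, integral_Ioc_eq_integral_Ioo]

theorem Dat.gap_zero (h : Dat p q V) {W : ℝ → ℝ≥0∞} 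
    (hW : ∀ x ∈ Ioo p q, ∀ y ∈ Ioo p q, ENNReal.ofReal ((V x + V y) / 2) ≤ W ((x - y) / 2))
    (hle : ∫⁻ z in Ioo (-(q - p) / 2) ((q - p) / 2), W z ≤ ENNReal.ofReal (∫ x in Ioo p q, V x)) :
    ∀ s ∈ Ioo 0 (A p q V), V (X p q V s) = V (X p q V (A p q V - s)) := by
  have h1 : ∫⁻ z in Z p q V '' Ioo 0 (A p q V), W z ≤ ENNReal.ofReal (A p q V) := by
    rw [h.A_eq] at hle
    exact (lintegral_mono_set h.Z_mem).trans hle
  rw [lintegral_image_eq_lintegral_abs_deriv_mul measurableSet_Ioo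
    (fun s hs => (h.Zd hs).hasDerivWithinAt) h.Z_inj] at h1
  have h2 : ∫⁻ s in Ioo 0 (A p q V), (1 + ENNReal.ofReal (gap p q V s)) ≤
      ENNReal.ofReal (A p q V) := by
    refine le_trans ?_ h1
    refine setLIntegral_mono' measurableSet_Ioo fun s hs => ?_
    have p1 := h.pos _ (h.X_mem hs)
    have p2 := h.pos _ (h.X_mem (flip hs))
    have h3 := hW _ (h.X_mem hs) _ (h.X_mem (flip hs))
    have h4 : (1 : ℝ≥0∞) + ENNReal.ofReal (gap p q V s) =
        ENNReal.ofReal |((V (X p q V s))⁻¹ + (V (X p q V (A p q V - s)))⁻¹) / 2| *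
          ENNReal.ofReal ((V (X p q V s) + V (X p q V (A p q V - s))) / 2) := by
      rw [← ENNReal.ofReal_one, ← ENNReal.ofReal_add zero_le_one (h.gap_nonneg hs),
        ← ENNReal.ofReal_mul (abs_nonneg _), abs_of_pos (by positivity)]
      congr 1
      unfold gap
      field_simp
      ring
    rw [h4]
    gcongr
    exact h3
  rw [lintegral_add_left measurable_const] at h2
  have h5 : ∫⁻ _ in Ioo 0 (A p q V), (1 : ℝ≥0∞) = ENNReal.ofReal (A p q V) := by
    simp
  rw [h5] at h2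
  have h6 : ∫⁻ s in Ioo 0 (A p q V), ENNReal.ofReal (gap p q V s) = 0 := by
    have h7 : ENNReal.ofReal (A p q V) + ∫⁻ s in Ioo 0 (A p q V), ENNReal.ofReal (gap p q V s) ≤
        ENNReal.ofReal (A p q V) + 0 := by rwa [add_zero]
    exact le_antisymm ((ENNReal.add_le_add_iff_left ENNReal.ofReal_ne_top).1 h7) zero_le
  have hm : AEMeasurable (fun s => ENNReal.ofReal (gap p q V s)) (volume.restrict (Ioo 0 (A p q V))) :=
    (h.gap_cont.aemeasurable measurableSet_Ioo).ennreal_ofReal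
  rw [lintegral_eq_zero_iff' hm] at h6
  -- zero almost everywhere
  have h8 : EqOn (gap p q V) (fun _ => 0) (Ioo 0 (A p q V)) := by
    refine Measure.eqOn_open_of_ae_eq (μ := volume) ?_ isOpen_Ioo h.gap_cont continuousOn_const
    rw [Filter.EventuallyEq, ae_restrict_iff' measurableSet_Ioo] at h6 ⊢
    filter_upwards [h6] with s hs hs'
    have := hs hs'
    simp only [Pi.zero_apply, ENNReal.ofReal_eq_zero] at this
    exact le_antisymm this (h.gap_nonneg hs')
  intro s hs
  have h9 := h8 hs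
  have p1 := h.pos _ (h.X_mem hs)
  have p2 := h.pos _ (h.X_mem (flip hs))
  unfold gap at h9
  simp only [div_eq_zero_iff] at h9
  rcases h9 with h9 | h9
  · have := pow_eq_zero_iff (two_ne_zero) |>.1 h9
    linarith
  · exfalso
    have : 0 < 4 * V (X p q V s) * V (X p q V (A p q V - s)) := by positivity
    linarith

theorem Dat.sum_const (h : Dat p q V)
    (hV : ∀ s ∈ Ioo 0 (A p q V), V (X p q V s) = V (X p q V (A p q V - s))) :
    ∀ s ∈ Ioo 0 (A p q V), X p q V s + X p q V (A p q V - s) = p + q := by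
  have hd : ∀ s ∈ Ioo 0 (A p q V),
      HasDerivAt (fun s => X p q V s + X p q V (A p q V - s)) 0 s := by
    intro s hs
    refine ((h.Xd hs).add (h.Xd' hs)).congr_deriv ?_
    rw [hV s hs]
    ring
  have hA := h.A_pos
  have hc : ∀ s ∈ Ioo 0 (A p q V), ∀ t ∈ Ioo 0 (A p q V),
      X p q V s + X p q V (A p q V - s) = X p q V t + X p q V (A p q V - t) := by
    intro s hs t ht
    exact isOpen_Ioo.is_const_of_deriv_eq_zero isPreconnected_Ioo
      (fun x hx => (hd x hx).differentiableAt.differentiableWithinAt)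
      (fun x hx => (hd x hx).deriv) hs ht
  intro s hs
  apply le_antisymm
  · refine le_of_forall_pos_le_add fun ε hε => ?_
    have hx : p + min ε ((q - p) / 2) ∈ Ioo p q := by
      have : 0 < min ε ((q - p) / 2) := lt_min hε (by linarith [h.lt])
      have h2 := min_le_right ε ((q - p) / 2)
      constructor <;> linarith [h.lt]
    have ht := h.F_mem hx
    have e := hc s hs _ ht
    rw [h.XF hx] at e
    have h3 := (h.X_mem (flip ht)).2
    have h4 := min_le_left ε ((q - p) / 2)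
    linarith
  · refine le_of_forall_pos_le_add fun ε hε => ?_
    have hx : q - min ε ((q - p) / 2) ∈ Ioo p q := by
      have : 0 < min ε ((q - p) / 2) := lt_min hε (by linarith [h.lt])
      have h2 := min_le_right ε ((q - p) / 2)
      constructor <;> linarith [h.lt]
    have ht := h.F_mem hx
    have e := hc s hs _ ht
    rw [h.XF hx] at e
    have h3 := (h.X_mem (flip ht)).1
    have h4 := min_le_left ε ((q - p) / 2)
    linarith

theorem Dat.sym (h : Dat p q V)
    (hV : ∀ s ∈ Ioo 0 (A p q V), V (X p q V s) = V (X p q V (A p q V - s))) :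
    ∀ x ∈ Ioo p q, V (p + q - x) = V x := by
  intro x hx
  have hs := h.F_mem hx
  have h1 := h.sum_const hV _ hs
  have h2 := hV _ hs
  rw [h.XF hx] at h1 h2
  have : p + q - x = X p q V (A p q V - F p V x) := by linarith
  rw [this, h2]

end BMA

theorem bma : S_BMA := by
  intro p q V W hpq hc hpos hint _ hW hle
  have h : BMA.Dat p q V := ⟨hpq, hc, hpos, hint⟩
  have hV := h.gap_zero hW hle
  have hsym := h.sym hV
  have hxV : IntervalIntegrable (fun x => x * V x) volume p q := by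
    have := h.ii.continuousOn_mul (g := fun x => x) continuousOn_id
    exact this
  have e1 : ∀ f : ℝ → ℝ, ∫ x in Ioo p q, f x = ∫ x in p..q, f x := by
    intro f
    rw [intervalIntegral.integral_of_le hpq.le, integral_Ioc_eq_integral_Ioo]
  rw [e1, e1]
  have h1 : ∫ x in p..q, (p + q - x) * V (p + q - x) = ∫ x in p..q, x * V x := by
    have := intervalIntegral.integral_comp_sub_left (fun x => x * V x) (p + q) (a := p) (b := q)
    rw [this]
    congr 1 <;> ring
  have h2 : ∫ x in p..q, (p + q - x) * V (p + q - x) = ∫ x in p..q, ((p + q) * V x - x * V x) := by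
    refine intervalIntegral.integral_congr_Ioo_of_le hpq.le fun x hx => ?_
    rw [hsym x hx]
    ring
  rw [h2, intervalIntegral.integral_sub (h.ii.const_mul _) hxV,
    intervalIntegral.integral_const_mul] at h1
  linarith

end Pool.Agent.Q201.HTM
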