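import Pool.Agent.Q201.HTM.Stm
import Pool.Agent.H356R3.HT.LIN

/-!
# Assembly (MP_b5ed04_co)
-/

set_option autoImplicit false
open MeasureTheory Set Pointwise

namespace Pool.Agent.Q201.HTM

open Pool.Agent.Helper481.MS
open Pool.Agent.Helper481.MB
open Pool.Agent.H356R3.HT (polar cTr htVol)
open Pool.Agent.H356R3.HT.LINL (vol_polar)

/-- the maximal value of `(area M + 4 D) area M°` -/
noncomputable def Fs : ℝ := (2 + CC + 2 * cc) ^ 2 / cc

theorem root_pos : 0 < 2 + CC + 2 * cc := by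
  have h1 := cc_sq
  have h2 := cc_pos
  have h3 : 0 ≤ 2 * √cc * Real.arccos cc := by
    have := Real.arccos_nonneg cc
    positivity
  unfold CC
  nlinarith

theorem Fs_pos : 0 < Fs := by
  have h1 := root_pos
  have h2 := cc_pos
  unfold Fs
  positivity

theorem int_abs : ∫ k in (-1 : ℝ)..1, |k| / 2 = 1 / 2 := by
  have hc : Continuous fun k : ℝ => |k| / 2 := by fun_prop
  rw [← intervalIntegral.integral_add_adjacent_intervals (hc.intervalIntegrable (-1) 0)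
    (hc.intervalIntegrable 0 1)]
  have h1 : ∫ k in (-1 : ℝ)..0, |k| / 2 = ∫ k in (-1 : ℝ)..0, -k / 2 := by
    refine intervalIntegral.integral_congr fun k hk => ?_
    rw [uIcc_of_le (by norm_num)] at hk
    rw [abs_of_nonpos hk.2]
  have h2 : ∫ k in (0 : ℝ)..1, |k| / 2 = ∫ k in (0 : ℝ)..1, k / 2 := by
    refine intervalIntegral.integral_congr fun k hk => ?_
    rw [uIcc_of_le (by norm_num)] at hk
    rw [abs_of_nonneg hk.1]
  rw [h1, h2, intervalIntegral.integral_div, intervalIntegral.integral_div,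
    intervalIntegral.integral_neg, integral_id, integral_id]
  norm_num

theorem I1_nonneg (G : ℝ → ℝ) : 0 ≤ I1 G := by
  refine intervalIntegral.integral_nonneg (by norm_num) fun t _ => ?_
  positivity

theorem Def_nonneg (G : ℝ → ℝ) : 0 ≤ Def G := by
  refine intervalIntegral.integral_nonneg (by norm_num) fun t _ => ?_
  positivity

/-- the polar area of a normalised body -/
theorem vol_polar_std (hPOLG : S_POLG) (hPHI : S_PHI) {N : Set (Fin 2 → ℝ)} (hN : Std N)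
    (h1 : GOK (GG N 1)) (h2 : GOK (GG N (-1))) :
    volume (polar N) = ENNReal.ofReal (4 - I2 (GG N 1) - I2 (GG N (-1))) := by
  rw [hPOLG N hN h1 h2]
  congr 1
  have hc : Continuous fun k : ℝ => |k| / 2 := by fun_prop
  have e : ∀ G, GOK G → ∫ k in (-1 : ℝ)..1, (phi G k - |k| / 2) = 1 - I2 G / 2 := by
    intro G hG
    rw [intervalIntegral.integral_sub (hPHI G hG).1 (hc.intervalIntegrable _ _), (hPHI G hG).2,
      int_abs]
    ring
  rw [e _ h1, e _ h2]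
  ring

/-- the real inequality -/
theorem real_bound {a b x1 x2 y1 y2 : ℝ} (ha : a = x1 + x2) (hb : b = 4 - y1 - y2)
    (hx1 : 0 ≤ x1) (hx2 : 0 ≤ x2) (h1 : cc * x1 - y1 ≤ CC) (h2 : cc * x2 - y2 ≤ CC) :
    b * (a + 4) ≤ Fs ∧ (b * (a + 4) = Fs → cc * x1 - y1 = CC ∧ cc * x2 - y2 = CC) := by
  have hc := cc_pos
  have hr := root_pos
  have hF := Fs_pos
  have hFs : cc * Fs = (2 + CC + 2 * cc) ^ 2 := by
    unfold Fs
    field_simp
  have hs : cc * (a + 4) + b ≤ 2 * (2 + CC + 2 * cc) := by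
    rw [ha, hb]
    linarith
  rcases le_or_gt b 0 with hb0 | hb0
  · have h3 : b * (a + 4) ≤ 0 := mul_nonpos_of_nonpos_of_nonneg hb0 (by linarith)
    refine ⟨by linarith, fun h => ?_⟩
    linarith
  · have ha4 : 0 < a + 4 := by linarith
    have hp : 0 < cc * (a + 4) + b := by positivity
    have h4 : cc * (b * (a + 4)) ≤ ((cc * (a + 4) + b) / 2) ^ 2 := by
      nlinarith [sq_nonneg (cc * (a + 4) - b)]
    have h5 : ((cc * (a + 4) + b) / 2) ^ 2 ≤ (2 + CC + 2 * cc) ^ 2 := by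
      apply pow_le_pow_left₀ (by positivity)
      linarith
    refine ⟨?_, fun h => ?_⟩
    · rw [← hFs] at h5
      exact le_of_mul_le_mul_left (h4.trans h5) hc
    · rw [h, hFs] at h4
      have h6 : (2 + CC + 2 * cc) ≤ (cc * (a + 4) + b) / 2 := by
        by_contra hlt
        push Not at hlt
        have := pow_lt_pow_left₀ hlt (by positivity) (two_ne_zero)
        linarith
      rw [ha, hb] at h6
      constructor <;> linarith

/-- all hypotheses on one-variable functions and normalised bodies -/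
structure HypStd : Prop where
  G : S_G
  AREA : S_AREA
  POLG : S_POLG
  PHI : S_PHI
  CALA : S_CALA
  CALB : S_CALB
  VAL : S_VAL
  N0 : S_N0
  UNI : S_UNI

theorem prod_std (H : HypStd) {N : Set (Fin 2 → ℝ)} (hN : Std N) :
    volume (polar N) * (volume N + 4) = ENNReal.ofReal ((4 - I2 (GG N 1) - I2 (GG N (-1))) *
      (I1 (GG N 1) + I1 (GG N (-1)) + 4)) := by
  obtain ⟨h1, h2⟩ := H.G N hN
  have e1 := I1_nonneg (GG N 1)
  have e2 := I1_nonneg (GG N (-1))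
  have e4 : ENNReal.ofReal (I1 (GG N 1) + I1 (GG N (-1)) + 4) =
      ENNReal.ofReal (I1 (GG N 1) + I1 (GG N (-1))) + 4 := by
    rw [ENNReal.ofReal_add (add_nonneg e1 e2) (by norm_num)]
    norm_num
  rw [vol_polar_std H.POLG H.PHI hN h1 h2, H.AREA N hN h1 h2,
    ENNReal.ofReal_mul' (by linarith), e4]

theorem std_bound (H : HypStd) {N : Set (Fin 2 → ℝ)} (hN : Std N) :
    volume (polar N) * (volume N + 4) ≤ ENNReal.ofReal Fs ∧
      (volume (polar N) * (volume N + 4) = ENNReal.ofReal Fs → N = N0) := by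
  obtain ⟨h1, h2⟩ := H.G N hN
  have e1 := I1_nonneg (GG N 1)
  have e2 := I1_nonneg (GG N (-1))
  have d1 := Def_nonneg (GG N 1)
  have d2 := Def_nonneg (GG N (-1))
  have c1 := H.CALA _ h1
  have c2 := H.CALA _ h2
  obtain ⟨r1, r2⟩ := real_bound (a := I1 (GG N 1) + I1 (GG N (-1)))
    (b := 4 - I2 (GG N 1) - I2 (GG N (-1))) rfl rfl e1 e2 (by linarith) (by linarith)
  rw [prod_std H hN]
  refine ⟨ENNReal.ofReal_le_ofReal r1, fun h => ?_⟩
  have hF := Fs_pos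
  have h3 : (4 - I2 (GG N 1) - I2 (GG N (-1))) * (I1 (GG N 1) + I1 (GG N (-1)) + 4) = Fs := by
    by_contra hne
    have hlt := lt_of_le_of_ne r1 hne
    have := (ENNReal.ofReal_lt_ofReal_iff hF).2 hlt
    rw [h] at this
    exact lt_irrefl _ this
  obtain ⟨s1, s2⟩ := r2 h3
  have k1 := H.CALB _ h1 (by linarith)
  have k2 := H.CALB _ h2 (by linarith)
  obtain ⟨n1, n2⟩ := H.N0
  obtain ⟨g1, g2⟩ := H.G _ n1
  refine H.UNI N N0 hN n1 fun t ht => ⟨?_, ?_⟩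
  · have := (n2 t ht).1
    rw [← k1 t ht] at this
    exact (pow_left_injective₀_aux (h1.pos ht).le (g1.pos ht).le this).symm
  · have := (n2 t ht).2
    rw [← k2 t ht] at this
    exact (pow_left_injective₀_aux (h2.pos ht).le (g2.pos ht).le this).symm
where
  pow_left_injective₀_aux {x y : ℝ} (hx : 0 ≤ x) (hy : 0 ≤ y) (h : y ^ 2 = x ^ 2) : y = x := by
    rwa [sq_eq_sq₀ hy hx] at h

theorem N0_value (H : HypStd) : volume (polar N0) * (volume N0 + 4) = ENNReal.ofReal Fs := by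
  obtain ⟨n1, n2⟩ := H.N0
  obtain ⟨h1, h2⟩ := H.G _ n1
  obtain ⟨v1, v2⟩ := H.VAL _ h1 fun t ht => (n2 t ht).1
  obtain ⟨w1, w2⟩ := H.VAL _ h2 fun t ht => (n2 t ht).2
  have c1 := H.CALA _ h1
  have c2 := H.CALA _ h2
  rw [v1] at c1
  rw [w1] at c2
  rw [prod_std H n1]
  congr 1
  have hc := cc_pos
  unfold Fs
  rw [eq_div_iff hc.ne']
  set x1 := I1 (GG N0 1)
  set x2 := I1 (GG N0 (-1))
  set y1 := I2 (GG N0 1)
  set y2 := I2 (GG N0 (-1))
  have e1 : 4 - y1 - y2 = 2 + CC + 2 * cc := by linarith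
  have e2 : cc * (x1 + x2 + 4) = 2 + CC + 2 * cc := by linarith
  calc (4 - y1 - y2) * (x1 + x2 + 4) * cc = (4 - y1 - y2) * (cc * (x1 + x2 + 4)) := by ring
    _ = _ := by rw [e1, e2]; ring

/-! ## linear images and translates -/

theorem dt_map (A : (Fin 2 → ℝ) →ₗ[ℝ] (Fin 2 → ℝ)) (x y : Fin 2 → ℝ) :
    dt (A x) (A y) = LinearMap.det A * dt x y := by
  have h : ∀ (z : Fin 2 → ℝ) (i : Fin 2), A z i =
      LinearMap.toMatrix' A i 0 * z 0 + LinearMap.toMatrix' A i 1 * z 1 := by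
    intro z i
    conv_lhs => rw [← Matrix.toLin'_toMatrix' A, Matrix.toLin'_apply]
    simp [Matrix.mulVec, dotProduct, Fin.sum_univ_two]
  rw [← LinearMap.det_toMatrix', Matrix.det_fin_two]
  unfold dt
  rw [h x 0, h x 1, h y 0, h y 1]
  ring

theorem relBall_sym {M : Set (Fin 2 → ℝ)} (hM : SymBody M) : relBall M = M := by
  ext x
  constructor
  · rintro ⟨_, ⟨a, ha, b, hb, rfl⟩, rfl⟩
    have h := hM.body.convex ha (hM.symm b hb) (show (0:ℝ) ≤ 1 / 2 by norm_num)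
      (show (0:ℝ) ≤ 1 / 2 by norm_num) (by norm_num)
    show (1 / 2 : ℝ) • (a - b) ∈ M
    rw [sub_eq_add_neg, smul_add]
    exact h
  · intro hx
    refine ⟨x - -x, ⟨x, hx, -x, hM.symm x hx, rfl⟩, ?_⟩
    show (1 / 2 : ℝ) • (x - -x) = x
    rw [sub_neg_eq_add, ← two_smul ℝ x, smul_smul]
    norm_num

theorem relBall_vadd (v : Fin 2 → ℝ) (K : Set (Fin 2 → ℝ)) : relBall (v +ᵥ K) = relBall K := by
  ext x
  constructor
  · rintro ⟨_, ⟨_, ⟨a, ha, rfl⟩, _, ⟨b, hb, rfl⟩, rfl⟩, rfl⟩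
    refine ⟨a - b, ⟨a, ha, b, hb, rfl⟩, ?_⟩
    show (1 / 2 : ℝ) • (a - b) = (1 / 2 : ℝ) • ((v + a) - (v + b))
    rw [add_sub_add_left_eq_sub]
  · rintro ⟨_, ⟨a, ha, b, hb, rfl⟩, rfl⟩
    refine ⟨(v + a) - (v + b), ⟨v + a, ⟨a, ha, rfl⟩, v + b, ⟨b, hb, rfl⟩, rfl⟩, ?_⟩
    show (1 / 2 : ℝ) • ((v + a) - (v + b)) = (1 / 2 : ℝ) • (a - b)
    rw [add_sub_add_left_eq_sub]

theorem sym_relBall {K : Set (Fin 2 → ℝ)} (hK : IsConvexBody K) : SymBody (relBall K) := by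
  refine ⟨⟨relBall_compact hK.isCompact, relBall_convex hK.convex, ?_⟩, fun x hx => relBall_neg hx⟩
  obtain ⟨r, hr, hb⟩ := relBall_ball hK.interior_nonempty
  exact ⟨0, mem_interior.2 ⟨_, hb, Metric.isOpen_ball, Metric.mem_ball_self hr⟩⟩

theorem body_image {K : Set (Fin 2 → ℝ)} (hK : IsConvexBody K)
    (A : (Fin 2 → ℝ) ≃L[ℝ] (Fin 2 → ℝ)) : IsConvexBody (A '' K) := by
  refine ⟨hK.isCompact.image A.continuous,
    hK.convex.linear_image (A : (Fin 2 → ℝ) →ₗ[ℝ] (Fin 2 → ℝ)), ?_⟩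
  obtain ⟨z, hz⟩ := hK.interior_nonempty
  have h4 := A.toHomeomorph.image_interior K
  exact ⟨A z, h4 ▸ ⟨z, hz, rfl⟩⟩

theorem sym_image {K : Set (Fin 2 → ℝ)} (hK : SymBody K)
    (A : (Fin 2 → ℝ) ≃L[ℝ] (Fin 2 → ℝ)) : SymBody (A '' K) := by
  refine ⟨body_image hK.body A, ?_⟩
  rintro _ ⟨x, hx, rfl⟩
  exact ⟨-x, hK.symm x hx, map_neg A x⟩

theorem body_vadd {K : Set (Fin 2 → ℝ)} (hK : IsConvexBody K) (v : Fin 2 → ℝ) :
    IsConvexBody (v +ᵥ K) := by
  refine ⟨hK.isCompact.vadd v, hK.convex.vadd v, ?_⟩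
  rw [interior_vadd]
  exact hK.interior_nonempty.vadd_set

theorem cTr_vadd (v : Fin 2 → ℝ) (K : Set (Fin 2 → ℝ)) :
    cTr htVol (v +ᵥ K) = cTr htVol K := by
  unfold H356R3.HT.cTr
  rw [relBall_vadd]
  have h : ∀ p : Fin 2 → ℝ, p +ᵥ (v +ᵥ K) = v +ᵥ (p +ᵥ K) := fun p => vadd_comm p v K
  have h1 : ∀ p : Fin 2 → ℝ, ((p +ᵥ (v +ᵥ K)) ∩ (v +ᵥ K)).Nonempty ↔
      ((p +ᵥ K) ∩ K).Nonempty := by
    intro p
    rw [h, ← vadd_set_inter, vadd_set_nonempty]
  have h2 : ∀ p : Fin 2 → ℝ, htVol (relBall K) (convexHull ℝ ((v +ᵥ K) ∪ (p +ᵥ (v +ᵥ K)))) =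
      htVol (relBall K) (convexHull ℝ (K ∪ (p +ᵥ K))) := by
    intro p
    unfold htVol
    rw [h, ← vadd_set_union, convexHull_vadd, measure_vadd]
  refine iSup_congr fun p => ?_
  rw [h2]
  exact iSup_congr_Prop (h1 p) fun _ => rfl

theorem vol_image' (A : (Fin 2 → ℝ) ≃L[ℝ] (Fin 2 → ℝ)) (M : Set (Fin 2 → ℝ)) :
    volume (A '' M) =
      ENNReal.ofReal |LinearMap.det (A : (Fin 2 → ℝ) →ₗ[ℝ] (Fin 2 → ℝ))| * volume M :=
  Measure.addHaar_image_linearMap volume (A : (Fin 2 → ℝ) →ₗ[ℝ] (Fin 2 → ℝ)) M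

theorem det_ne (A : (Fin 2 → ℝ) ≃L[ℝ] (Fin 2 → ℝ)) :
    LinearMap.det (A : (Fin 2 → ℝ) →ₗ[ℝ] (Fin 2 → ℝ)) ≠ 0 :=
  (LinearEquiv.isUnit_det' A.toLinearEquiv).ne_zero

theorem prod_image (A : (Fin 2 → ℝ) ≃L[ℝ] (Fin 2 → ℝ)) (N : Set (Fin 2 → ℝ)) {D : ℝ}
    (hD : |LinearMap.det (A : (Fin 2 → ℝ) →ₗ[ℝ] (Fin 2 → ℝ))| = D) :
    volume (polar (A '' N)) * (volume (A '' N) + ENNReal.ofReal (4 * D)) =
      volume (polar N) * (volume N + 4) := by
  have h1 := vol_polar (A : (Fin 2 → ℝ) →ₗ[ℝ] (Fin 2 → ℝ)) (det_ne A) N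
  rw [hD] at h1
  have h2 : volume (polar (A '' N)) = volume (polar ((A : (Fin 2 → ℝ) →ₗ[ℝ] (Fin 2 → ℝ)) '' N)) :=
    rfl
  rw [vol_image', hD, mul_comm 4 D, ENNReal.ofReal_mul' (by norm_num), ← mul_add, h2, ← h1]
  norm_num
  ring

theorem IsMaxDet.unique {M : Set (Fin 2 → ℝ)} {D D' : ℝ} (h : IsMaxDet M D) (h' : IsMaxDet M D') :
    D = D' := by
  obtain ⟨x, hx, y, hy, e⟩ := h.att
  obtain ⟨x', hx', y', hy', e'⟩ := h'.att
  apply le_antisymm
  · rw [← e]; exact h'.le x hx y hy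
  · rw [← e']; exact h.le x' hx' y' hy'

theorem sym_bound (H : HypStd) (hNORM : S_NORM) {M : Set (Fin 2 → ℝ)} (hM : SymBody M) {D : ℝ}
    (hD : IsMaxDet M D) :
    volume (polar M) * (volume M + ENNReal.ofReal (4 * D)) ≤ ENNReal.ofReal Fs ∧
      (volume (polar M) * (volume M + ENNReal.ofReal (4 * D)) = ENNReal.ofReal Fs →
        ∃ A : (Fin 2 → ℝ) ≃L[ℝ] (Fin 2 → ℝ), M = A '' N0) := by
  obtain ⟨D', hD0, hD', A, hA, hS⟩ := hNORM M hM
  have e := hD.unique hD'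
  subst e
  have hMA : M = A '' (A.symm '' M) := by
    rw [Set.image_image]
    simp
  obtain ⟨b1, b2⟩ := std_bound H hS
  have h1 := prod_image A (A.symm '' M) hA
  rw [← hMA] at h1
  rw [h1]
  refine ⟨b1, fun h => ⟨A, ?_⟩⟩
  rw [← b2 h]
  exact hMA

theorem low_image (H : HypStd) (A : (Fin 2 → ℝ) ≃L[ℝ] (Fin 2 → ℝ)) {D : ℝ}
    (hD : IsMaxDet (A '' N0) D) : ENNReal.ofReal Fs ≤
      volume (polar (A '' N0)) * (volume (A '' N0) + ENNReal.ofReal (4 * D)) := by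
  rw [← N0_value H, ← prod_image A N0 rfl]
  have h0 : A (pt 1 0) ∈ A '' N0 := ⟨_, H.N0.1.e0, rfl⟩
  have h1 : A (pt 0 1) ∈ A '' N0 := ⟨_, H.N0.1.e1, rfl⟩
  have e0 : dt (A (pt 1 0)) (A (pt 0 1)) =
      LinearMap.det (A : (Fin 2 → ℝ) →ₗ[ℝ] (Fin 2 → ℝ)) := by
    have := dt_map (A : (Fin 2 → ℝ) →ₗ[ℝ] (Fin 2 → ℝ)) (pt 1 0) (pt 0 1)
    rw [show dt (pt 1 0) (pt 0 1) = 1 by simp [dt, pt], mul_one] at this
    exact this
  have e1 : dt (A (pt 0 1)) (A (pt 1 0)) =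
      -LinearMap.det (A : (Fin 2 → ℝ) →ₗ[ℝ] (Fin 2 → ℝ)) := by
    rw [← e0]
    unfold dt
    ring
  have hle : |LinearMap.det (A : (Fin 2 → ℝ) →ₗ[ℝ] (Fin 2 → ℝ))| ≤ D := by
    rw [abs_le]
    constructor
    · have := hD.le _ h1 _ h0
      rw [e1] at this
      linarith
    · have := hD.le _ h0 _ h1
      rwa [e0] at this
  gcongr

theorem cTr_upper (hUP : S_UP) {K : Set (Fin 2 → ℝ)} (hK : IsConvexBody K) {D : ℝ}
    (hD : IsMaxDet (relBall K) D) :
    cTr htVol K ≤ volume (polar (relBall K)) * (volume K + ENNReal.ofReal (4 * D)) / kappa 2 := by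
  refine iSup_le fun p => iSup_le fun hp => ?_
  have h := hUP K hK D hD p hp
  unfold htVol
  calc volume (polar (relBall K)) / kappa 2 * volume (convexHull ℝ (K ∪ (p +ᵥ K)))
      ≤ volume (polar (relBall K)) / kappa 2 * (volume K + ENNReal.ofReal (4 * D)) := by gcongr
    _ = _ := by rw [div_eq_mul_inv, div_eq_mul_inv]; ring

theorem cTr_lower (hLO : S_LO) {M : Set (Fin 2 → ℝ)} (hM : SymBody M) {D : ℝ}
    (hD : IsMaxDet M D) :
    volume (polar M) * (volume M + ENNReal.ofReal (4 * D)) / kappa 2 ≤ cTr htVol M := by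
  obtain ⟨p, hp, h⟩ := hLO M hM D hD
  have h1 : htVol (relBall M) (convexHull ℝ (M ∪ (p +ᵥ M))) ≤ cTr htVol M :=
    le_iSup₂_of_le p hp le_rfl
  refine le_trans ?_ h1
  unfold htVol
  rw [relBall_sym hM]
  calc volume (polar M) * (volume M + ENNReal.ofReal (4 * D)) / kappa 2
      = volume (polar M) / kappa 2 * (volume M + ENNReal.ofReal (4 * D)) := by
        rw [div_eq_mul_inv, div_eq_mul_inv]; ring
    _ ≤ _ := by gcongr

theorem kappa_ne : kappa 2 ≠ 0 ∧ kappa 2 ≠ ⊤ := by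
  constructor
  · have h : Metric.ball (0 : Fin 2 → ℝ) (1 / 2) ⊆ eball 2 := by
      intro x hx
      rw [mem_ball_zero_iff] at hx
      show ∑ i, x i ^ 2 ≤ 1
      have h : ∀ i, x i ^ 2 ≤ 1 / 4 := by
        intro i
        have h1 : |x i| ≤ 1 / 2 := ((Real.norm_eq_abs _).symm.le.trans (norm_le_pi_norm x i)).trans
          hx.le
        rw [abs_le] at h1
        nlinarith [h1.1, h1.2]
      rw [Fin.sum_univ_two]
      linarith [h 0, h 1]
    have h2 : 0 < volume (Metric.ball (0 : Fin 2 → ℝ) (1 / 2)) :=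
      Metric.isOpen_ball.measure_pos volume ⟨0, Metric.mem_ball_self (by norm_num)⟩
    exact (h2.trans_le (measure_mono h)).ne'
  · exact (eball_compact 2).measure_lt_top.ne

/-- the geometric hypotheses -/
structure HypGeo : Prop where
  UP : S_UP
  LO : S_LO
  BMA : S_BMA
  BMB : S_BMB
  NORM : S_NORM

theorem upper (H : HypStd) (J : HypGeo) {K : Set (Fin 2 → ℝ)} (hK : IsConvexBody K) :
    cTr htVol K ≤ ENNReal.ofReal Fs / kappa 2 := by
  have hM := sym_relBall hK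
  obtain ⟨D, -, hD, -⟩ := J.NORM _ hM
  refine (cTr_upper J.UP hK hD).trans ?_
  gcongr
  refine le_trans ?_ (sym_bound H J.NORM hM hD).1
  have hv := vol_le_relBall hK.isCompact
  exact mul_le_mul_right (add_le_add hv le_rfl) _

theorem lower (H : HypStd) (J : HypGeo) (A : (Fin 2 → ℝ) ≃L[ℝ] (Fin 2 → ℝ)) :
    ENNReal.ofReal Fs / kappa 2 ≤ cTr htVol (A '' N0) := by
  have hM := sym_image H.N0.1.sym A
  obtain ⟨D, -, hD, -⟩ := J.NORM _ hM
  refine le_trans ?_ (cTr_lower J.LO hM hD)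
  gcongr
  exact low_image H A hD

theorem maximisers (H : HypStd) (J : HypGeo) {K : Set (Fin 2 → ℝ)} (hK : IsConvexBody K)
    (h : ∀ L : Set (Fin 2 → ℝ), IsConvexBody L → cTr htVol L ≤ cTr htVol K) :
    ∃ (v : Fin 2 → ℝ) (A : (Fin 2 → ℝ) ≃L[ℝ] (Fin 2 → ℝ)), K = v +ᵥ (A '' N0) := by
  have hM := sym_relBall hK
  obtain ⟨D, -, hD, -⟩ := J.NORM _ hM
  have h1 := cTr_upper J.UP hK hD
  have h2 := (lower H J (ContinuousLinearEquiv.refl ℝ _)).trans
    (h _ (sym_image H.N0.1.sym (ContinuousLinearEquiv.refl ℝ _)).body)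
  have h3 := h2.trans h1
  have hF0 : ENNReal.ofReal Fs ≠ 0 := (ENNReal.ofReal_pos.2 Fs_pos).ne'
  have h4 : ENNReal.ofReal Fs ≤
      volume (polar (relBall K)) * (volume K + ENNReal.ofReal (4 * D)) := by
    have := mul_le_mul_left h3 (kappa 2)
    rwa [ENNReal.div_mul_cancel kappa_ne.1 kappa_ne.2,
      ENNReal.div_mul_cancel kappa_ne.1 kappa_ne.2] at this
  have h5 : volume (polar (relBall K)) * (volume K + ENNReal.ofReal (4 * D)) ≤
      volume (polar (relBall K)) * (volume (relBall K) + ENNReal.ofReal (4 * D)) := by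
    have hv := vol_le_relBall hK.isCompact
    exact mul_le_mul_right (add_le_add hv le_rfl) _
  obtain ⟨b1, b2⟩ := sym_bound H J.NORM hM hD
  have e1 : volume (polar (relBall K)) * (volume (relBall K) + ENNReal.ofReal (4 * D)) =
      ENNReal.ofReal Fs := le_antisymm b1 (h4.trans h5)
  have e2 : volume (polar (relBall K)) * (volume K + ENNReal.ofReal (4 * D)) =
      volume (polar (relBall K)) * (volume (relBall K) + ENNReal.ofReal (4 * D)) :=
    le_antisymm h5 (e1 ▸ h4)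
  have p0 : volume (polar (relBall K)) ≠ 0 := by
    intro h0
    rw [h0, zero_mul] at e1
    exact hF0 e1.symm
  have v0 : volume (relBall K) + ENNReal.ofReal (4 * D) ≠ 0 := by
    intro h0
    rw [h0, mul_zero] at e1
    exact hF0 e1.symm
  have pt' : volume (polar (relBall K)) ≠ ⊤ := by
    intro h0
    rw [h0, ENNReal.top_mul v0] at e1
    exact ENNReal.ofReal_ne_top e1.symm
  have e3 : volume K + ENNReal.ofReal (4 * D) = volume (relBall K) + ENNReal.ofReal (4 * D) :=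
    (ENNReal.mul_right_inj p0 pt').1 e2
  have e4 : volume K = volume (relBall K) :=
    (ENNReal.add_left_inj ENNReal.ofReal_ne_top).1 e3
  obtain ⟨v, hv⟩ := J.BMB J.BMA K hK e4.ge
  obtain ⟨A, hA⟩ := b2 e1
  exact ⟨v, A, by rw [← hA]; exact hv⟩

/-- the maximisers are the affine images of `N0` -/
theorem maximisers_iff (H : HypStd) (J : HypGeo) {K : Set (Fin 2 → ℝ)} (hK : IsConvexBody K) :
    (∀ L : Set (Fin 2 → ℝ), IsConvexBody L → cTr htVol L ≤ cTr htVol K) ↔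
    ∃ (v : Fin 2 → ℝ) (A : (Fin 2 → ℝ) ≃L[ℝ] (Fin 2 → ℝ)), K = v +ᵥ (A '' N0) := by
  refine ⟨maximisers H J hK, ?_⟩
  rintro ⟨v, A, rfl⟩ L hL
  rw [cTr_vadd]
  exact (upper H J hL).trans (lower H J A)

end Pool.Agent.Q201.HTM
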