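import Pool.Agent.Q201.HTM.Quad
import Pool.Agent.Q201.HTM.Top

/-!
# BMB: the planar equality case of the Brunn–Minkowski inequality for `K`, `-K`
-/

set_option autoImplicit false
open MeasureTheory Set Pointwise
open scoped ENNReal

namespace Pool.Agent.Q201.HTM

open Pool.Agent.Helper481.MS (IsConvexBody relBall relBall_convex relBall_compact)
open Pool.Agent.Helper481.MB (relBall_image)

namespace BMB

def sl (K : Set (Fin 2 → ℝ)) (a : ℝ) : Set ℝ := {b | pt a b ∈ K}

variable {K : Set (Fin 2 → ℝ)} {p q : ℝ}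

theorem pt_comb (s t a b c d : ℝ) :
    s • pt a b + t • pt c d = pt (s * a + t * c) (s * b + t * d) := by
  ext i; fin_cases i <;> simp [pt]

theorem cont_pt (a : ℝ) : Continuous fun b : ℝ => pt a b := by
  refine continuous_pi fun i => ?_
  fin_cases i
  · exact continuous_const
  · exact continuous_id

theorem sl_compact (hK : IsCompact K) (a : ℝ) : IsCompact (sl K a) := by
  obtain ⟨R, hR⟩ := hK.isBounded.exists_norm_le
  refine isCompact_Icc.of_isClosed_subset (s := Icc (-R) R) (hK.isClosed.preimage (cont_pt a)) ?_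
  intro b hb
  have h1 := hR _ hb
  have h2 : |b| ≤ ‖pt a b‖ := by
    have := norm_le_pi_norm (pt a b) 1
    rwa [Real.norm_eq_abs] at this
  exact abs_le.1 (h2.trans h1)

theorem sl_convex (hK : Convex ℝ K) (a : ℝ) : Convex ℝ (sl K a) := by
  intro b hb c hc s t hs ht hst
  have h := hK hb hc hs ht hst
  rw [pt_comb] at h
  have e : s * a + t * a = a := by rw [← add_mul, hst, one_mul]
  rw [e] at h
  exact h

/-- `p`, `q` are the extremal values of the first coordinate -/
structure Ends (K : Set (Fin 2 → ℝ)) (p q : ℝ) : Prop where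
  pm : ∃ v ∈ K, v 0 = p
  qm : ∃ v ∈ K, v 0 = q
  pl : ∀ v ∈ K, p ≤ v 0
  ql : ∀ v ∈ K, v 0 ≤ q

theorem sl_nonempty (hK : Convex ℝ K) (h : Ends K p q) {a : ℝ} (ha : a ∈ Icc p q) :
    (sl K a).Nonempty := by
  have hc : Convex ℝ ((fun v : Fin 2 → ℝ => v 0) '' K) :=
    hK.linear_image (LinearMap.proj (R := ℝ) (φ := fun _ : Fin 2 => ℝ) 0)
  obtain ⟨v, hv, hv0⟩ := hc.ordConnected.out (h.pm : p ∈ _) (h.qm : q ∈ _) ha
  refine ⟨v 1, ?_⟩
  show pt a (v 1) ∈ K
  rw [← hv0]
  simpa [pt_eta] using hv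

noncomputable def lo (K : Set (Fin 2 → ℝ)) (a : ℝ) : ℝ := sInf (sl K a)
noncomputable def hi (K : Set (Fin 2 → ℝ)) (a : ℝ) : ℝ := sSup (sl K a)
noncomputable def V (K : Set (Fin 2 → ℝ)) (a : ℝ) : ℝ := hi K a - lo K a

theorem sl_eq (hK : IsConvexBody K) (h : Ends K p q) {a : ℝ} (ha : a ∈ Icc p q) :
    sl K a = Icc (lo K a) (hi K a) :=
  eq_Icc_of_connected_compact ⟨sl_nonempty hK.convex h ha, (sl_convex hK.convex a).isPreconnected⟩
    (sl_compact hK.isCompact a)

theorem lo_mem (hK : IsConvexBody K) (h : Ends K p q) {a : ℝ} (ha : a ∈ Icc p q) :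
    pt a (lo K a) ∈ K := (sl_compact hK.isCompact a).sInf_mem (sl_nonempty hK.convex h ha)

theorem hi_mem (hK : IsConvexBody K) (h : Ends K p q) {a : ℝ} (ha : a ∈ Icc p q) :
    pt a (hi K a) ∈ K := (sl_compact hK.isCompact a).sSup_mem (sl_nonempty hK.convex h ha)

theorem V_nonneg (hK : IsConvexBody K) (h : Ends K p q) {a : ℝ} (ha : a ∈ Icc p q) :
    0 ≤ V K a := by
  have h1 := lo_mem hK h ha
  have h2 : lo K a ∈ sl K a := h1
  have := le_csSup (sl_compact hK.isCompact a).bddAbove h2
  unfold V hi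
  linarith

theorem V_concave (hK : IsConvexBody K) (h : Ends K p q) : ConcaveOn ℝ (Icc p q) (V K) := by
  refine ⟨convex_Icc _ _, fun x hx y hy s t hs ht hst => ?_⟩
  have h1 := hK.convex (hi_mem hK h hx) (hi_mem hK h hy) hs ht hst
  have h2 := hK.convex (lo_mem hK h hx) (lo_mem hK h hy) hs ht hst
  rw [pt_comb] at h1 h2
  have h3 := le_csSup (sl_compact hK.isCompact (s * x + t * y)).bddAbove
    (show s * hi K x + t * hi K y ∈ sl K (s * x + t * y) from h1)
  have h4 := csInf_le (sl_compact hK.isCompact (s * x + t * y)).bddBelow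
    (show s * lo K x + t * lo K y ∈ sl K (s * x + t * y) from h2)
  simp only [smul_eq_mul]
  unfold V
  have h3' : s * hi K x + t * hi K y ≤ hi K (s * x + t * y) := h3
  have h4' : lo K (s * x + t * y) ≤ s * lo K x + t * lo K y := h4
  linarith

theorem vol_sl (hK : IsConvexBody K) (h : Ends K p q) (a : ℝ) :
    volume (sl K a) = (Icc p q).indicator (fun a => ENNReal.ofReal (V K a)) a := by
  by_cases ha : a ∈ Icc p q
  · rw [indicator_of_mem ha, sl_eq hK h ha, Real.volume_Icc]
    rfl
  · rw [indicator_of_notMem ha]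
    have : sl K a = ∅ := by
      rw [eq_empty_iff_forall_notMem]
      intro b hb
      exact ha ⟨h.pl _ hb, h.ql _ hb⟩
    rw [this, measure_empty]

/-- an interior point -/
theorem inner_pt (hK : IsConvexBody K) (h : Ends K p q) : ∃ z ∈ Ioo p q, 0 < V K z := by
  obtain ⟨z, hz⟩ := hK.interior_nonempty
  obtain ⟨r, hr, hb⟩ := Metric.isOpen_iff.1 isOpen_interior z hz
  have hball : ∀ w : Fin 2 → ℝ, |w 0 - z 0| < r → |w 1 - z 1| < r → w ∈ K := by
    intro w h0 h1
    refine interior_subset (hb ?_)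
    rw [mem_ball_iff_norm, pi_norm_lt_iff hr]
    intro i
    rw [Real.norm_eq_abs]
    fin_cases i
    · exact h0
    · exact h1
  have ar : |r / 2| < r := by rw [abs_of_pos (by positivity)]; linarith
  have m1 : pt (z 0 + r / 2) (z 1) ∈ K := hball _ (by simpa [pt] using ar) (by simpa [pt] using hr)
  have m2 : pt (z 0 - r / 2) (z 1) ∈ K := hball _ (by simpa [pt] using ar) (by simpa [pt] using hr)
  have m3 : pt (z 0) (z 1 + r / 2) ∈ K := hball _ (by simpa [pt] using hr) (by simpa [pt] using ar)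
  have m4 : pt (z 0) (z 1 - r / 2) ∈ K := hball _ (by simpa [pt] using hr) (by simpa [pt] using ar)
  have q1 : z 0 + r / 2 ≤ q := h.ql _ m1
  have p1 : p ≤ z 0 - r / 2 := h.pl _ m2
  refine ⟨z 0, ⟨by linarith, by linarith⟩, ?_⟩
  have h3 := le_csSup (sl_compact hK.isCompact (z 0)).bddAbove
    (show z 1 + r / 2 ∈ sl K (z 0) from m3)
  have h4 := csInf_le (sl_compact hK.isCompact (z 0)).bddBelow
    (show z 1 - r / 2 ∈ sl K (z 0) from m4)
  have h3' : z 1 + r / 2 ≤ hi K (z 0) := h3
  have h4' : lo K (z 0) ≤ z 1 - r / 2 := h4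
  unfold V
  linarith

theorem Ends.lt (hK : IsConvexBody K) (h : Ends K p q) : p < q := by
  obtain ⟨z, hz, -⟩ := inner_pt hK h
  exact hz.1.trans hz.2

theorem V_pos (hK : IsConvexBody K) (h : Ends K p q) {a : ℝ} (ha : a ∈ Ioo p q) : 0 < V K a := by
  obtain ⟨z, hz, hV⟩ := inner_pt hK h
  have hc := (V_concave hK h).2
  have hpq := (h.lt hK).le
  rcases le_total a z with haz | haz
  · have hpz : 0 < z - p := by linarith [hz.1]
    have h1 := hc (left_mem_Icc.2 hpq) (Ioo_subset_Icc_self hz)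
      (show 0 ≤ (z - a) / (z - p) by exact div_nonneg (by linarith) hpz.le)
      (show 0 ≤ (a - p) / (z - p) by exact div_nonneg (by linarith [ha.1]) hpz.le)
      (by field_simp; ring)
    have e : ((z - a) / (z - p)) • p + ((a - p) / (z - p)) • z = a := by
      simp only [smul_eq_mul]
      field_simp
      ring
    rw [e] at h1
    have h2 := V_nonneg hK h (left_mem_Icc.2 hpq)
    have h3 : 0 ≤ (z - a) / (z - p) * V K p := mul_nonneg (div_nonneg (by linarith) hpz.le) h2
    have h4 : 0 < (a - p) / (z - p) * V K z := mul_pos (div_pos (by linarith [ha.1]) hpz) hV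
    simp only [smul_eq_mul] at h1
    linarith
  · have hpz : 0 < q - z := by linarith [hz.2]
    have h1 := hc (Ioo_subset_Icc_self hz) (right_mem_Icc.2 hpq)
      (show 0 ≤ (q - a) / (q - z) by exact div_nonneg (by linarith [ha.2]) hpz.le)
      (show 0 ≤ (a - z) / (q - z) by exact div_nonneg (by linarith) hpz.le)
      (by field_simp; ring)
    have e : ((q - a) / (q - z)) • z + ((a - z) / (q - z)) • q = a := by
      simp only [smul_eq_mul]
      field_simp
      ring
    rw [e] at h1
    have h2 := V_nonneg hK h (right_mem_Icc.2 hpq)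
    have h3 : 0 ≤ (a - z) / (q - z) * V K q := mul_nonneg (div_nonneg (by linarith) hpz.le) h2
    have h4 : 0 < (q - a) / (q - z) * V K z := mul_pos (div_pos (by linarith [ha.2]) hpz) hV
    simp only [smul_eq_mul] at h1
    linarith

theorem V_cont (hK : IsConvexBody K) (h : Ends K p q) : ContinuousOn (V K) (Ioo p q) :=
  ConcaveOn.continuousOn isOpen_Ioo ((V_concave hK h).subset Ioo_subset_Icc_self (convex_Ioo _ _))

theorem V_int (hK : IsConvexBody K) (h : Ends K p q) : IntegrableOn (V K) (Ioo p q) := by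
  obtain ⟨R, hR⟩ := hK.isCompact.isBounded.exists_norm_le
  refine Integrable.of_bound ((V_cont hK h).aestronglyMeasurable measurableSet_Ioo) (2 * R) ?_
  refine (ae_restrict_iff' measurableSet_Ioo).2 (Filter.Eventually.of_forall fun a ha => ?_)
  have ha' := Ioo_subset_Icc_self ha
  have key : ∀ b, pt a b ∈ K → |b| ≤ R := by
    intro b hb
    have h1 := hR _ hb
    have h2 : |b| ≤ ‖pt a b‖ := by
      have := norm_le_pi_norm (pt a b) 1
      rwa [Real.norm_eq_abs] at this
    exact h2.trans h1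
  have h1 := abs_le.1 (key _ (lo_mem hK h ha'))
  have h2 := abs_le.1 (key _ (hi_mem hK h ha'))
  rw [Real.norm_eq_abs, abs_of_nonneg (V_nonneg hK h ha')]
  unfold V
  linarith

theorem vol_K (hK : IsConvexBody K) (h : Ends K p q) :
    volume K = ENNReal.ofReal (∫ x in Ioo p q, V K x) := by
  rw [vol_a hK.isCompact.isClosed.measurableSet]
  have h1 : ∀ a, volume {b : ℝ | pt a b ∈ K} =
      (Icc p q).indicator (fun a => ENNReal.ofReal (V K a)) a := vol_sl hK h
  simp only [h1]
  rw [lintegral_indicator measurableSet_Icc, ← setLIntegral_congr Ioo_ae_eq_Icc,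
    ofReal_integral_eq_lintegral_ofReal (V_int hK h)]
  refine (ae_restrict_iff' measurableSet_Ioo).2 (Filter.Eventually.of_forall fun a ha => ?_)
  exact V_nonneg hK h (Ioo_subset_Icc_self ha)

theorem vol_K_real (hK : IsConvexBody K) (h : Ends K p q) :
    (volume K).toReal = ∫ x in Ioo p q, V K x := by
  rw [vol_K hK h, ENNReal.toReal_ofReal]
  exact setIntegral_nonneg measurableSet_Ioo fun a ha => V_nonneg hK h (Ioo_subset_Icc_self ha)

theorem cen_fub (hK : IsConvexBody K) (h : Ends K p q) :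
    ∫ v in K, v 0 = ∫ x in Ioo p q, x * V K x := by
  have hm : MeasurableSet K := hK.isCompact.isClosed.measurableSet
  have hint : Integrable (K.indicator fun v : Fin 2 → ℝ => v 0) := by
    rw [integrable_indicator_iff hm]
    exact (continuous_apply (0 : Fin 2)).continuousOn.integrableOn_compact hK.isCompact
  have hmp := volume_preserving_finTwoArrow ℝ
  have e0 : ∀ v : Fin 2 → ℝ, (K.indicator fun v : Fin 2 → ℝ => v 0) v =
      (fun z : ℝ × ℝ => (K.indicator fun v : Fin 2 → ℝ => v 0) (pt z.1 z.2))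
        (MeasurableEquiv.finTwoArrow v) := by
    intro v
    show _ = (K.indicator fun v : Fin 2 → ℝ => v 0) (pt (v 0) (v 1))
    rw [pt_eta]
  have hint2 : Integrable (fun z : ℝ × ℝ => (K.indicator fun v : Fin 2 → ℝ => v 0) (pt z.1 z.2))
      (volume.prod volume) := by
    have := (hmp.integrable_comp_emb (MeasurableEquiv.finTwoArrow).measurableEmbedding
      (g := fun z : ℝ × ℝ => (K.indicator fun v : Fin 2 → ℝ => v 0) (pt z.1 z.2))).1 (by
        refine hint.congr (Filter.Eventually.of_forall fun v => ?_)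
        exact e0 v)
    exact this
  rw [← integral_indicator hm, integral_congr_ae (Filter.Eventually.of_forall e0),
    hmp.integral_comp' (g := fun z : ℝ × ℝ => (K.indicator fun v : Fin 2 → ℝ => v 0) (pt z.1 z.2))]
  have h2 := integral_prod _ hint2
  have h3 : (volume : Measure (ℝ × ℝ)) = volume.prod volume := rfl
  rw [h3, h2]
  have h4 : ∀ a : ℝ, ∫ b, (K.indicator fun v : Fin 2 → ℝ => v 0) (pt a b) =
      (Icc p q).indicator (fun a => a * V K a) a := by
    intro a
    have h5 : ∀ b : ℝ, (K.indicator fun v : Fin 2 → ℝ => v 0) (pt a b) =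
        (sl K a).indicator (fun _ => a) b := by
      intro b
      by_cases hb : pt a b ∈ K
      · rw [indicator_of_mem hb, indicator_of_mem (show b ∈ sl K a from hb)]
        rfl
      · rw [indicator_of_notMem hb, indicator_of_notMem (show b ∉ sl K a from hb)]
    simp only [h5]
    rw [integral_indicator_const _ (sl_compact hK.isCompact a).isClosed.measurableSet,
      Measure.real, vol_sl hK h a]
    by_cases ha : a ∈ Icc p q
    · rw [indicator_of_mem ha, indicator_of_mem ha, ENNReal.toReal_ofReal (V_nonneg hK h ha),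
        smul_eq_mul, mul_comm]
    · rw [indicator_of_notMem ha, indicator_of_notMem ha]
      simp
  simp only [h4]
  rw [integral_indicator measurableSet_Icc, integral_Icc_eq_integral_Ioc,
    integral_Ioc_eq_integral_Ioo]

theorem meas_sl {S : Set (Fin 2 → ℝ)} (hS : MeasurableSet S) :
    Measurable fun a => volume (sl S a) := by
  have : MeasurableSet {z : ℝ × ℝ | pt z.1 z.2 ∈ S} := measurable_pt hS
  exact measurable_measure_prodMk_left this

theorem centroid (hBMA : S_BMA) (hK : IsConvexBody K) (hv : volume (relBall K) ≤ volume K)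
    (h : Ends K p q) : ∫ v in K, v 0 = (p + q) / 2 * (volume K).toReal := by
  rw [cen_fub hK h, vol_K_real hK h]
  have hRm : MeasurableSet (relBall K) := (relBall_compact hK.isCompact).isClosed.measurableSet
  refine hBMA p q (V K) (fun z => volume (sl (relBall K) z)) (h.lt hK) (V_cont hK h)
    (fun x hx => V_pos hK h hx) (V_int hK h) (meas_sl hRm) ?_ ?_
  · intro x hx y hy
    have hx' := Ioo_subset_Icc_self hx
    have hy' := Ioo_subset_Icc_self hy
    have m1 : (lo K x - hi K y) / 2 ∈ sl (relBall K) ((x - y) / 2) := by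
      refine ⟨pt x (lo K x) - pt y (hi K y), ⟨_, lo_mem hK h hx', _, hi_mem hK h hy', rfl⟩, ?_⟩
      ext i
      fin_cases i <;> simp [pt] <;> ring
    have m2 : (hi K x - lo K y) / 2 ∈ sl (relBall K) ((x - y) / 2) := by
      refine ⟨pt x (hi K x) - pt y (lo K y), ⟨_, hi_mem hK h hx', _, lo_mem hK h hy', rfl⟩, ?_⟩
      ext i
      fin_cases i <;> simp [pt] <;> ring
    have hsub : Icc ((lo K x - hi K y) / 2) ((hi K x - lo K y) / 2) ⊆
        sl (relBall K) ((x - y) / 2) :=
      (sl_convex (relBall_convex hK.convex) _).ordConnected.out m1 m2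
    refine le_trans (le_of_eq ?_) (measure_mono hsub)
    rw [Real.volume_Icc]
    congr 1
    unfold V
    ring
  · rw [← vol_K hK h]
    refine (setLIntegral_le_lintegral _ _).trans ?_
    have := vol_a hRm
    exact this.symm.le.trans hv

/-! ### all directions -/

noncomputable def rowMap (l m : ℝ) : (Fin 2 → ℝ) →ₗ[ℝ] (Fin 2 → ℝ) :=
  Matrix.toLin' !![l, m; -m, l]

theorem rowMap_det (l m : ℝ) : LinearMap.det (rowMap l m) = l ^ 2 + m ^ 2 := by
  unfold rowMap
  rw [LinearMap.det_toLin', Matrix.det_fin_two]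
  simp
  ring

theorem rowMap_apply (l m : ℝ) (v : Fin 2 → ℝ) : rowMap l m v 0 = l * v 0 + m * v 1 := by
  unfold rowMap
  rw [Matrix.toLin'_apply]
  simp [Matrix.mulVec, dotProduct, Fin.sum_univ_two]

theorem centroid_l (hBMA : S_BMA) (hK : IsConvexBody K) (hv : volume (relBall K) ≤ volume K)
    {l m : ℝ} (hlm : l ^ 2 + m ^ 2 ≠ 0) (h1 : ∃ v ∈ K, l * v 0 + m * v 1 = p)
    (h2 : ∃ v ∈ K, l * v 0 + m * v 1 = q) (h3 : ∀ v ∈ K, p ≤ l * v 0 + m * v 1)
    (h4 : ∀ v ∈ K, l * v 0 + m * v 1 ≤ q) :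
    l * (∫ v in K, v 0) + m * ∫ v in K, v 1 = (p + q) / 2 * (volume K).toReal := by
  have hdet : LinearMap.det (rowMap l m) ≠ 0 := by rw [rowMap_det]; exact hlm
  set A := (LinearMap.equivOfDetNeZero (rowMap l m) hdet).toContinuousLinearEquiv with hA
  have hAe : (A : (Fin 2 → ℝ) →ₗ[ℝ] (Fin 2 → ℝ)) = rowMap l m := by
    ext z; rfl
  have hA0 : ∀ v, A v 0 = l * v 0 + m * v 1 := fun v => rowMap_apply l m v
  have hK' := body_image hK A
  have hv' : volume (relBall (A '' K)) ≤ volume (A '' K) := by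
    rw [relBall_image, vol_image', vol_image']
    gcongr
  have hE : Ends (A '' K) p q := by
    obtain ⟨v, hv, e⟩ := h1
    obtain ⟨w, hw, f⟩ := h2
    refine ⟨⟨A v, ⟨v, hv, rfl⟩, (hA0 v).trans e⟩, ⟨A w, ⟨w, hw, rfl⟩, (hA0 w).trans f⟩, ?_, ?_⟩
    · rintro _ ⟨v, hv, rfl⟩
      rw [hA0]
      exact h3 v hv
    · rintro _ ⟨v, hv, rfl⟩
      rw [hA0]
      exact h4 v hv
  have hc := centroid hBMA hK' hv' hE
  have hm : MeasurableSet K := hK.isCompact.isClosed.measurableSet
  have hi := integral_image_eq_integral_abs_det_fderiv_smul volume hm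
    (f := A) (f' := fun _ => (A : (Fin 2 → ℝ) →L[ℝ] (Fin 2 → ℝ)))
    (fun x _ => A.hasFDerivAt.hasFDerivWithinAt) A.injective.injOn (fun v => v 0)
  have hdA : (A : (Fin 2 → ℝ) →L[ℝ] (Fin 2 → ℝ)).det = l ^ 2 + m ^ 2 := by
    rw [ContinuousLinearMap.det, ← rowMap_det, ← hAe]
    rfl
  have hpos : 0 < l ^ 2 + m ^ 2 := lt_of_le_of_ne (by positivity) (Ne.symm hlm)
  have i0 : IntegrableOn (fun v : Fin 2 → ℝ => v 0) K :=
    (continuous_apply (0 : Fin 2)).continuousOn.integrableOn_compact hK.isCompact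
  have i1 : IntegrableOn (fun v : Fin 2 → ℝ => v 1) K :=
    (continuous_apply (1 : Fin 2)).continuousOn.integrableOn_compact hK.isCompact
  rw [hi] at hc
  simp only [hA0, smul_eq_mul] at hc
  rw [integral_const_mul, integral_add (i0.const_mul l) (i1.const_mul m), integral_const_mul,
    integral_const_mul, vol_image', hAe, rowMap_det, hdA, abs_of_pos hpos, ENNReal.toReal_mul,
    ENNReal.toReal_ofReal hpos.le] at hc
  have hc2 : (l ^ 2 + m ^ 2) * (l * (∫ v in K, v 0) + m * ∫ v in K, v 1) =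
      (l ^ 2 + m ^ 2) * ((p + q) / 2 * (volume K).toReal) := by
    linarith
  exact mul_left_cancel₀ hpos.ne' hc2

end BMB

theorem bmb : S_BMB := by
  intro hBMA K hK hv
  have hV0 : 0 < (volume K).toReal := by
    refine ENNReal.toReal_pos ?_ hK.isCompact.measure_lt_top.ne
    exact (Measure.measure_pos_of_nonempty_interior volume hK.interior_nonempty).ne'
  set M0 := ∫ v in K, v 0 with hM0
  set M1 := ∫ v in K, v 1 with hM1
  set g : Fin 2 → ℝ := pt (M0 / (volume K).toReal) (M1 / (volume K).toReal) with hg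
  have hne : K.Nonempty := hK.interior_nonempty.mono interior_subset
  -- reflection in `g`
  have hrefl : ∀ x ∈ K, (2:ℝ) • g - x ∈ K := by
    intro x hx
    by_contra hnot
    obtain ⟨f, u, hfu, hux⟩ := geometric_hahn_banach_closed_point hK.convex hK.isCompact.isClosed hnot
    set l := f (pt 1 0) with hl
    set m := f (pt 0 1) with hm
    have hf : ∀ v, f v = l * v 0 + m * v 1 := by
      intro v
      have : v = v 0 • pt 1 0 + v 1 • pt 0 1 := by
        ext i; fin_cases i <;> simp [pt]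
      conv_lhs => rw [this]
      rw [map_add, map_smul, map_smul, smul_eq_mul, smul_eq_mul]
      ring
    have hlm : l ^ 2 + m ^ 2 ≠ 0 := by
      intro h0
      have l0 : l = 0 := by nlinarith [sq_nonneg l, sq_nonneg m]
      have m0 : m = 0 := by nlinarith [sq_nonneg l, sq_nonneg m]
      have a1 := hfu x hx
      rw [hf, l0, m0] at a1
      rw [hf, l0, m0] at hux
      linarith
    have hfc : ContinuousOn (fun v => f v) K := f.continuous.continuousOn
    obtain ⟨a, ha, hamin⟩ := hK.isCompact.exists_isMinOn hne hfc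
    obtain ⟨b, hb, hbmax⟩ := hK.isCompact.exists_isMaxOn hne hfc
    have hc := BMB.centroid_l hBMA hK hv (l := l) (m := m) (p := f a) (q := f b) hlm
      ⟨a, ha, (hf a).symm⟩ ⟨b, hb, (hf b).symm⟩ (fun v hv => by rw [← hf]; exact hamin hv)
      (fun v hv => by rw [← hf]; exact hbmax hv)
    have hfg : f g = (f a + f b) / 2 := by
      rw [hf]
      have e0 : g 0 = M0 / (volume K).toReal := rfl
      have e1 : g 1 = M1 / (volume K).toReal := rfl
      rw [e0, e1]
      field_simp
      linarith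
    rw [map_sub, map_smul, hfg, smul_eq_mul] at hux
    have h1 : f a ≤ f x := hamin hx
    have h2 := hfu b hb
    linarith
  refine ⟨g, ?_⟩
  ext x
  constructor
  · intro hx
    refine ⟨x - g, ⟨x - ((2:ℝ) • g - x), ⟨x, hx, _, hrefl x hx, rfl⟩, ?_⟩, ?_⟩
    · show (1 / 2 : ℝ) • (x - ((2:ℝ) • g - x)) = x - g
      ext i
      simp only [Pi.smul_apply, Pi.sub_apply, smul_eq_mul]
      ring
    · show g + (x - g) = x
      abel
  · rintro ⟨_, ⟨_, ⟨a, ha, b, hb, rfl⟩, rfl⟩, rfl⟩
    have h1 := hK.convex ha (hrefl b hb) (show (0:ℝ) ≤ 1 / 2 by norm_num)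
      (show (0:ℝ) ≤ 1 / 2 by norm_num) (by norm_num)
    have e : g +ᵥ ((1 / 2 : ℝ) • (a - b)) = (1 / 2 : ℝ) • a + (1 / 2 : ℝ) • ((2:ℝ) • g - b) := by
      ext i
      simp only [vadd_eq_add, Pi.add_apply, Pi.smul_apply, Pi.sub_apply, smul_eq_mul]
      ring
    show g +ᵥ ((1 / 2 : ℝ) • (a - b)) ∈ K
    rw [e]
    exact h1

end Pool.Agent.Q201.HTM
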