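import Pool.Agent.Q201.HTM.Stm

/-!
# Calibration: CALA, CALB, VAL
-/

set_option autoImplicit false
open MeasureTheory Set

namespace Pool.Agent.Q201.HTM

noncomputable def RR (g t : ℝ) : ℝ := √(g ^ 4 - 4 * cc * t ^ 2)

theorem al_def (g t : ℝ) : al g t = 2 * cc / (g ^ 2 + RR g t) := rfl

/-- the domain -/
def Dom (g t : ℝ) : Prop := |t| ≤ 1 / 2 ∧ 1 / 2 + |t| ≤ g

theorem Dom.g_pos {g t : ℝ} (h : Dom g t) : 0 < g := by
  have := h.2
  have := abs_nonneg t
  linarith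

theorem Dom.sq {g t : ℝ} (h : Dom g t) : 2 * |t| ≤ g ^ 2 := by
  have h1 := h.2
  have h2 := abs_nonneg t
  have h3 : (1 / 2 + |t|) ^ 2 ≤ g ^ 2 := pow_le_pow_left₀ (by positivity) h1 2
  nlinarith [sq_nonneg (1 / 2 - |t|)]

theorem Dom.four {g t : ℝ} (h : Dom g t) : 4 * t ^ 2 ≤ g ^ 4 := by
  have h1 := h.sq
  have h3 : (2 * |t|) ^ 2 ≤ (g ^ 2) ^ 2 := pow_le_pow_left₀ (by positivity) h1 2
  rw [mul_pow, sq_abs] at h3
  nlinarith

theorem Dom.rad {g t : ℝ} (h : Dom g t) : 0 < g ^ 4 - 4 * cc * t ^ 2 := by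
  have h1 := h.four
  have h2 := cc_pos
  have h3 := cc_lt
  have h4 : 0 < g ^ 4 := pow_pos h.g_pos 4
  have h5 : cc * (4 * t ^ 2) ≤ cc * g ^ 4 := by gcongr
  nlinarith

theorem Dom.R_pos {g t : ℝ} (h : Dom g t) : 0 < RR g t := Real.sqrt_pos.2 h.rad

theorem Dom.R_sq {g t : ℝ} (h : Dom g t) : RR g t ^ 2 = g ^ 4 - 4 * cc * t ^ 2 :=
  Real.sq_sqrt h.rad.le

theorem Dom.P_pos {g t : ℝ} (h : Dom g t) : 0 < g ^ 2 + RR g t := by
  have := h.R_pos
  have := h.g_pos
  positivity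

theorem Dom.root {g t : ℝ} (h : Dom g t) : t ^ 2 * al g t ^ 2 - g ^ 2 * al g t + cc = 0 := by
  have h1 := h.P_pos
  have h2 := h.R_sq
  rw [al_def]
  set R := RR g t
  have : t ^ 2 * (2 * cc / (g ^ 2 + R)) ^ 2 - g ^ 2 * (2 * cc / (g ^ 2 + R)) + cc =
      cc / (g ^ 2 + R) ^ 2 * (R ^ 2 - (g ^ 4 - 4 * cc * t ^ 2)) := by
    field_simp
    ring
  rw [this, h2]
  ring

theorem Dom.key {g t : ℝ} (h : Dom g t) : vv g t ^ 2 = al g t - cc / g ^ 2 := by
  have h1 := h.root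
  have h2 := h.g_pos
  unfold vv
  field_simp
  linarith

theorem dom {G : ℝ → ℝ} (h : GOK G) {t : ℝ} (ht : t ∈ Icc (-1 / 2 : ℝ) (1 / 2)) : Dom (G t) t := by
  refine ⟨?_, h.ge t ht⟩
  rw [abs_le]
  constructor <;> linarith [ht.1, ht.2]

/-! ### the primitive -/

noncomputable def et (x : ℝ) : ℝ := 1 / (1 + √(1 - x ^ 2))

theorem et_cont : Continuous et := by
  unfold et
  refine continuous_const.div (by fun_prop) fun x => ?_
  positivity

noncomputable def eta (w : ℝ) : ℝ := ∫ x in (0:ℝ)..w, et x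

theorem eta_deriv (w : ℝ) : HasDerivAt eta (et w) w :=
  intervalIntegral.integral_hasDerivAt_right (et_cont.intervalIntegrable _ _)
    (et_cont.stronglyMeasurableAtFilter _ _) et_cont.continuousAt

noncomputable def FF (w : ℝ) : ℝ := Real.arcsin w - w / (1 + √(1 - w ^ 2))

theorem FF_deriv {w : ℝ} (hw : w ∈ Ioo (-1:ℝ) 1) : HasDerivAt FF (et w) w := by
  have h0 : 0 < 1 - w ^ 2 := by nlinarith [hw.1, hw.2]
  have hr : 0 < √(1 - w ^ 2) := Real.sqrt_pos.2 h0
  have h1 := Real.hasDerivAt_arcsin hw.1.ne' hw.2.ne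
  have h2 : HasDerivAt (fun w : ℝ => 1 - w ^ 2) (-(2 * w)) w := by
    have := (hasDerivAt_pow 2 w).const_sub 1
    simpa using this
  have h3 := (h2.sqrt h0.ne').const_add 1
  have h4 := (hasDerivAt_id w).div h3 (by positivity)
  have h5 := h1.sub h4
  refine h5.congr_deriv ?_
  have hs : √(1 - w ^ 2) ^ 2 = 1 - w ^ 2 := Real.sq_sqrt h0.le
  unfold et
  set r := √(1 - w ^ 2)
  simp only [id]
  have hw2 : w ^ 2 = 1 - r ^ 2 := by linarith
  have hrr : 0 < 1 + r := by linarith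
  field_simp
  rw [hw2]
  ring

theorem eta_eq {w : ℝ} (hw : w ∈ Ioo (-1:ℝ) 1) : eta w = FF w := by
  have h : ∫ x in (0:ℝ)..w, et x = FF w - FF 0 := by
    refine intervalIntegral.integral_eq_sub_of_hasDerivAt (fun x hx => FF_deriv ?_)
      (et_cont.intervalIntegrable _ _)
    have hs : uIcc 0 w ⊆ Ioo (-1:ℝ) 1 := (Set.ordConnected_Ioo (a := (-1:ℝ)) (b := 1)).uIcc_subset
      ⟨by norm_num, by norm_num⟩ hw
    exact hs hx
  have h0 : FF 0 = 0 := by simp [FF]
  unfold eta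
  rw [h, h0, sub_zero]

theorem et_le (x : ℝ) : et x ≤ 1 := by
  unfold et
  rw [div_le_one (by positivity)]
  have := Real.sqrt_nonneg (1 - x ^ 2)
  linarith

theorem et_nonneg (x : ℝ) : 0 ≤ et x := by
  unfold et
  positivity

theorem eta_lip : LipschitzWith 1 eta := by
  refine lipschitzWith_of_nnnorm_deriv_le (fun w => (eta_deriv w).differentiableAt) fun w => ?_
  rw [(eta_deriv w).deriv, ← NNReal.coe_le_coe, coe_nnnorm, Real.norm_eq_abs,
    abs_of_nonneg (et_nonneg w)]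
  exact et_le w

theorem sqrt_cc_sq : √cc ^ 2 = cc := Real.sq_sqrt cc_pos.le

theorem sqrt_cc_pos : 0 < √cc := Real.sqrt_pos.2 cc_pos

theorem sqrt_cc_lt : √cc < 1 := by
  rw [Real.sqrt_lt' one_pos]
  simpa using cc_lt

theorem FF_cc : FF (√cc) = Real.arccos cc - √cc * cc := by
  have h1 := cc_sq
  have hc := cc_pos
  unfold FF
  have h2 : √(1 - √cc ^ 2) = cc := by
    rw [sqrt_cc_sq, ← h1, Real.sqrt_sq hc.le]
  have h3 : Real.arccos cc = Real.arcsin (√cc) := by
    rw [Real.arccos_eq_arcsin hc.le, h1]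
    congr 2
    ring
  rw [h2, h3]
  congr 1
  rw [div_eq_iff (by positivity)]
  nlinarith [sqrt_cc_pos]

theorem FF_neg (w : ℝ) : FF (-w) = -FF w := by
  unfold FF
  rw [Real.arcsin_neg, neg_sq]
  ring

/-- `w` -/
noncomputable def ww (G : ℝ → ℝ) (t : ℝ) : ℝ := 2 * √cc * t / G t ^ 2

noncomputable def HH (G : ℝ → ℝ) (t : ℝ) : ℝ := √cc * eta (ww G t)

theorem HH_ends {G : ℝ → ℝ} (h : GOK G) : HH G (1 / 2) - HH G (-1 / 2) = CC := by
  have e1 : ww G (1 / 2) = √cc := by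
    unfold ww
    rw [h.right]
    ring
  have e2 : ww G (-1 / 2) = -√cc := by
    unfold ww
    rw [h.left]
    ring
  unfold HH
  have hs := sqrt_cc_pos
  have hl := sqrt_cc_lt
  rw [e1, e2, eta_eq ⟨by linarith, hl⟩, eta_eq ⟨by linarith, by linarith⟩, FF_neg, FF_cc]
  unfold CC
  linear_combination (-2 * cc) * sqrt_cc_sq

theorem uIcc_half : uIcc (-1 / 2 : ℝ) (1 / 2) = Icc (-1 / 2) (1 / 2) := uIcc_of_le (by norm_num)

theorem inv_sq_lip {G : ℝ → ℝ} (h : GOK G) :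
    LipschitzOnWith 40 (ww G) (Icc (-1 / 2 : ℝ) (1 / 2)) := by
  refine LipschitzOnWith.of_dist_le_mul fun a ha b hb => ?_
  rw [Real.dist_eq, Real.dist_eq]
  have hl : |G a - G b| ≤ |a - b| := by
    have := h.lip.dist_le_mul a ha b hb
    rwa [Real.dist_eq, Real.dist_eq, NNReal.coe_one, one_mul] at this
  have pa := (dom h ha)
  have pb := (dom h hb)
  have ga := pa.g_pos
  have gb := pb.g_pos
  have ga' : 1 / 2 ≤ G a := by linarith [pa.2, abs_nonneg a]
  have gb' : 1 / 2 ≤ G b := by linarith [pb.2, abs_nonneg b]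
  have la := h.le_one ha
  have lb := h.le_one hb
  have hs := sqrt_cc_pos
  have hl1 := sqrt_cc_lt
  have e : ww G a - ww G b = 2 * √cc * ((a - b) / G a ^ 2 +
      b * ((G b - G a) * (G b + G a)) / (G a ^ 2 * G b ^ 2)) := by
    unfold ww
    field_simp
    ring
  have b1 : |(a - b) / G a ^ 2| ≤ 4 * |a - b| := by
    rw [abs_div, abs_of_pos (show 0 < G a ^ 2 by positivity), div_le_iff₀ (by positivity)]
    have : (1:ℝ) ≤ 4 * G a ^ 2 := by nlinarith
    have := abs_nonneg (a - b)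
    nlinarith
  have b2 : |b * ((G b - G a) * (G b + G a)) / (G a ^ 2 * G b ^ 2)| ≤ 16 * |a - b| := by
    rw [abs_div, abs_of_pos (show 0 < G a ^ 2 * G b ^ 2 by positivity),
      div_le_iff₀ (by positivity), abs_mul, abs_mul, abs_of_pos (show 0 < G b + G a by positivity),
      abs_sub_comm (G b)]
    have k1 : |b| ≤ 1 / 2 := pb.1
    have k2 : |G a - G b| * (G b + G a) ≤ |a - b| * 2 := by
      refine mul_le_mul hl (by linarith) (by positivity) (abs_nonneg _)
    have k3 : |b| * (|G a - G b| * (G b + G a)) ≤ 1 / 2 * (|a - b| * 2) :=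
      mul_le_mul k1 k2 (by positivity) (by norm_num)
    have k4 : (1:ℝ) ≤ 4 * G a ^ 2 := by nlinarith
    have k5 : (1:ℝ) ≤ 4 * G b ^ 2 := by nlinarith
    have k6 : (1:ℝ) ≤ 16 * (G a ^ 2 * G b ^ 2) := by nlinarith
    have := abs_nonneg (a - b)
    calc |b| * (|G a - G b| * (G b + G a)) ≤ 1 * |a - b| := by linarith
      _ ≤ 16 * (G a ^ 2 * G b ^ 2) * |a - b| := by gcongr
      _ = _ := by ring
  rw [e, abs_mul, abs_of_pos (show 0 < 2 * √cc by positivity)]
  have b3 := (abs_add_le ((a - b) / G a ^ 2)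
    (b * ((G b - G a) * (G b + G a)) / (G a ^ 2 * G b ^ 2))).trans (add_le_add b1 b2)
  calc 2 * √cc * |(a - b) / G a ^ 2 + b * ((G b - G a) * (G b + G a)) / (G a ^ 2 * G b ^ 2)|
      ≤ 2 * √cc * (4 * |a - b| + 16 * |a - b|) := by gcongr
    _ ≤ 2 * 1 * (4 * |a - b| + 16 * |a - b|) := by gcongr
    _ = _ := by
      show _ = (40 : ℝ) * |a - b|
      ring

theorem HH_ac {G : ℝ → ℝ} (h : GOK G) :
    AbsolutelyContinuousOnInterval (HH G) (-1 / 2) (1 / 2) := by
  have h1 : LipschitzOnWith (1 * 40) (fun t => eta (ww G t)) (uIcc (-1 / 2 : ℝ) (1 / 2)) := by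
    rw [uIcc_half]
    exact (eta_lip.lipschitzOnWith (s := univ)).comp (inv_sq_lip h) (mapsTo_univ _ _)
  exact h1.absolutelyContinuousOnInterval.const_mul (√cc)

theorem G_ac {G : ℝ → ℝ} (h : GOK G) : AbsolutelyContinuousOnInterval G (-1 / 2) (1 / 2) := by
  have h1 : LipschitzOnWith 1 G (uIcc (-1 / 2 : ℝ) (1 / 2)) := by
    rw [uIcc_half]
    exact h.lip
  exact h1.absolutelyContinuousOnInterval

theorem HH_deriv {G : ℝ → ℝ} (h : GOK G) {t g' : ℝ} (ht : t ∈ Icc (-1 / 2 : ℝ) (1 / 2))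
    (hd : HasDerivAt G g' t) : HasDerivAt (HH G) (al (G t) t - 2 * vv (G t) t * g') t := by
  have hD := dom h ht
  have hg := hD.g_pos
  have hR := hD.R_pos
  have hP := hD.P_pos
  have hRs := hD.R_sq
  have h1 : HasDerivAt (ww G) ((2 * √cc * G t ^ 2 - 2 * √cc * t * (2 * G t * g')) / (G t ^ 2) ^ 2) t := by
    have h2 : HasDerivAt (fun t : ℝ => 2 * √cc * t) (2 * √cc) t := by
      simpa using (hasDerivAt_id t).const_mul (2 * √cc)
    have h3 : HasDerivAt (fun t : ℝ => G t ^ 2) (2 * G t * g') t := by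
      simpa using hd.fun_pow 2
    exact h2.div h3 (by positivity)
  have h4 := ((eta_deriv (ww G t)).comp t h1).const_mul (√cc)
  refine h4.congr_deriv ?_
  have hw : √(1 - ww G t ^ 2) = RR (G t) t / G t ^ 2 := by
    rw [eq_div_iff (by positivity)]
    have e1 : G t ^ 2 = √(G t ^ 4) := by
      rw [show G t ^ 4 = (G t ^ 2) ^ 2 by ring, Real.sqrt_sq (by positivity)]
    unfold RR
    conv_lhs => rw [e1]
    rw [← Real.sqrt_mul' _ (by positivity)]
    congr 1
    unfold ww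
    have := sqrt_cc_sq
    field_simp
    rw [this]
    ring
  unfold et
  rw [hw]
  unfold vv
  rw [al_def]
  have hs := sqrt_cc_sq
  set R := RR (G t) t
  field_simp
  rw [hs]
  ring

theorem deriv_le {G : ℝ → ℝ} (h : GOK G) {t : ℝ} (ht : t ∈ Ioo (-1 / 2 : ℝ) (1 / 2)) :
    |deriv G t| ≤ 1 := by
  have := norm_deriv_le_of_lipschitzOn (Icc_mem_nhds ht.1 ht.2) h.lip
  rwa [Real.norm_eq_abs] at this

theorem sq_int {G : ℝ → ℝ} (h : GOK G) :
    IntervalIntegrable (fun t => deriv G t ^ 2) volume (-1 / 2) (1 / 2) := by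
  rw [intervalIntegrable_iff_integrableOn_Ioo_of_le (by norm_num)]
  refine Measure.integrableOn_of_bounded (M := 1) (by simp)
    ((measurable_deriv G).pow_const 2).aestronglyMeasurable ?_
  refine (ae_restrict_iff' measurableSet_Ioo).2 (Filter.Eventually.of_forall fun t ht => ?_)
  rw [Real.norm_eq_abs, abs_pow, sq_abs, ← sq_abs]
  exact pow_le_one₀ (abs_nonneg _) (deriv_le h ht)

theorem inv_int {G : ℝ → ℝ} (h : GOK G) :
    IntervalIntegrable (fun t => 1 / G t ^ 2) volume (-1 / 2) (1 / 2) := by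
  apply ContinuousOn.intervalIntegrable
  rw [uIcc_half]
  exact continuousOn_const.div (h.cont.pow 2) fun t ht => (pow_pos (h.pos ht) 2).ne'

/-- the pointwise identity -/
theorem integrand {G : ℝ → ℝ} (h : GOK G) : ∀ᵐ t, t ∈ uIoc (-1 / 2 : ℝ) (1 / 2) →
    (deriv G t - vv (G t) t) ^ 2 = deriv G t ^ 2 - cc * (1 / G t ^ 2) + deriv (HH G) t := by
  filter_upwards [(G_ac h).ae_differentiableAt] with t ht ht'
  have ht2 : t ∈ Icc (-1 / 2 : ℝ) (1 / 2) := by
    rw [← uIcc_half]; exact uIoc_subset_uIcc ht'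
  have h1 := (ht (uIoc_subset_uIcc ht')).hasDerivAt
  rw [(HH_deriv h ht2 h1).deriv]
  have h2 := (dom h ht2).key
  linear_combination h2

theorem cala : S_CALA := by
  intro G h
  have h1 := (HH_ac h).intervalIntegrable_deriv
  have h2 := sq_int h
  have h3 := (inv_int h).const_mul cc
  unfold Def
  rw [intervalIntegral.integral_congr_ae (integrand h), intervalIntegral.integral_add (h2.sub h3) h1,
    intervalIntegral.integral_sub h2 h3, intervalIntegral.integral_const_mul,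
    (HH_ac h).integral_deriv_eq_sub, HH_ends h]
  unfold I1 I2
  ring

end Pool.Agent.Q201.HTM
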