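import Pool.Agent.Q201.HTM.Cal

/-!
# CALB, VAL
-/

set_option autoImplicit false
open MeasureTheory Set

namespace Pool.Agent.Q201.HTM

theorem inv2 : 1 / (2 * cc) = (1 + cc) / 2 := by
  have h1 := cc_sq
  have hc := cc_pos
  rw [div_eq_iff (by positivity)]
  nlinarith

theorem val : S_VAL := by
  intro G h hG
  have hc := cc_pos
  have hc1 := cc_lt
  have hcs := cc_sq
  have hR : ∀ t ∈ Icc (-1 / 2 : ℝ) (1 / 2), RR (G t) t = 1 / (2 * cc) - 2 * cc ^ 2 * t ^ 2 := by
    intro t ht
    have h1 := hG t ht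
    have e : G t ^ 4 - 4 * cc * t ^ 2 = (1 / (2 * cc) - 2 * cc ^ 2 * t ^ 2) ^ 2 := by
      have : G t ^ 4 = (G t ^ 2) ^ 2 := by ring
      rw [this, h1]
      field_simp
      ring
    unfold RR
    rw [e, Real.sqrt_sq]
    rw [inv2]
    have h2 : t ^ 2 ≤ 1 / 4 := by nlinarith [ht.1, ht.2]
    have h3 : cc ^ 2 * t ^ 2 ≤ 1 * (1 / 4) := by
      refine mul_le_mul (by nlinarith) h2 (by positivity) (by norm_num)
    nlinarith
  have hal : ∀ t ∈ Icc (-1 / 2 : ℝ) (1 / 2), al (G t) t = 2 * cc ^ 2 := by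
    intro t ht
    rw [al_def, hR t ht, hG t ht]
    field_simp
    ring
  have hd : ∀ t ∈ Ioo (-1 / 2 : ℝ) (1 / 2), deriv G t = 2 * cc ^ 2 * t / G t := by
    intro t ht
    have ht' : t ∈ Icc (-1 / 2 : ℝ) (1 / 2) := Ioo_subset_Icc_self ht
    have hgp := h.pos ht'
    have hsq : ∀ s ∈ Icc (-1 / 2 : ℝ) (1 / 2), G s = √(2 * cc ^ 2 * s ^ 2 + 1 / (2 * cc)) := by
      intro s hs
      rw [← hG s hs, Real.sqrt_sq (h.pos hs).le]
    have hev : G =ᶠ[nhds t] fun s => √(2 * cc ^ 2 * s ^ 2 + 1 / (2 * cc)) := by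
      filter_upwards [Icc_mem_nhds ht.1 ht.2] with s hs using hsq s hs
    have h1 : HasDerivAt (fun s : ℝ => 2 * cc ^ 2 * s ^ 2 + 1 / (2 * cc)) (2 * cc ^ 2 * (2 * t)) t := by
      have := ((hasDerivAt_pow 2 t).const_mul (2 * cc ^ 2)).add_const (1 / (2 * cc))
      simpa using this
    have h2 := h1.sqrt (by positivity)
    rw [hev.deriv_eq, h2.deriv, ← hsq t ht']
    field_simp
  have hDef : Def G = 0 := by
    unfold Def
    rw [intervalIntegral.integral_congr_Ioo_of_le (g := fun _ => (0:ℝ)) (by norm_num) ?_]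
    · simp
    · intro t ht
      simp only
      rw [hd t ht]
      unfold vv
      rw [hal t (Ioo_subset_Icc_self ht), sub_self]
      ring
  refine ⟨hDef, ?_⟩
  have hI2 : I2 G = 2 * cc ^ 2 - cc * I1 G := by
    have e : I2 G = ∫ t in (-1 / 2 : ℝ)..(1 / 2), (2 * cc ^ 2 - cc * (1 / G t ^ 2)) := by
      unfold I2
      refine intervalIntegral.integral_congr_Ioo_of_le (by norm_num) fun t ht => ?_
      have hgp := h.pos (Ioo_subset_Icc_self ht)
      rw [hd t ht, div_pow]
      have e2 := hG t (Ioo_subset_Icc_self ht)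
      rw [div_eq_iff (by positivity)]
      have e3 : (2 * cc ^ 2 - cc * (1 / G t ^ 2)) * G t ^ 2 = 2 * cc ^ 2 * G t ^ 2 - cc := by
        field_simp
      rw [e3, e2]
      field_simp
      ring
    rw [e, intervalIntegral.integral_sub (by simp) ((inv_int h).const_mul cc),
      intervalIntegral.integral_const_mul]
    simp only [intervalIntegral.integral_const, I1]
    norm_num
  rw [hI2]
  linear_combination 4 * hcs

theorem calb : S_CALB := by
  intro G h h0
  have hc := cc_pos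
  have hc1 := cc_lt
  have hcs := cc_sq
  -- the integrand vanishes almost everywhere
  have hint : IntervalIntegrable (fun t => (deriv G t - vv (G t) t) ^ 2) volume (-1 / 2) (1 / 2) := by
    have h2 := (sq_int h).sub ((inv_int h).const_mul cc)
    have h3 := h2.add (HH_ac h).intervalIntegrable_deriv
    refine h3.congr_ae ?_
    rw [Filter.EventuallyEq, ae_restrict_iff' measurableSet_uIoc]
    filter_upwards [integrand h] with t ht ht'
    rw [ht ht']
  have hz : ∀ᵐ t, t ∈ Ioc (-1 / 2 : ℝ) (1 / 2) → deriv G t = vv (G t) t := by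
    have h1 := (intervalIntegral.integral_eq_zero_iff_of_le_of_nonneg_ae (by norm_num)
      (Filter.Eventually.of_forall fun t => sq_nonneg _) hint).1 h0
    rw [Filter.EventuallyEq, ae_restrict_iff' measurableSet_Ioc] at h1
    filter_upwards [h1] with t ht ht'
    have h2 := ht ht'
    simp only [Pi.zero_apply] at h2
    have h3 := pow_eq_zero_iff (two_ne_zero) |>.1 h2
    linarith
  have hvc : ContinuousOn (fun t => vv (G t) t) (Icc (-1 / 2 : ℝ) (1 / 2)) := by
    have hP : ContinuousOn (fun t => G t ^ 2 + RR (G t) t) (Icc (-1 / 2 : ℝ) (1 / 2)) := by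
      refine (h.cont.pow 2).add (ContinuousOn.sqrt ?_)
      exact (h.cont.pow 4).sub (by fun_prop)
    have ha : ContinuousOn (fun t => al (G t) t) (Icc (-1 / 2 : ℝ) (1 / 2)) :=
      continuousOn_const.div hP fun t ht => (dom h ht).P_pos.ne'
    exact (ha.mul continuousOn_id).div h.cont fun t ht => (h.pos ht).ne'
  have hPc : ContinuousOn (fun t => G t ^ 2 + RR (G t) t) (Icc (-1 / 2 : ℝ) (1 / 2)) := by
    refine (h.cont.pow 2).add (ContinuousOn.sqrt ?_)
    exact (h.cont.pow 4).sub (by fun_prop)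
  have hG : ∀ x ∈ Icc (-1 / 2 : ℝ) (1 / 2), G x = G (-1 / 2) + ∫ t in (-1 / 2 : ℝ)..x, vv (G t) t := by
    intro x hx
    have h1 : AbsolutelyContinuousOnInterval G (-1 / 2) x := by
      refine (G_ac h).mono ?_
      rw [uIcc_half, uIcc_of_le hx.1]
      exact Icc_subset_Icc le_rfl hx.2
    have h2 := h1.integral_deriv_eq_sub
    have h3 : ∫ t in (-1 / 2 : ℝ)..x, deriv G t = ∫ t in (-1 / 2 : ℝ)..x, vv (G t) t := by
      refine intervalIntegral.integral_congr_ae ?_
      filter_upwards [hz] with t ht ht'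
      rw [uIoc_of_le hx.1] at ht'
      exact ht ⟨ht'.1, ht'.2.trans hx.2⟩
    rw [← h3, h2]
    ring
  have hd : ∀ t ∈ Ioo (-1 / 2 : ℝ) (1 / 2), HasDerivAt G (vv (G t) t) t := by
    intro t ht
    have hev : G =ᶠ[nhds t] fun x => G (-1 / 2) + ∫ t in (-1 / 2 : ℝ)..x, vv (G t) t := by
      filter_upwards [Icc_mem_nhds ht.1 ht.2] with s hs using hG s hs
    refine HasDerivAt.congr_of_eventuallyEq ?_ hev
    refine HasDerivAt.const_add _ ?_
    refine intervalIntegral.integral_hasDerivAt_right ?_ ?_ ?_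
    · apply ContinuousOn.intervalIntegrable
      rw [uIcc_of_le ht.1.le]
      exact hvc.mono (Icc_subset_Icc le_rfl ht.2.le)
    · exact (hvc.mono Ioo_subset_Icc_self).stronglyMeasurableAtFilter isOpen_Ioo t ht
    · exact hvc.continuousAt (Icc_mem_nhds ht.1 ht.2)
  have hPd : ∀ t ∈ Ioo (-1 / 2 : ℝ) (1 / 2), HasDerivAt (fun t => G t ^ 2 + RR (G t) t) 0 t := by
    intro t ht
    have hD := dom h (Ioo_subset_Icc_self ht)
    have hg := hD.g_pos
    have hR := hD.R_pos
    have hP := hD.P_pos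
    have h1 := hd t ht
    have h2 : HasDerivAt (fun t : ℝ => G t ^ 2) (2 * G t * vv (G t) t) t := by
      simpa using h1.fun_pow 2
    have h3 : HasDerivAt (fun t : ℝ => G t ^ 4) (4 * G t ^ 3 * vv (G t) t) t := by
      simpa using h1.fun_pow 4
    have h4 : HasDerivAt (fun t : ℝ => 4 * cc * t ^ 2) (4 * cc * (2 * t)) t := by
      simpa using (hasDerivAt_pow 2 t).const_mul (4 * cc)
    have h5 := (h3.sub h4).sqrt hD.rad.ne'
    refine (h2.add h5).congr_deriv ?_
    have e : √(G t ^ 4 - 4 * cc * t ^ 2) = RR (G t) t := rfl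
    simp only [Pi.sub_apply]
    rw [e]
    unfold vv
    rw [al_def]
    set R := RR (G t) t
    field_simp
    ring
  have hmono : MonotoneOn (fun t => G t ^ 2 + RR (G t) t) (Icc (-1 / 2 : ℝ) (1 / 2)) := by
    refine monotoneOn_of_deriv_nonneg (convex_Icc _ _) hPc ?_ ?_
    · intro x hx
      rw [interior_Icc] at hx
      exact (hPd x hx).differentiableAt.differentiableWithinAt
    · intro x hx
      rw [interior_Icc] at hx
      exact (hPd x hx).deriv.ge
  have hanti : AntitoneOn (fun t => G t ^ 2 + RR (G t) t) (Icc (-1 / 2 : ℝ) (1 / 2)) := by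
    refine antitoneOn_of_deriv_nonpos (convex_Icc _ _) hPc ?_ ?_
    · intro x hx
      rw [interior_Icc] at hx
      exact (hPd x hx).differentiableAt.differentiableWithinAt
    · intro x hx
      rw [interior_Icc] at hx
      exact (hPd x hx).deriv.le
  have hend : G (1 / 2) ^ 2 + RR (G (1 / 2)) (1 / 2) = 1 + cc := by
    unfold RR
    rw [h.right]
    have : (1:ℝ) ^ 4 - 4 * cc * (1 / 2) ^ 2 = cc ^ 2 := by rw [hcs]; ring
    rw [this, Real.sqrt_sq hc.le]
    ring
  intro t ht
  have hr : (1 / 2 : ℝ) ∈ Icc (-1 / 2 : ℝ) (1 / 2) := right_mem_Icc.2 (by norm_num)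
  have k : G t ^ 2 + RR (G t) t = 1 + cc := by
    rw [← hend]
    exact le_antisymm (hmono ht hr ht.2) (hanti ht hr ht.2)
  have hD := dom h ht
  have k2 := hD.R_sq
  have k3 : RR (G t) t = 1 + cc - G t ^ 2 := by linarith
  rw [k3] at k2
  rw [inv2]
  have k4 : 2 * (1 + cc) * G t ^ 2 = (1 + cc) ^ 2 + 4 * cc * t ^ 2 := by linear_combination -k2
  have k5 : (1 + cc) * cc = 1 := by linear_combination hcs
  have k6 : 2 * (1 + cc) * (G t ^ 2) = 2 * (1 + cc) * (2 * cc ^ 2 * t ^ 2 + (1 + cc) / 2) := by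
    rw [k4]
    linear_combination (-4 * cc * t ^ 2) * k5
  exact mul_left_cancel₀ (by positivity) k6

end Pool.Agent.Q201.HTM
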