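import Pool.Agent.Q201.HTM.Stm

/-!
# The family of bodies `M0 a` in normalised coordinates
-/

set_option autoImplicit false
open MeasureTheory Set Pointwise

namespace Pool.Agent.Q201.HTM

open Pool.Agent.Helper481.MS

def q1 (u : ℝ) (x : Fin 2 → ℝ) : ℝ := u * (x 0 - x 1) ^ 2 + (1 - u) * (x 0 + x 1) ^ 2
def q2 (u : ℝ) (x : Fin 2 → ℝ) : ℝ := u * (x 0 + x 1) ^ 2 + (1 - u) * (x 0 - x 1) ^ 2

def Nu (u : ℝ) : Set (Fin 2 → ℝ) := {x | q1 u x ≤ 1 ∧ q2 u x ≤ 1}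

theorem cu : 1 - cc ^ 2 / 2 = 1 / (2 * cc) := by
  have h1 := cc_sq
  have h2 := cc_pos
  rw [eq_div_iff (by positivity)]
  have h3 : cc ^ 3 = 2 * cc - 1 := by
    have e : cc ^ 3 = cc * cc ^ 2 := by ring
    rw [e, h1]
    linarith [show cc * (1 - cc) = cc - cc ^ 2 by ring]
  linarith [show (1 - cc ^ 2 / 2) * (2 * cc) = 2 * cc - cc ^ 3 by ring]

theorem N0_eq : N0 = Nu (cc ^ 2 / 2) := by
  unfold N0 Nu q1 q2
  rw [cu]

theorem q_sum (u : ℝ) (x : Fin 2 → ℝ) : q1 u x + q2 u x = 2 * (x 0 ^ 2 + x 1 ^ 2) := by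
  unfold q1 q2
  ring

theorem cu_mem : cc ^ 2 / 2 ∈ Ioo (0:ℝ) (1 / 2) := by
  have h1 := cc_sq
  have h2 := cc_pos
  constructor
  · positivity
  · rw [h1]; linarith

theorem q1_cont (u : ℝ) : Continuous (q1 u) := by
  unfold q1
  fun_prop

theorem q2_cont (u : ℝ) : Continuous (q2 u) := by
  unfold q2
  fun_prop

theorem convexOn_q1 {u : ℝ} (hu : u ∈ Ioo (0:ℝ) (1 / 2)) : ConvexOn ℝ univ (q1 u) := by
  refine ⟨convex_univ, fun x _ y _ s t hs ht hst => ?_⟩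
  have h0 : 0 ≤ u := hu.1.le
  have h1 : 0 ≤ 1 - u := by linarith [hu.2]
  unfold q1
  simp only [Pi.add_apply, Pi.smul_apply, smul_eq_mul]
  have e : t = 1 - s := by linarith
  have h2 : 0 ≤ s * (1 - s) := mul_nonneg hs (by linarith)
  have k1 : 0 ≤ u * (s * (1 - s)) * ((x 0 - x 1) - (y 0 - y 1)) ^ 2 := by positivity
  have k2 : 0 ≤ (1 - u) * (s * (1 - s)) * ((x 0 + x 1) - (y 0 + y 1)) ^ 2 := by positivity
  rw [e]
  nlinarith [k1, k2]

theorem convexOn_q2 {u : ℝ} (hu : u ∈ Ioo (0:ℝ) (1 / 2)) : ConvexOn ℝ univ (q2 u) := by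
  refine ⟨convex_univ, fun x _ y _ s t hs ht hst => ?_⟩
  have h0 : 0 ≤ u := hu.1.le
  have h1 : 0 ≤ 1 - u := by linarith [hu.2]
  unfold q2
  simp only [Pi.add_apply, Pi.smul_apply, smul_eq_mul]
  have e : t = 1 - s := by linarith
  have h2 : 0 ≤ s * (1 - s) := mul_nonneg hs (by linarith)
  have k1 : 0 ≤ u * (s * (1 - s)) * ((x 0 + x 1) - (y 0 + y 1)) ^ 2 := by positivity
  have k2 : 0 ≤ (1 - u) * (s * (1 - s)) * ((x 0 - x 1) - (y 0 - y 1)) ^ 2 := by positivity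
  rw [e]
  nlinarith [k1, k2]

theorem disc {u : ℝ} {x : Fin 2 → ℝ} (hx : x ∈ Nu u) : x 0 ^ 2 + x 1 ^ 2 ≤ 1 := by
  have := q_sum u x
  linarith [hx.1, hx.2]

theorem std_Nu {u : ℝ} (hu : u ∈ Ioo (0:ℝ) (1 / 2)) : Std (Nu u) := by
  have hclosed : IsClosed (Nu u) :=
    (isClosed_le (q1_cont u) continuous_const).inter (isClosed_le (q2_cont u) continuous_const)
  have hb : ∀ x ∈ Nu u, |x 0| ≤ 1 ∧ |x 1| ≤ 1 := by
    intro x hx
    have := disc hx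
    constructor <;> rw [← sq_le_one_iff_abs_le_one] <;> nlinarith [sq_nonneg (x 0), sq_nonneg (x 1)]
  refine ⟨⟨⟨?_, ?_, ?_⟩, ?_⟩, ?_, ?_, fun x hx => (hb x hx).1, fun x hx => (hb x hx).2⟩
  · refine Metric.isCompact_of_isClosed_isBounded hclosed ?_
    refine (Metric.isBounded_closedBall (x := (0 : Fin 2 → ℝ)) (r := 1)).subset fun x hx => ?_
    rw [mem_closedBall_zero_iff, pi_norm_le_iff_of_nonneg zero_le_one]
    intro i
    rw [Real.norm_eq_abs]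
    fin_cases i
    · exact (hb x hx).1
    · exact (hb x hx).2
  · have h1 := (convexOn_q1 hu).convex_le 1
    have h2 := (convexOn_q2 hu).convex_le 1
    have h3 := h1.inter h2
    convert h3 using 1
    ext x
    simp [Nu]
  · refine ⟨0, mem_interior.2 ⟨{x | q1 u x < 1 ∧ q2 u x < 1}, fun x hx => ⟨hx.1.le, hx.2.le⟩,
      (isOpen_lt (q1_cont u) continuous_const).inter (isOpen_lt (q2_cont u) continuous_const), ?_⟩⟩
    simp [q1, q2]
  · intro x hx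
    have e1 : q1 u (-x) = q1 u x := by unfold q1; simp only [Pi.neg_apply]; ring
    have e2 : q2 u (-x) = q2 u x := by unfold q2; simp only [Pi.neg_apply]; ring
    exact ⟨e1 ▸ hx.1, e2 ▸ hx.2⟩
  · simp [Nu, q1, q2, pt]
  · simp [Nu, q1, q2, pt]

theorem q1_smul (u r : ℝ) (x : Fin 2 → ℝ) : q1 u (r • x) = r ^ 2 * q1 u x := by
  unfold q1; simp only [Pi.smul_apply, smul_eq_mul]; ring

theorem q2_smul (u r : ℝ) (x : Fin 2 → ℝ) : q2 u (r • x) = r ^ 2 * q2 u x := by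
  unfold q2; simp only [Pi.smul_apply, smul_eq_mul]; ring

/-- the gauge of `Nu u` -/
theorem gauge_Nu {u : ℝ} {x : Fin 2 → ℝ} {A : ℝ} (hA : 0 < A)
    (h : max (q1 u x) (q2 u x) = A) : gauge (Nu u) x ^ 2 = A := by
  have key : ∀ r : ℝ, 0 < r → (x ∈ r • Nu u ↔ A ≤ r ^ 2) := by
    intro r hr
    rw [mem_smul_set_iff_inv_smul_mem₀ hr.ne']
    show q1 u (r⁻¹ • x) ≤ 1 ∧ q2 u (r⁻¹ • x) ≤ 1 ↔ A ≤ r ^ 2
    rw [q1_smul, q2_smul, inv_pow, inv_mul_le_iff₀ (by positivity), inv_mul_le_iff₀ (by positivity),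
      mul_one, ← max_le_iff, h]
  have hs : gauge (Nu u) x = √A := by
    have hset : {r : ℝ | 0 < r ∧ x ∈ r • Nu u} = Ici (√A) := by
      ext r
      constructor
      · rintro ⟨hr, hx⟩
        exact Real.sqrt_le_iff.2 ⟨hr.le, (key r hr).1 hx⟩
      · intro hr
        have hr0 : 0 < r := (Real.sqrt_pos.2 hA).trans_le hr
        exact ⟨hr0, (key r hr0).2 (Real.sqrt_le_left hr0.le |>.1 hr)⟩
    unfold gauge
    rw [hset, csInf_Ici]
  rw [hs, Real.sq_sqrt hA.le]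

theorem gg_Nu {u : ℝ} (hu : u ∈ Ioo (0:ℝ) (1 / 2)) {t : ℝ} (ht : t ∈ Icc (-1 / 2 : ℝ) (1 / 2)) :
    GG (Nu u) 1 t ^ 2 = 4 * u * t ^ 2 + (1 - u) ∧ GG (Nu u) (-1) t ^ 2 = 4 * u * t ^ 2 + (1 - u) := by
  have h1 : 0 ≤ (1 - 2 * u) * (1 - 4 * t ^ 2) := by
    refine mul_nonneg (by linarith [hu.2]) ?_
    nlinarith [ht.1, ht.2]
  have hpos : 0 < 4 * u * t ^ 2 + (1 - u) := by
    have := hu.1
    have := hu.2
    have h3 : 0 ≤ 4 * u * t ^ 2 := by positivity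
    linarith
  constructor
  · refine gauge_Nu hpos ?_
    have e1 : q1 u (pt (1 / 2 + t) (1 * (1 / 2 - t))) = 4 * u * t ^ 2 + (1 - u) := by
      simp only [q1, pt, Matrix.cons_val_zero, Matrix.cons_val_one]; ring
    have e2 : q2 u (pt (1 / 2 + t) (1 * (1 / 2 - t))) = u + (1 - u) * (4 * t ^ 2) := by
      simp only [q2, pt, Matrix.cons_val_zero, Matrix.cons_val_one]; ring
    rw [e1, e2, max_eq_left (by linarith)]
  · refine gauge_Nu hpos ?_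
    have e1 : q2 u (pt (1 / 2 + t) (-1 * (1 / 2 - t))) = 4 * u * t ^ 2 + (1 - u) := by
      simp only [q2, pt, Matrix.cons_val_zero, Matrix.cons_val_one]; ring
    have e2 : q1 u (pt (1 / 2 + t) (-1 * (1 / 2 - t))) = u + (1 - u) * (4 * t ^ 2) := by
      simp only [q1, pt, Matrix.cons_val_zero, Matrix.cons_val_one]; ring
    rw [e1, e2, max_eq_right (by linarith)]

theorem n0 : S_N0 := by
  rw [S_N0, N0_eq]
  refine ⟨std_Nu cu_mem, fun t ht => ?_⟩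
  have h := gg_Nu cu_mem ht
  rw [cu] at h
  have e : 4 * (cc ^ 2 / 2) * t ^ 2 = 2 * cc ^ 2 * t ^ 2 := by ring
  rw [e] at h
  exact h

/-! ## rotation -/

theorem s2 : √2 ^ 2 = (2:ℝ) := Real.sq_sqrt (by norm_num)
theorem s2' : √2 ≠ (0:ℝ) := (Real.sqrt_pos.2 (by norm_num)).ne'

/-- rotation by 45 degrees -/
noncomputable def Rot : (Fin 2 → ℝ) ≃ₗ[ℝ] (Fin 2 → ℝ) where
  toFun x := pt ((x 0 - x 1) / √2) ((x 0 + x 1) / √2)
  invFun x := pt ((x 0 + x 1) / √2) ((x 1 - x 0) / √2)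
  map_add' x y := by
    ext i; fin_cases i <;> simp [pt] <;> ring
  map_smul' r x := by
    ext i; fin_cases i <;> simp [pt] <;> ring
  left_inv x := by
    have h := s2
    have h' := s2'
    ext i
    fin_cases i
    · simp only [pt, Fin.zero_eta, Matrix.cons_val_zero, Matrix.cons_val_one]
      field_simp
      rw [h]; ring
    · simp only [pt, Fin.mk_one, Matrix.cons_val_zero, Matrix.cons_val_one]
      field_simp
      rw [h]; ring
  right_inv x := by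
    have h := s2
    have h' := s2'
    ext i
    fin_cases i
    · simp only [pt, Fin.zero_eta, Matrix.cons_val_zero, Matrix.cons_val_one]
      field_simp
      rw [h]; ring
    · simp only [pt, Fin.mk_one, Matrix.cons_val_zero, Matrix.cons_val_one]
      field_simp
      rw [h]; ring

theorem Rot_det : |LinearMap.det (Rot : (Fin 2 → ℝ) →ₗ[ℝ] (Fin 2 → ℝ))| = 1 := by
  rw [← LinearMap.det_toMatrix', Matrix.det_fin_two]
  simp only [LinearMap.toMatrix'_apply]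
  have h := s2
  have h' := s2'
  simp [Rot, pt]
  field_simp
  rw [h]
  norm_num

theorem M0_rot {a : ℝ} (ha : 1 < a) : Nu (1 / (2 * a ^ 2)) = Rot ⁻¹' M0 a := by
  have h := s2
  have h' := s2'
  have ha0 : 0 < a := by linarith
  have hb : 0 < 2 * a ^ 2 - 1 := by nlinarith
  have hb2 : (a / √(2 * a ^ 2 - 1)) ^ 2 = a ^ 2 / (2 * a ^ 2 - 1) := by
    rw [div_pow, Real.sq_sqrt hb.le]
  ext x
  show q1 _ x ≤ 1 ∧ q2 _ x ≤ 1 ↔ (Rot x) 0 ^ 2 / a ^ 2 + (Rot x) 1 ^ 2 / (a / √(2 * a ^ 2 - 1)) ^ 2 ≤ 1 ∧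
    (Rot x) 0 ^ 2 / (a / √(2 * a ^ 2 - 1)) ^ 2 + (Rot x) 1 ^ 2 / a ^ 2 ≤ 1
  have e0 : (Rot x) 0 ^ 2 = (x 0 - x 1) ^ 2 / 2 := by
    show ((x 0 - x 1) / √2) ^ 2 = _
    rw [div_pow, h]
  have e1 : (Rot x) 1 ^ 2 = (x 0 + x 1) ^ 2 / 2 := by
    show ((x 0 + x 1) / √2) ^ 2 = _
    rw [div_pow, h]
  rw [e0, e1, hb2]
  have f1 : q1 (1 / (2 * a ^ 2)) x =
      (x 0 - x 1) ^ 2 / 2 / a ^ 2 + (x 0 + x 1) ^ 2 / 2 / (a ^ 2 / (2 * a ^ 2 - 1)) := by
    unfold q1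
    field_simp
  have f2 : q2 (1 / (2 * a ^ 2)) x =
      (x 0 - x 1) ^ 2 / 2 / (a ^ 2 / (2 * a ^ 2 - 1)) + (x 0 + x 1) ^ 2 / 2 / a ^ 2 := by
    unfold q2
    field_simp
    ring
  rw [f1, f2]

theorem u_mem {a : ℝ} (ha : 1 < a) : 1 / (2 * a ^ 2) ∈ Ioo (0:ℝ) (1 / 2) := by
  have ha0 : 0 < a := by linarith
  constructor
  · positivity
  · rw [div_lt_div_iff₀ (by positivity) (by norm_num)]
    nlinarith

theorem phi_cc : (1 + √5) / 2 = 1 / cc := by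
  have h := five
  have h2 := cc_pos
  rw [eq_div_iff h2.ne']
  unfold cc
  nlinarith

theorem phi_u : 1 / (2 * ((1 + √5) / 2) ^ 2) = cc ^ 2 / 2 := by
  have h2 := cc_pos
  rw [phi_cc]
  field_simp

theorem phi_gt : 1 < (1 + √5) / 2 := by
  rw [phi_cc]
  rw [one_lt_div cc_pos]
  exact cc_lt

theorem N0_rot : N0 = Rot.symm '' M0 ((1 + √5) / 2) := by
  rw [N0_eq, ← phi_u, M0_rot phi_gt]
  exact (Rot.symm.image_eq_preimage_symm _).symm

theorem rot : S_ROT := ⟨Rot.symm.toContinuousLinearEquiv, N0_rot⟩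

end Pool.Agent.Q201.HTM
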