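import Pool.Agent.Q201.HTM.Cal

/-!
# PHI
-/

set_option autoImplicit false
open MeasureTheory Set

namespace Pool.Agent.Q201.HTM

/-- truncated derivative -/
noncomputable def DD (G : ℝ → ℝ) (t : ℝ) : ℝ := max (-1) (min 1 (deriv G t))

theorem DD_meas (G : ℝ → ℝ) : Measurable (DD G) :=
  measurable_const.max (measurable_const.min (measurable_deriv G))

theorem DD_mem (G : ℝ → ℝ) (t : ℝ) : DD G t ∈ Icc (-1:ℝ) 1 :=
  ⟨le_max_left _ _, max_le (by norm_num) (min_le_left _ _)⟩

theorem DD_eq {G : ℝ → ℝ} (h : GOK G) {t : ℝ} (ht : t ∈ Ioo (-1 / 2 : ℝ) (1 / 2)) :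
    DD G t = deriv G t := by
  have h1 := abs_le.1 (deriv_le h ht)
  unfold DD
  rw [min_eq_right h1.2, max_eq_right h1.1]

theorem DD_int (G : ℝ → ℝ) (a b : ℝ) : IntervalIntegrable (DD G) volume a b := by
  rw [intervalIntegrable_iff]
  refine Measure.integrableOn_of_bounded (M := 1) (by simp) (DD_meas G).aestronglyMeasurable ?_
  refine Filter.Eventually.of_forall fun t => ?_
  rw [Real.norm_eq_abs, abs_le]
  exact DD_mem G t

theorem DD_ftc {G : ℝ → ℝ} (h : GOK G) {a b : ℝ} (ha : a ∈ Icc (-1 / 2 : ℝ) (1 / 2))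
    (hb : b ∈ Icc (-1 / 2 : ℝ) (1 / 2)) (hab : a ≤ b) : ∫ t in a..b, DD G t = G b - G a := by
  have h1 : AbsolutelyContinuousOnInterval G a b := by
    refine (G_ac h).mono ?_
    rw [uIcc_half, uIcc_of_le hab]
    exact Icc_subset_Icc ha.1 hb.2
  rw [← h1.integral_deriv_eq_sub]
  refine intervalIntegral.integral_congr_Ioo_of_le hab fun t ht => ?_
  exact DD_eq h ⟨ha.1.trans_lt ht.1, ht.2.trans_le hb.2⟩

/-- the positive part -/
noncomputable def pp (G : ℝ → ℝ) (k t : ℝ) : ℝ := max (DD G t - k) 0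

theorem pp_meas (G : ℝ → ℝ) : Measurable (Function.uncurry (pp G)) := by
  unfold pp
  refine Measurable.max ?_ measurable_const
  exact ((DD_meas G).comp measurable_snd).sub measurable_fst

theorem pp_int (G : ℝ → ℝ) (k a b : ℝ) : IntervalIntegrable (pp G k) volume a b := by
  rw [intervalIntegrable_iff]
  refine Measure.integrableOn_of_bounded (M := 1 + |k|) (by simp)
    (((DD_meas G).sub_const k).max measurable_const).aestronglyMeasurable ?_
  refine Filter.Eventually.of_forall fun t => ?_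
  have h1 := DD_mem G t
  unfold pp
  rw [Real.norm_eq_abs, abs_of_nonneg (le_max_right _ _)]
  refine max_le ?_ (by positivity)
  linarith [h1.2, neg_abs_le k]

noncomputable def Psi (G : ℝ → ℝ) (k : ℝ) : ℝ := ∫ t in (-1 / 2 : ℝ)..(1 / 2), pp G k t

theorem phi_eq {G : ℝ → ℝ} (h : GOK G) (k : ℝ) : phi G k = 1 - k / 2 - Psi G k := by
  have hne : (Icc (-1 / 2 : ℝ) (1 / 2)).Nonempty := ⟨0, by constructor <;> norm_num⟩
  have hr : (1 / 2 : ℝ) ∈ Icc (-1 / 2 : ℝ) (1 / 2) := right_mem_Icc.2 (by norm_num)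
  have hl : (-1 / 2 : ℝ) ∈ Icc (-1 / 2 : ℝ) (1 / 2) := left_mem_Icc.2 (by norm_num)
  have hc : ContinuousOn (fun t => G t - k * t) (Icc (-1 / 2 : ℝ) (1 / 2)) :=
    h.cont.sub (by fun_prop)
  obtain ⟨t0, ht0, hmin⟩ := isCompact_Icc.exists_isMinOn hne hc
  have hmin' : ∀ s ∈ Icc (-1 / 2 : ℝ) (1 / 2), G t0 - k * t0 ≤ G s - k * s := fun s hs => hmin hs
  have hphi : phi G k = G t0 - k * t0 := by
    refine IsLeast.csInf_eq ⟨⟨t0, ht0, rfl⟩, ?_⟩
    rintro _ ⟨s, hs, rfl⟩
    exact hmin' s hs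
  have hD : ∀ a ∈ Icc (-1 / 2 : ℝ) (1 / 2), ∀ b ∈ Icc (-1 / 2 : ℝ) (1 / 2), a ≤ b →
      ∫ t in a..b, (DD G t - k) = (G b - k * b) - (G a - k * a) := by
    intro a ha b hb hab
    rw [intervalIntegral.integral_sub (DD_int G a b) (by simp), DD_ftc h ha hb hab]
    simp only [intervalIntegral.integral_const, smul_eq_mul]
    ring
  have hconv : ConvexOn ℝ (Icc (-1 / 2 : ℝ) (1 / 2)) G := h.conv
  -- right part
  have h2 : ∫ t in t0..(1 / 2), pp G k t = ∫ t in t0..(1 / 2), (DD G t - k) := by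
    refine intervalIntegral.integral_congr_ae ?_
    have hne1 : ∀ᵐ t : ℝ, t ≠ 1 / 2 := by simp [ae_iff, measure_singleton]
    filter_upwards [(G_ac h).ae_differentiableAt, hne1] with t ht hne ht'
    rw [uIoc_of_le ht0.2] at ht'
    have ht2 : t ∈ Ioo (-1 / 2 : ℝ) (1 / 2) := ⟨ht0.1.trans_lt ht'.1, lt_of_le_of_ne ht'.2 hne⟩
    have ht3 : t ∈ Icc (-1 / 2 : ℝ) (1 / 2) := Ioo_subset_Icc_self ht2
    have hdiff := ht (by rw [uIcc_half]; exact ht3)
    have hs := hconv.slope_le_deriv ht0 ht3 ht'.1 hdiff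
    rw [slope_def_field] at hs
    have h5 : k ≤ (G t - G t0) / (t - t0) := by
      rw [le_div_iff₀ (by linarith [ht'.1])]
      linarith [hmin' t ht3]
    unfold pp
    rw [DD_eq h ht2]
    exact max_eq_left (by linarith)
  -- left part
  have h3 : ∫ t in (-1 / 2)..t0, pp G k t = 0 := by
    have : ∫ t in (-1 / 2)..t0, pp G k t = ∫ t in (-1 / 2)..t0, (0:ℝ) := by
      refine intervalIntegral.integral_congr_ae ?_
      have hne1 : ∀ᵐ t : ℝ, t ≠ t0 := by simp [ae_iff, measure_singleton]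
      filter_upwards [(G_ac h).ae_differentiableAt, hne1] with t ht hne ht'
      rw [uIoc_of_le ht0.1] at ht'
      have ht4 : t < t0 := lt_of_le_of_ne ht'.2 hne
      have ht2 : t ∈ Ioo (-1 / 2 : ℝ) (1 / 2) := ⟨ht'.1, ht4.trans_le ht0.2⟩
      have ht3 : t ∈ Icc (-1 / 2 : ℝ) (1 / 2) := Ioo_subset_Icc_self ht2
      have hdiff := ht (by rw [uIcc_half]; exact ht3)
      have hs := hconv.deriv_le_slope ht3 ht0 ht4 hdiff
      rw [slope_def_field] at hs
      have h5 : (G t0 - G t) / (t0 - t) ≤ k := by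
        rw [div_le_iff₀ (by linarith)]
        linarith [hmin' t ht3]
      unfold pp
      rw [DD_eq h ht2]
      exact max_eq_right (by linarith)
    rw [this]
    simp
  have h4 : Psi G k = (G (1 / 2) - k * (1 / 2)) - (G t0 - k * t0) := by
    unfold Psi
    rw [← intervalIntegral.integral_add_adjacent_intervals (pp_int G k _ t0) (pp_int G k t0 _),
      h3, h2, hD t0 ht0 _ hr ht0.2, zero_add]
  rw [hphi, h4, h.right]
  ring

theorem inner {D : ℝ} (hD : D ∈ Icc (-1:ℝ) 1) :
    ∫ k in (-1:ℝ)..1, max (D - k) 0 = (D + 1) ^ 2 / 2 := by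
  have hc : Continuous fun k : ℝ => max (D - k) 0 := by fun_prop
  rw [← intervalIntegral.integral_add_adjacent_intervals (hc.intervalIntegrable (-1) D)
    (hc.intervalIntegrable D 1)]
  have h1 : ∫ k in (-1:ℝ)..D, max (D - k) 0 = ∫ k in (-1:ℝ)..D, (D - k) := by
    refine intervalIntegral.integral_congr fun k hk => ?_
    rw [uIcc_of_le hD.1] at hk
    exact max_eq_left (by linarith [hk.2])
  have h2 : ∫ k in D..1, max (D - k) 0 = ∫ k in D..1, (0:ℝ) := by
    refine intervalIntegral.integral_congr fun k hk => ?_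
    rw [uIcc_of_le hD.2] at hk
    exact max_eq_right (by linarith [hk.1])
  rw [h1, h2, intervalIntegral.integral_sub (by simp) (by simp)]
  simp only [intervalIntegral.integral_const, smul_eq_mul, integral_id, mul_zero, add_zero]
  ring

theorem pp_prod (G : ℝ → ℝ) : Integrable (Function.uncurry (pp G))
    ((volume.restrict (Ioc (-1:ℝ) 1)).prod (volume.restrict (Ioc (-1 / 2 : ℝ) (1 / 2)))) := by
  rw [Measure.prod_restrict]
  refine Measure.integrableOn_of_bounded (M := 2) ?_ (pp_meas G).aestronglyMeasurable ?_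
  · rw [Measure.prod_prod]
    simp [Real.volume_Ioc, ENNReal.mul_eq_top]
  · refine (ae_restrict_iff' (measurableSet_Ioc.prod measurableSet_Ioc)).2
      (Filter.Eventually.of_forall ?_)
    rintro ⟨k, t⟩ ⟨hk, -⟩
    have h1 := DD_mem G t
    simp only [Function.uncurry, pp]
    rw [Real.norm_eq_abs, abs_of_nonneg (le_max_right _ _)]
    refine max_le ?_ (by norm_num)
    linarith [h1.2, hk.1]

theorem Psi_eq (G : ℝ → ℝ) (k : ℝ) :
    Psi G k = ∫ t, Function.uncurry (pp G) (k, t) ∂(volume.restrict (Ioc (-1 / 2 : ℝ) (1 / 2))) := by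
  unfold Psi
  rw [intervalIntegral.integral_of_le (by norm_num)]
  rfl

theorem Psi_int (G : ℝ → ℝ) : IntervalIntegrable (Psi G) volume (-1) 1 := by
  rw [intervalIntegrable_iff_integrableOn_Ioc_of_le (by norm_num)]
  have h := (pp_prod G).integral_prod_left
  refine h.congr (Filter.Eventually.of_forall fun k => ?_)
  exact (Psi_eq G k).symm

theorem DD_sq_int (G : ℝ → ℝ) (a b : ℝ) :
    IntervalIntegrable (fun t => DD G t ^ 2) volume a b := by
  rw [intervalIntegrable_iff]
  refine Measure.integrableOn_of_bounded (M := 1) (by simp)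
    ((DD_meas G).pow_const 2).aestronglyMeasurable ?_
  refine Filter.Eventually.of_forall fun t => ?_
  rw [Real.norm_eq_abs, abs_pow]
  exact pow_le_one₀ (abs_nonneg _) (abs_le.2 (DD_mem G t))

theorem Psi_total {G : ℝ → ℝ} (h : GOK G) : ∫ k in (-1:ℝ)..1, Psi G k = (I2 G + 1) / 2 := by
  have h1 : ∫ k in (-1:ℝ)..1, Psi G k = ∫ t in (-1 / 2 : ℝ)..(1 / 2), ∫ k in (-1:ℝ)..1, pp G k t := by
    have h2 := integral_integral_swap (f := pp G) (pp_prod G)
    rw [intervalIntegral.integral_of_le (by norm_num), intervalIntegral.integral_of_le (by norm_num)]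
    simp only [intervalIntegral.integral_of_le (show (-1:ℝ) ≤ 1 by norm_num)]
    rw [← h2]
    refine integral_congr_ae (Filter.Eventually.of_forall fun k => ?_)
    exact Psi_eq G k
  have h2 : ∀ t, ∫ k in (-1:ℝ)..1, pp G k t = (DD G t ^ 2 + 2 * DD G t + 1) / 2 := by
    intro t
    unfold pp
    rw [inner (DD_mem G t)]
    ring
  rw [h1]
  simp only [h2]
  have i1 := DD_sq_int G (-1 / 2) (1 / 2)
  have i2 := (DD_int G (-1 / 2) (1 / 2)).const_mul 2
  rw [intervalIntegral.integral_div, intervalIntegral.integral_add (i1.add i2) (by simp),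
    intervalIntegral.integral_add i1 i2, intervalIntegral.integral_const_mul,
    DD_ftc h (left_mem_Icc.2 (by norm_num)) (right_mem_Icc.2 (by norm_num)) (by norm_num),
    h.left, h.right]
  have e : ∫ t in (-1 / 2 : ℝ)..(1 / 2), DD G t ^ 2 = I2 G := by
    unfold I2
    refine intervalIntegral.integral_congr_Ioo_of_le (by norm_num) fun t ht => ?_
    simp only [DD_eq h ht]
  rw [e]
  simp only [intervalIntegral.integral_const, smul_eq_mul]
  ring

theorem phiInt : S_PHI := by
  intro G h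
  have hP := Psi_int G
  have hl : IntervalIntegrable (fun k : ℝ => 1 - k / 2) volume (-1) 1 :=
    (by fun_prop : Continuous fun k : ℝ => 1 - k / 2).intervalIntegrable _ _
  have e : phi G = fun k => 1 - k / 2 - Psi G k := funext fun k => phi_eq h k
  rw [e]
  refine ⟨hl.sub hP, ?_⟩
  rw [intervalIntegral.integral_sub hl hP, Psi_total h]
  have : ∫ k in (-1:ℝ)..1, (1 - k / 2) = 2 := by
    rw [intervalIntegral.integral_sub (by simp) (by simp), intervalIntegral.integral_div]
    simp only [intervalIntegral.integral_const, smul_eq_mul, integral_id]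
    norm_num
  rw [this]
  ring

end Pool.Agent.Q201.HTM
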