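import Pool.Agent.Q201.HTM.Quad
import Pool.Agent.Q201.HTM.PHI

/-!
# Area of the polar body
-/

set_option autoImplicit false
open MeasureTheory Set Pointwise
open scoped ENNReal

namespace Pool.Agent.Q201.HTM

open Pool.Agent.H356R3.HT (polar)

theorem mem_polar_iff {M : Set (Fin 2 → ℝ)} (y : Fin 2 → ℝ) :
    y ∈ polar M ↔ ∀ x ∈ M, x 0 * y 0 + x 1 * y 1 ≤ 1 := by
  show (∀ x ∈ M, ∑ i, x i * y i ≤ 1) ↔ _
  simp only [Fin.sum_univ_two]

theorem polar_closed (M : Set (Fin 2 → ℝ)) : IsClosed (polar M) := by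
  have : polar M = ⋂ x ∈ M, {y : Fin 2 → ℝ | x 0 * y 0 + x 1 * y 1 ≤ 1} := by
    ext y
    rw [mem_polar_iff]
    simp
  rw [this]
  refine isClosed_biInter fun x _ => isClosed_le ?_ continuous_const
  exact (continuous_const.mul (continuous_apply (0 : Fin 2))).add
    (continuous_const.mul (continuous_apply (1 : Fin 2)))

theorem polar_gauge {M : Set (Fin 2 → ℝ)} (hM : Std M) (y : Fin 2 → ℝ) :
    y ∈ polar M ↔ ∀ x, x 0 * y 0 + x 1 * y 1 ≤ gauge M x := by
  rw [mem_polar_iff]
  constructor
  · intro h x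
    rcases eq_or_lt_of_le (gauge_nonneg (s := M) x) with hg | hg
    · have h0 := hM.abs_le x 0
      have h1 := hM.abs_le x 1
      rw [← hg] at h0 h1 ⊢
      have e0 : x 0 = 0 := abs_eq_zero.1 (le_antisymm h0 (abs_nonneg _))
      have e1 : x 1 = 0 := abs_eq_zero.1 (le_antisymm h1 (abs_nonneg _))
      rw [e0, e1]
      simp
    · have hx : (gauge M x)⁻¹ • x ∈ M := by
        rw [hM.sym.mem_iff, gauge_smul_of_nonneg (by positivity), smul_eq_mul,
          inv_mul_cancel₀ hg.ne']
      have h2 := h _ hx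
      simp only [Pi.smul_apply, smul_eq_mul] at h2
      have h3 : (gauge M x)⁻¹ * (x 0 * y 0 + x 1 * y 1) ≤ 1 := by linarith
      rwa [inv_mul_le_iff₀ hg, mul_one] at h3
  · intro h x hx
    exact (h x).trans ((hM.sym.mem_iff x).1 hx)

/-- in the quadrant `e` membership in the polar is tested with the quadrant `e` -/
theorem polar_quad {M : Set (Fin 2 → ℝ)} (hM : Std M) {e : ℝ} (he : e = 1 ∨ e = -1)
    {y : Fin 2 → ℝ} (h0 : 0 < y 0) (h1 : 0 < e * y 1) :
    y ∈ polar M ↔ ∀ t ∈ Icc (-1 / 2 : ℝ) (1 / 2),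
      (y 0 + e * y 1) / 2 + (y 0 - e * y 1) * t ≤ GG M e t := by
  have hee : e * e = 1 := by rcases he with rfl | rfl <;> norm_num
  rw [polar_gauge hM]
  constructor
  · intro h t _
    have := h (pt (1 / 2 + t) (e * (1 / 2 - t)))
    simp only [pt, Matrix.cons_val_zero, Matrix.cons_val_one] at this
    refine le_trans (le_of_eq ?_) this
    ring
  · intro h x
    have hG := gok hM he
    have hr := h (1 / 2) (right_mem_Icc.2 (by norm_num))
    have hl := h (-1 / 2) (left_mem_Icc.2 (by norm_num))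
    rw [hG.right] at hr
    rw [hG.left] at hl
    have y0 : y 0 ≤ 1 := by linarith
    have y1 : e * y 1 ≤ 1 := by linarith
    have g0 := hM.abs_le x 0
    have g1 := hM.abs_le x 1
    have a0 := abs_nonneg (x 0)
    have b0 := le_abs_self (x 0)
    have c0 := neg_abs_le (x 0)
    have ex1 : |e * x 1| = |x 1| := by rcases he with rfl | rfl <;> simp
    have b1 := le_abs_self (e * x 1)
    have c1 := neg_abs_le (e * x 1)
    rw [ex1] at b1 c1
    have key : x 1 * y 1 = (e * x 1) * (e * y 1) := by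
      rw [show (e * x 1) * (e * y 1) = (e * e) * (x 1 * y 1) by ring, hee, one_mul]
    rw [key]
    set X := e * x 1 with hX
    set Y := e * y 1 with hY
    rcases le_total (x 0) 0 with hx0 | hx0
    · have k1 : x 0 * y 0 ≤ 0 := mul_nonpos_of_nonpos_of_nonneg hx0 h0.le
      have k2 : X * Y ≤ |x 1| * 1 := mul_le_mul b1 y1 h1.le (abs_nonneg _)
      linarith
    · rcases le_total X 0 with hX0 | hX0
      · have k1 : X * Y ≤ 0 := mul_nonpos_of_nonpos_of_nonneg hX0 h1.le
        have k2 : x 0 * y 0 ≤ |x 0| * 1 := mul_le_mul b0 y0 h0.le (abs_nonneg _)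
        linarith
      · rcases eq_or_lt_of_le (add_nonneg hx0 hX0) with hs | hs
        · have e1 : x 0 = 0 := by linarith
          have e2 : X = 0 := by linarith
          rw [e1, e2]
          simp [gauge_nonneg]
        · have hx : x = (x 0 + X) • pt (1 / 2 + (x 0 / (x 0 + X) - 1 / 2))
              (e * (1 / 2 - (x 0 / (x 0 + X) - 1 / 2))) := by
            ext i
            fin_cases i
            · show x 0 = (x 0 + X) * (1 / 2 + (x 0 / (x 0 + X) - 1 / 2))
              field_simp
              ring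
            · show x 1 = (x 0 + X) * (e * (1 / 2 - (x 0 / (x 0 + X) - 1 / 2)))
              have : (x 0 + X) * (e * (1 / 2 - (x 0 / (x 0 + X) - 1 / 2))) = e * X := by
                field_simp
                ring
              rw [this, hX, ← mul_assoc, hee, one_mul]
          have ht : x 0 / (x 0 + X) - 1 / 2 ∈ Icc (-1 / 2 : ℝ) (1 / 2) := by
            constructor
            · have : 0 ≤ x 0 / (x 0 + X) := by positivity
              linarith
            · have : x 0 / (x 0 + X) ≤ 1 := by
                rw [div_le_one hs]; linarith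
              linarith
          have h2 := h _ ht
          have h3 : gauge M x = (x 0 + X) * GG M e (x 0 / (x 0 + X) - 1 / 2) := by
            conv_lhs => rw [hx]
            rw [gauge_smul_of_nonneg hs.le]
            rfl
          rw [h3]
          have h4 := mul_le_mul_of_nonneg_left h2 hs.le
          refine le_trans (le_of_eq ?_) h4
          field_simp
          ring

theorem le_phi_iff {G : ℝ → ℝ} (h : GOK G) (k m : ℝ) :
    m ≤ phi G k ↔ ∀ t ∈ Icc (-1 / 2 : ℝ) (1 / 2), m + k * t ≤ G t := by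
  have hne : (Icc (-1 / 2 : ℝ) (1 / 2)).Nonempty := ⟨0, by constructor <;> norm_num⟩
  have hc : ContinuousOn (fun t => G t - k * t) (Icc (-1 / 2 : ℝ) (1 / 2)) :=
    h.cont.sub (by fun_prop)
  have hb : BddBelow ((fun t => G t - k * t) '' Icc (-1 / 2 : ℝ) (1 / 2)) :=
    (isCompact_Icc.image_of_continuousOn hc).bddBelow
  unfold phi
  rw [le_csInf_iff hb (hne.image _)]
  constructor
  · intro h1 t ht
    have := h1 _ ⟨t, ht, rfl⟩
    simp only at this
    linarith
  · rintro h1 _ ⟨t, ht, rfl⟩
    have := h1 t ht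
    simp only
    linarith

theorem phi_ge {G : ℝ → ℝ} (h : GOK G) {k : ℝ} (hk : |k| ≤ 1) : 1 / 2 ≤ phi G k := by
  rw [le_phi_iff h]
  intro t ht
  have h1 := h.ge t ht
  have h2 : k * t ≤ 1 * |t| := by
    calc k * t ≤ |k * t| := le_abs_self _
      _ = |k| * |t| := abs_mul _ _
      _ ≤ 1 * |t| := by gcongr
  linarith

theorem phi_le {G : ℝ → ℝ} (h : GOK G) (k : ℝ) : phi G k ≤ 1 - |k| / 2 := by
  have h1 := (le_phi_iff h k (phi G k)).1 le_rfl
  have hr := h1 (1 / 2) (right_mem_Icc.2 (by norm_num))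
  have hl := h1 (-1 / 2) (left_mem_Icc.2 (by norm_num))
  rw [h.right] at hr
  rw [h.left] at hl
  rcases abs_cases k with ⟨h2, _⟩ | ⟨h2, _⟩ <;> rw [h2] <;> linarith

/-- coordinates `(k, m)` -/
noncomputable def km (e : ℝ) : (Fin 2 → ℝ) →ₗ[ℝ] (Fin 2 → ℝ) :=
  Matrix.toLin' !![1 / 2, 1; -(e / 2), e]

theorem km_det (e : ℝ) : LinearMap.det (km e) = e := by
  unfold km
  rw [LinearMap.det_toLin', Matrix.det_fin_two]
  simp
  ring

theorem km_apply (e k m : ℝ) : km e (pt k m) = pt (m + k / 2) (e * (m - k / 2)) := by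
  unfold km
  rw [Matrix.toLin'_apply]
  ext i
  fin_cases i <;> simp [pt] <;> ring

theorem polar_area_quad {M : Set (Fin 2 → ℝ)} (hM : Std M) {e : ℝ} (he : e = 1 ∨ e = -1) :
    volume (polar M ∩ Qd e) =
      ENNReal.ofReal (∫ k in (-1 : ℝ)..1, (phi (GG M e) k - |k| / 2)) := by
  have hG := gok hM he
  have hee : e * e = 1 := by rcases he with rfl | rfl <;> norm_num
  have hea : |e| = 1 := by rcases he with rfl | rfl <;> simp
  have hSm : MeasurableSet (polar M ∩ Qd e) :=
    (polar_closed M).measurableSet.inter (Qd_open e).measurableSet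
  have h1 : volume (polar M ∩ Qd e) = volume (km e ⁻¹' (polar M ∩ Qd e)) := by
    rw [Measure.addHaar_preimage_linearMap volume (by
      rw [km_det]; rcases he with rfl | rfl <;> norm_num), km_det, abs_inv, hea]
    simp
  have hSm2 : MeasurableSet (km e ⁻¹' (polar M ∩ Qd e)) :=
    (LinearMap.continuous_of_finiteDimensional (km e)).measurable hSm
  have h2 : ∀ k : ℝ, {m : ℝ | pt k m ∈ km e ⁻¹' (polar M ∩ Qd e)} =
      Ioc (|k| / 2) (phi (GG M e) k) := by
    intro k
    ext m
    show km e (pt k m) ∈ polar M ∩ Qd e ↔ _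
    rw [km_apply]
    have e0 : pt (m + k / 2) (e * (m - k / 2)) 0 = m + k / 2 := rfl
    have e1 : e * pt (m + k / 2) (e * (m - k / 2)) 1 = m - k / 2 := by
      show e * (e * (m - k / 2)) = _
      rw [← mul_assoc, hee, one_mul]
    constructor
    · rintro ⟨hp, hq0, hq1⟩
      have hp' := (polar_quad hM he hq0 hq1).1 hp
      rw [e0] at hq0
      rw [e1] at hq1
      constructor
      · rcases abs_cases k with ⟨h3, _⟩ | ⟨h3, _⟩ <;> rw [h3] <;> linarith
      · rw [le_phi_iff hG]
        intro t ht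
        have := hp' t ht
        rw [e0, e1] at this
        linarith
    · rintro ⟨ha, hb⟩
      have hq0 : 0 < pt (m + k / 2) (e * (m - k / 2)) 0 := by
        rw [e0]
        have := neg_abs_le k
        linarith
      have hq1 : 0 < e * pt (m + k / 2) (e * (m - k / 2)) 1 := by
        rw [e1]
        have := le_abs_self k
        linarith
      refine ⟨(polar_quad hM he hq0 hq1).2 fun t ht => ?_, hq0, hq1⟩
      rw [e0, e1]
      have := (le_phi_iff hG k m).1 hb t ht
      linarith
  rw [h1, vol_a hSm2]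
  simp only [h2, Real.volume_Ioc]
  have hint : IntervalIntegrable (fun k => phi (GG M e) k - |k| / 2) volume (-1) 1 :=
    (phiInt _ hG).1.sub ((by fun_prop : Continuous fun k : ℝ => |k| / 2).intervalIntegrable _ _)
  have h3 : ∀ k : ℝ, ENNReal.ofReal (phi (GG M e) k - |k| / 2) =
      (Ioc (-1:ℝ) 1).indicator (fun k => ENNReal.ofReal (phi (GG M e) k - |k| / 2)) k := by
    intro k
    by_cases hk : k ∈ Ioc (-1:ℝ) 1
    · rw [indicator_of_mem hk]
    · rw [indicator_of_notMem hk]
      apply ENNReal.ofReal_of_nonpos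
      have h4 := phi_le hG k
      have h5 : 1 ≤ |k| := by
        by_contra hlt
        push Not at hlt
        rw [abs_lt] at hlt
        exact hk ⟨hlt.1, hlt.2.le⟩
      linarith
  rw [lintegral_congr h3, lintegral_indicator measurableSet_Ioc,
    intervalIntegral.integral_of_le (by norm_num), ofReal_integral_eq_lintegral_ofReal]
  · exact (intervalIntegrable_iff_integrableOn_Ioc_of_le (by norm_num)).1 hint
  · refine (ae_restrict_iff' measurableSet_Ioc).2 (Filter.Eventually.of_forall fun k hk => ?_)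
    have hk' : |k| ≤ 1 := abs_le.2 ⟨hk.1.le, hk.2⟩
    have := phi_ge hG hk'
    show 0 ≤ phi (GG M e) k - |k| / 2
    linarith

theorem polg : S_POLG := by
  intro M hM h1 h2
  have hpos : ∀ e : ℝ, GOK (GG M e) → 0 ≤ ∫ k in (-1 : ℝ)..1, (phi (GG M e) k - |k| / 2) := by
    intro e hG
    refine intervalIntegral.integral_nonneg (by norm_num) fun k hk => ?_
    have hk' : |k| ≤ 1 := abs_le.2 hk
    have := phi_ge hG hk'
    linarith
  have hs : ∀ y ∈ polar M, -y ∈ polar M := by
    intro y hy
    rw [mem_polar_iff] at hy ⊢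
    intro x hx
    have := hy (-x) (hM.sym.symm x hx)
    simp only [Pi.neg_apply] at this ⊢
    linarith
  rw [quad (polar_closed M).measurableSet hs, polar_area_quad hM (Or.inl rfl),
    polar_area_quad hM (Or.inr rfl), ENNReal.ofReal_add (by linarith [hpos 1 h1])
      (by linarith [hpos (-1) h2]), ENNReal.ofReal_mul (by norm_num),
    ENNReal.ofReal_mul (by norm_num)]
  norm_num

end Pool.Agent.Q201.HTM
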