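import Pool.Agent.Q201.HTM.Top
import Pool.Agent.Q201.HTM.Fam
import Pool.Agent.Q201.HTM.Cal2
import Pool.Agent.Q201.HTM.POLG
import Pool.Agent.Q201.HTM.BMA
import Pool.Agent.Q201.HTM.BMB

/-!
# Conclusion, given the two facts on hulls
-/

set_option autoImplicit false
open MeasureTheory Set Pointwise

namespace Pool.Agent.Q201.HTM

open Pool.Agent.Helper481.MS (IsConvexBody relBall)
open Pool.Agent.H356R3.HT (polar cTr htVol)

theorem hypStd : HypStd :=
  ⟨gg, area, polg, phiInt, cala, calb, val, n0, uni⟩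

theorem hypGeo (hUP : S_UP) (hLO : S_LO) : HypGeo := ⟨hUP, hLO, bma, bmb, norm⟩

/-- `cTr` of the extremal body and the maximisers -/
theorem concl (hUP : S_UP) (hLO : S_LO) {K : Set (Fin 2 → ℝ)} (hK : IsConvexBody K) :
    (∀ L : Set (Fin 2 → ℝ), IsConvexBody L → cTr htVol L ≤ cTr htVol K) ↔
    ∃ (v : Fin 2 → ℝ) (A : (Fin 2 → ℝ) ≃L[ℝ] (Fin 2 → ℝ)), K = v +ᵥ (A '' M0 ((1 + √5) / 2)) := by
  rw [maximisers_iff hypStd (hypGeo hUP hLO) hK]
  obtain ⟨R, hR⟩ := rot
  constructor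
  · rintro ⟨v, A, rfl⟩
    refine ⟨v, R.trans A, ?_⟩
    rw [hR, Set.image_image]
    rfl
  · rintro ⟨v, A, rfl⟩
    refine ⟨v, R.symm.trans A, ?_⟩
    rw [hR, Set.image_image]
    congr 1
    refine Set.image_congr fun x _ => ?_
    simp

/-- the product for the bodies of the family -/
theorem prod_M0 {a : ℝ} (ha : 1 < a) :
    volume (polar (M0 a)) * (volume (M0 a) + 4) =
      volume (polar (Nu (1 / (2 * a ^ 2)))) * (volume (Nu (1 / (2 * a ^ 2))) + 4) := by
  have h := prod_image Rot.toContinuousLinearEquiv (Nu (1 / (2 * a ^ 2))) (D := 1) Rot_det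
  have e : Rot.toContinuousLinearEquiv '' (Nu (1 / (2 * a ^ 2))) = M0 a := by
    rw [M0_rot ha]
    exact Set.image_preimage_eq _ Rot.surjective
  rw [e] at h
  rw [← h]
  norm_num

theorem fam_value : volume (polar (M0 ((1 + √5) / 2))) * (volume (M0 ((1 + √5) / 2)) + 4) =
    ENNReal.ofReal Fs := by
  rw [prod_M0 phi_gt, phi_u, ← N0_eq]
  exact N0_value hypStd

theorem fam_le {a : ℝ} (ha : 1 < a) :
    volume (polar (M0 a)) * (volume (M0 a) + 4) ≤ ENNReal.ofReal Fs := by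
  rw [prod_M0 ha]
  exact (std_bound hypStd (std_Nu (u_mem ha))).1

theorem fam_eq {a : ℝ} (ha : 1 < a)
    (h : volume (polar (M0 a)) * (volume (M0 a) + 4) = ENNReal.ofReal Fs) :
    a = (1 + √5) / 2 := by
  rw [prod_M0 ha] at h
  have h1 := (std_bound hypStd (std_Nu (u_mem ha))).2 h
  have h0 : (0:ℝ) ∈ Icc (-1 / 2 : ℝ) (1 / 2) := by constructor <;> norm_num
  have g1 := (gg_Nu (u_mem ha) h0).1
  have g2 := (gg_Nu cu_mem h0).1
  rw [← N0_eq, ← h1, g1] at g2
  have h3 : 1 / (2 * a ^ 2) = cc ^ 2 / 2 := by linarith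
  rw [← phi_u] at h3
  have ha0 : 0 < a := by linarith
  have hp : 0 < (1 + √5) / 2 := by linarith [phi_gt]
  have h4 : a ^ 2 = ((1 + √5) / 2) ^ 2 := by
    have h5 : 2 * a ^ 2 = 2 * ((1 + √5) / 2) ^ 2 := by
      have := one_div_one_div (2 * a ^ 2)
      rw [h3, one_div_one_div] at this
      exact this.symm
    linarith
  exact (pow_left_inj₀ ha0.le hp.le two_ne_zero).1 h4

/-- the golden ratio is the only maximiser of `area (M₀(a)°) (area M₀(a) + 4)` over `a > 1` -/
theorem fam : ∀ a, 1 < a → ((∀ b, 1 < b → volume (polar (M0 b)) * (volume (M0 b) + 4) ≤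
    volume (polar (M0 a)) * (volume (M0 a) + 4)) ↔ a = (1 + √5) / 2) := by
  intro a ha
  constructor
  · intro h
    refine fam_eq ha (le_antisymm (fam_le ha) ?_)
    rw [← fam_value]
    exact h _ phi_gt
  · rintro rfl b hb
    rw [fam_value]
    exact fam_le hb

end Pool.Agent.Q201.HTM
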