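import Pool.Agent.Q201.HTM.Stm

/-!
# Gauges of normalised bodies: G, UNI, NORM
-/

set_option autoImplicit false
open MeasureTheory Set Pointwise

namespace Pool.Agent.Q201.HTM

open Pool.Agent.Helper481.MS

theorem relBall_sym' {M : Set (Fin 2 → ℝ)} (hM : SymBody M) : relBall M = M := by
  ext x
  constructor
  · rintro ⟨_, ⟨a, ha, b, hb, rfl⟩, rfl⟩
    have h := hM.body.convex ha (hM.symm b hb) (show (0:ℝ) ≤ 1 / 2 by norm_num)
      (show (0:ℝ) ≤ 1 / 2 by norm_num) (by norm_num)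
    show (1 / 2 : ℝ) • (a - b) ∈ M
    rw [sub_eq_add_neg, smul_add]
    exact h
  · intro hx
    refine ⟨x - -x, ⟨x, hx, -x, hM.symm x hx, rfl⟩, ?_⟩
    show (1 / 2 : ℝ) • (x - -x) = x
    rw [sub_neg_eq_add, ← two_smul ℝ x, smul_smul]
    norm_num

theorem SymBody.nhds {M : Set (Fin 2 → ℝ)} (hM : SymBody M) : M ∈ nhds (0 : Fin 2 → ℝ) := by
  obtain ⟨r, hr, hb⟩ := relBall_ball hM.body.interior_nonempty
  rw [relBall_sym' hM] at hb
  exact Filter.mem_of_superset (Metric.ball_mem_nhds _ hr) hb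

theorem SymBody.absorbent {M : Set (Fin 2 → ℝ)} (hM : SymBody M) : Absorbent ℝ M :=
  absorbent_nhds_zero hM.nhds

theorem SymBody.mem_iff {M : Set (Fin 2 → ℝ)} (hM : SymBody M) (x : Fin 2 → ℝ) :
    x ∈ M ↔ gauge M x ≤ 1 := by
  rw [gauge_le_one_iff_mem_closure hM.body.convex hM.nhds, hM.body.isCompact.isClosed.closure_eq]

theorem SymBody.gauge_neg {M : Set (Fin 2 → ℝ)} (hM : SymBody M) (x : Fin 2 → ℝ) :
    gauge M (-x) = gauge M x := _root_.gauge_neg hM.symm x

theorem Std.abs_le {M : Set (Fin 2 → ℝ)} (hM : Std M) (x : Fin 2 → ℝ) (i : Fin 2) :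
    |x i| ≤ gauge M x := by
  have hne : {r : ℝ | 0 < r ∧ x ∈ r • M}.Nonempty := hM.sym.absorbent.gauge_set_nonempty
  refine le_csInf hne ?_
  rintro r ⟨hr, y, hy, rfl⟩
  have h : |y i| ≤ 1 := by
    fin_cases i
    · exact hM.b0 y hy
    · exact hM.b1 y hy
  show |r * y i| ≤ r
  rw [abs_mul, abs_of_pos hr]
  nlinarith

theorem gok {M : Set (Fin 2 → ℝ)} (hM : Std M) {e : ℝ} (he : e = 1 ∨ e = -1) : GOK (GG M e) := by
  have he1 : pt 0 e ∈ M := by
    rcases he with rfl | rfl
    · exact hM.e1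
    · have := hM.sym.symm _ hM.e1
      convert this using 1
      ext i; fin_cases i <;> simp [pt]
  have hea : |e| = 1 := by rcases he with rfl | rfl <;> simp
  have hge : ∀ t : ℝ, 1 / 2 + |t| ≤ GG M e t := by
    intro t
    have h0 := hM.abs_le (pt (1 / 2 + t) (e * (1 / 2 - t))) 0
    have h1 := hM.abs_le (pt (1 / 2 + t) (e * (1 / 2 - t))) 1
    have e0 : pt (1 / 2 + t) (e * (1 / 2 - t)) 0 = 1 / 2 + t := rfl
    have e1 : pt (1 / 2 + t) (e * (1 / 2 - t)) 1 = e * (1 / 2 - t) := rfl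
    rw [e0] at h0
    rw [e1, abs_mul, hea, one_mul] at h1
    unfold GG
    rcases abs_cases t with ⟨h, _⟩ | ⟨h, _⟩
    · rw [h]; exact (le_abs_self _).trans h0
    · rw [h]
      have := (le_abs_self _).trans h1
      linarith
  refine ⟨⟨convex_Icc _ _, ?_⟩, ?_, ?_, fun t _ => hge t⟩
  · intro s _ t _ a b ha hb hab
    have h1 : pt (1 / 2 + (a • s + b • t)) (e * (1 / 2 - (a • s + b • t))) =
        a • pt (1 / 2 + s) (e * (1 / 2 - s)) + b • pt (1 / 2 + t) (e * (1 / 2 - t)) := by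
      have hb' : b = 1 - a := by linarith
      subst hb'
      ext i
      fin_cases i
      · simp only [pt, smul_eq_mul, Fin.zero_eta, Matrix.cons_val_zero, Pi.add_apply, Pi.smul_apply]
        ring
      · simp only [pt, smul_eq_mul, Fin.mk_one, Matrix.cons_val_one, Pi.add_apply, Pi.smul_apply,
          Matrix.cons_val_zero]
        ring
    unfold GG
    rw [h1]
    refine (gauge_add_le hM.sym.body.convex hM.sym.absorbent _ _).trans ?_
    rw [gauge_smul_of_nonneg ha, gauge_smul_of_nonneg hb]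
  · have e1 : GG M e (-1 / 2) = gauge M (pt 0 e) := by
      unfold GG
      congr 1
      norm_num
    apply le_antisymm
    · rw [e1]
      exact (hM.sym.mem_iff _).1 he1
    · have := hge (-1 / 2)
      rw [abs_of_nonpos (by norm_num)] at this
      linarith
  · have e1 : GG M e (1 / 2) = gauge M (pt 1 0) := by
      unfold GG
      congr 1
      norm_num
    apply le_antisymm
    · rw [e1]
      exact (hM.sym.mem_iff _).1 hM.e0
    · have := hge (1 / 2)
      rw [abs_of_nonneg (by norm_num)] at this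
      linarith

theorem gg : S_G := fun _ hM => ⟨gok hM (Or.inl rfl), gok hM (Or.inr rfl)⟩

/-- polar coordinates with respect to the norm `|x 0| + |x 1|` -/
theorem polarform (x : Fin 2 → ℝ) : ∃ s e : ℝ, (e = 1 ∨ e = -1) ∧
    ∃ t ∈ Icc (-1 / 2 : ℝ) (1 / 2), x = s • pt (1 / 2 + t) (e * (1 / 2 - t)) := by
  wlog h0 : 0 ≤ x 0 generalizing x
  · obtain ⟨s, e, he, t, ht, hx⟩ := this (-x) (by simp only [Pi.neg_apply]; linarith)
    refine ⟨-s, e, he, t, ht, ?_⟩
    rw [neg_smul, ← hx, neg_neg]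
  obtain ⟨e, he, y, hy, hxy⟩ : ∃ e : ℝ, (e = 1 ∨ e = -1) ∧ ∃ y : ℝ, 0 ≤ y ∧ x 1 = e * y := by
    rcases le_total 0 (x 1) with h | h
    · exact ⟨1, Or.inl rfl, x 1, h, by ring⟩
    · exact ⟨-1, Or.inr rfl, -x 1, by linarith, by ring⟩
  rcases eq_or_lt_of_le (add_nonneg h0 hy) with h | h
  · have h1 : x 0 = 0 := by linarith
    have h2 : y = 0 := by linarith
    refine ⟨0, 1, Or.inl rfl, 0, by constructor <;> norm_num, ?_⟩
    ext i
    fin_cases i
    · simp [h1]
    · simp [hxy, h2]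
  · refine ⟨x 0 + y, e, he, x 0 / (x 0 + y) - 1 / 2, ⟨?_, ?_⟩, ?_⟩
    · have : 0 ≤ x 0 / (x 0 + y) := by positivity
      linarith
    · have : x 0 / (x 0 + y) ≤ 1 := by
        rw [div_le_one h]; linarith
      linarith
    · ext i
      fin_cases i
      · simp only [pt, Fin.zero_eta, Matrix.cons_val_zero, Pi.smul_apply, smul_eq_mul]
        field_simp
        ring
      · simp only [pt, Fin.mk_one, Matrix.cons_val_one, Matrix.cons_val_zero, Pi.smul_apply,
          smul_eq_mul]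
        rw [hxy]
        field_simp
        ring

theorem gauge_smul_abs {M : Set (Fin 2 → ℝ)} (hM : SymBody M) (s : ℝ) (x : Fin 2 → ℝ) :
    gauge M (s • x) = |s| * gauge M x := by
  rcases le_total 0 s with h | h
  · rw [gauge_smul_of_nonneg h, abs_of_nonneg h, smul_eq_mul]
  · have e : s • x = -((-s) • x) := by rw [neg_smul, neg_neg]
    rw [e, hM.gauge_neg, gauge_smul_of_nonneg (by linarith), abs_of_nonpos h, smul_eq_mul]

theorem uni : S_UNI := by
  intro M M' hM hM' h
  ext x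
  rw [hM.sym.mem_iff, hM'.sym.mem_iff]
  obtain ⟨s, e, he, t, ht, rfl⟩ := polarform x
  rw [gauge_smul_abs hM.sym, gauge_smul_abs hM'.sym]
  have : gauge M (pt (1 / 2 + t) (e * (1 / 2 - t))) = gauge M' (pt (1 / 2 + t) (e * (1 / 2 - t))) := by
    rcases he with rfl | rfl
    · exact (h t ht).1
    · exact (h t ht).2
  rw [this]

/-! ## normalisation -/

theorem dt_cont : Continuous fun p : (Fin 2 → ℝ) × (Fin 2 → ℝ) => dt p.1 p.2 := by
  unfold dt
  fun_prop

/-- the linear map with columns `x`, `y` -/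
noncomputable def colMap (x y : Fin 2 → ℝ) : (Fin 2 → ℝ) →ₗ[ℝ] (Fin 2 → ℝ) :=
  Matrix.toLin' !![x 0, y 0; x 1, y 1]

theorem colMap_det (x y : Fin 2 → ℝ) : LinearMap.det (colMap x y) = dt x y := by
  unfold colMap dt
  rw [LinearMap.det_toLin', Matrix.det_fin_two]
  simp
  ring

theorem colMap_apply (x y z : Fin 2 → ℝ) : colMap x y z = z 0 • x + z 1 • y := by
  unfold colMap
  rw [Matrix.toLin'_apply]
  ext i
  fin_cases i <;> simp [Matrix.mulVec, dotProduct, Fin.sum_univ_two] <;> ring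

theorem norm : S_NORM := by
  intro M hM
  have hne : (M ×ˢ M).Nonempty := by
    obtain ⟨z, hz⟩ := hM.body.interior_nonempty
    exact ⟨(z, z), interior_subset hz, interior_subset hz⟩
  obtain ⟨⟨x, y⟩, ⟨hx, hy⟩, hmax⟩ := (hM.body.isCompact.prod hM.body.isCompact).exists_isMaxOn hne
    dt_cont.continuousOn
  have hD : IsMaxDet M (dt x y) :=
    ⟨⟨x, hx, y, hy, rfl⟩, fun a ha b hb => hmax (show (a, b) ∈ M ×ˢ M from ⟨ha, hb⟩)⟩
  have hpos : 0 < dt x y := by
    obtain ⟨r, hr, hb⟩ := Metric.mem_nhds_iff.1 hM.nhds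
    have h0 : pt (r / 2) 0 ∈ M := hb (by
      rw [mem_ball_zero_iff, pi_norm_lt_iff hr]
      intro i
      fin_cases i
      · simp [pt, abs_of_pos hr]; linarith
      · simpa [pt] using hr)
    have h1 : pt 0 (r / 2) ∈ M := hb (by
      rw [mem_ball_zero_iff, pi_norm_lt_iff hr]
      intro i
      fin_cases i
      · simpa [pt] using hr
      · simp [pt, abs_of_pos hr]; linarith)
    have := hD.le _ h0 _ h1
    have e : dt (pt (r / 2) 0) (pt 0 (r / 2)) = r / 2 * (r / 2) := by simp [dt, pt]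
    rw [e] at this
    have : 0 < r / 2 * (r / 2) := by positivity
    linarith
  have hdet : LinearMap.det (colMap x y) ≠ 0 := by rw [colMap_det]; exact hpos.ne'
  refine ⟨dt x y, hpos, hD, (LinearMap.equivOfDetNeZero (colMap x y) hdet).toContinuousLinearEquiv,
    ?_, ?_⟩
  · have e : ((LinearMap.equivOfDetNeZero (colMap x y) hdet).toContinuousLinearEquiv :
        (Fin 2 → ℝ) →ₗ[ℝ] (Fin 2 → ℝ)) = colMap x y := by
      ext z; rfl
    rw [e, colMap_det, abs_of_pos hpos]
  · set A := (LinearMap.equivOfDetNeZero (colMap x y) hdet).toContinuousLinearEquiv with hA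
    have hAz : ∀ z, A z = z 0 • x + z 1 • y := fun z => colMap_apply x y z
    have hmem : ∀ z, z ∈ A.symm '' M ↔ A z ∈ M := by
      intro z
      constructor
      · rintro ⟨w, hw, rfl⟩
        rw [ContinuousLinearEquiv.apply_symm_apply]
        exact hw
      · intro h
        exact ⟨A z, h, by simp⟩
    refine ⟨⟨⟨hM.body.isCompact.image A.symm.continuous,
      hM.body.convex.linear_image (A.symm : (Fin 2 → ℝ) →ₗ[ℝ] (Fin 2 → ℝ)), ?_⟩, ?_⟩, ?_, ?_, ?_, ?_⟩
    · obtain ⟨z, hz⟩ := hM.body.interior_nonempty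
      have h4 := A.symm.toHomeomorph.image_interior M
      exact ⟨A.symm z, h4 ▸ ⟨z, hz, rfl⟩⟩
    · rintro _ ⟨z, hz, rfl⟩
      exact ⟨-z, hM.symm z hz, map_neg _ z⟩
    · rw [hmem, hAz]
      simpa [pt] using hx
    · rw [hmem, hAz]
      simpa [pt] using hy
    · intro z hz
      rw [hmem, hAz] at hz
      have h1 := hD.le _ hz _ hy
      have h2 := hD.le _ (hM.symm _ hz) _ hy
      have e1 : dt (z 0 • x + z 1 • y) y = z 0 * dt x y := by
        simp only [dt, Pi.add_apply, Pi.smul_apply, smul_eq_mul]; ring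
      have e2 : dt (-(z 0 • x + z 1 • y)) y = -(z 0 * dt x y) := by
        simp only [dt, Pi.add_apply, Pi.smul_apply, smul_eq_mul, Pi.neg_apply]; ring
      rw [e1] at h1
      rw [e2] at h2
      rw [_root_.abs_le]
      constructor <;> nlinarith
    · intro z hz
      rw [hmem, hAz] at hz
      have h1 := hD.le _ hx _ hz
      have h2 := hD.le _ hx _ (hM.symm _ hz)
      have e1 : dt x (z 0 • x + z 1 • y) = z 1 * dt x y := by
        simp only [dt, Pi.add_apply, Pi.smul_apply, smul_eq_mul]; ring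
      have e2 : dt x (-(z 0 • x + z 1 • y)) = -(z 1 * dt x y) := by
        simp only [dt, Pi.add_apply, Pi.smul_apply, smul_eq_mul, Pi.neg_apply]; ring
      rw [e1] at h1
      rw [e2] at h2
      rw [_root_.abs_le]
      constructor <;> nlinarith

end Pool.Agent.Q201.HTM
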