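import Pool.Agent.Q201.HTM.Top
import Pool.Agent.Y514.TL.Seg

/-!
# UP, LO
-/

set_option autoImplicit false
open MeasureTheory Set Pointwise
open scoped ENNReal

namespace Pool.Agent.Q201.HTM

open Pool.Agent.Helper481.MS (IsConvexBody relBall proj proj_compact hull_sub sub_hull)
open Pool.Agent.Helper481.MB
open Pool.Agent.Y514.TL (segT vol_add_segT vol_imageT)

theorem dt_single (w : Fin 2 → ℝ) : dt (Pi.single 0 1) w = w 1 := by
  simp [dt]

/-- the volume of `K + [0, p]` -/
theorem vol_seg {K : Set (Fin 2 → ℝ)} (hK : IsCompact K) (hc : Convex ℝ K)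
    (A : (Fin 2 → ℝ) ≃L[ℝ] (Fin 2 → ℝ)) {p : Fin 2 → ℝ} (hp : A (Pi.single 0 1) = p) :
    volume (K + segment ℝ 0 p) = volume K +
      ENNReal.ofReal |LinearMap.det (A : (Fin 2 → ℝ) →ₗ[ℝ] (Fin 2 → ℝ))| *
        volume (proj (n := 1) (A.symm '' K)) := by
  have h1 : IsCompact (A.symm '' K) := hK.image A.symm.continuous
  have h2 : Convex ℝ (A.symm '' K) :=
    hc.linear_image (A.symm : (Fin 2 → ℝ) →ₗ[ℝ] (Fin 2 → ℝ))
  have h3 : K = A '' (A.symm '' K) := by
    rw [Set.image_image]; simp
  rw [vol_imageT (n := 1) A K p zero_le_one hp, vol_add_segT h1 h2 zero_le_one, ENNReal.ofReal_one,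
    one_mul, mul_add]
  congr 1
  have h4 := vol_image' A (A.symm '' K)
  rw [← h3] at h4
  exact h4.symm

theorem coord (A : (Fin 2 → ℝ) ≃L[ℝ] (Fin 2 → ℝ)) {p : Fin 2 → ℝ} (hp : A (Pi.single 0 1) = p)
    (x : Fin 2 → ℝ) : LinearMap.det (A : (Fin 2 → ℝ) →ₗ[ℝ] (Fin 2 → ℝ)) * (A.symm x) 1 = dt p x := by
  have h := dt_map (A : (Fin 2 → ℝ) →ₗ[ℝ] (Fin 2 → ℝ)) (Pi.single 0 1) (A.symm x)
  have e1 : (A : (Fin 2 → ℝ) →ₗ[ℝ] (Fin 2 → ℝ)) (Pi.single 0 1) = p := hp
  have e2 : (A : (Fin 2 → ℝ) →ₗ[ℝ] (Fin 2 → ℝ)) (A.symm x) = x := A.apply_symm_apply x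
  rw [e1, e2, dt_single] at h
  exact h.symm

theorem dt_sub (p x y : Fin 2 → ℝ) : dt p (x - y) = dt p x - dt p y := by
  simp only [dt, Pi.sub_apply]; ring

theorem up : S_UP := by
  intro K hK D hD p hp
  by_cases hp0 : p = 0
  · rw [hp0, zero_vadd, union_self, hK.convex.convexHull_eq]
    exact le_self_add
  · obtain ⟨x0, ⟨y0, hy0, hyx⟩, hx0⟩ := hp
    have hyx' : p + y0 = x0 := hyx
    have hs : (Pi.single 0 (1 : ℝ) : Fin 2 → ℝ) ≠ 0 := by
      intro h
      have := congrFun h 0
      simp at this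
    obtain ⟨A, hA⟩ := SeparatingDual.exists_continuousLinearEquiv_apply_eq (R := ℝ) hs hp0
    have hdet := det_ne A
    set δ := LinearMap.det (A : (Fin 2 → ℝ) →ₗ[ℝ] (Fin 2 → ℝ)) with hδ
    have hδ0 : 0 < |δ| := abs_pos.2 hdet
    refine (measure_mono (hull_sub hK.convex p)).trans ?_
    rw [vol_seg hK.isCompact hK.convex A hA]
    gcongr
    -- the length of the projection
    have hc1 : IsCompact (A.symm '' K) := hK.isCompact.image A.symm.continuous
    have hne : (A.symm '' K).Nonempty := ⟨_, ⟨x0, hx0, rfl⟩⟩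
    have hcont : ContinuousOn (fun v : Fin 2 → ℝ => v 1) (A.symm '' K) :=
      (continuous_apply (1 : Fin 2)).continuousOn
    obtain ⟨_, ⟨x, hx, rfl⟩, hmin⟩ := hc1.exists_isMinOn hne hcont
    obtain ⟨_, ⟨y, hy, rfl⟩, hmax⟩ := hc1.exists_isMaxOn hne hcont
    have key : ∀ x ∈ K, ∀ y ∈ K, δ * ((A.symm x) 1 - (A.symm y) 1) ≤ 4 * D := by
      intro x hx y hy
      have h1 := coord A hA x
      have h2 := coord A hA y
      have h3 := hD.le _ ⟨x0 - y0, ⟨x0, hx0, y0, hy0, rfl⟩, rfl⟩ _ ⟨x - y, ⟨x, hx, y, hy, rfl⟩, rfl⟩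
      have h4 : dt ((1 / 2 : ℝ) • (x0 - y0)) ((1 / 2 : ℝ) • (x - y)) = 1 / 4 * dt p (x - y) := by
        rw [← hyx']
        simp only [dt, Pi.smul_apply, Pi.sub_apply, Pi.add_apply, smul_eq_mul]
        ring
      have h5 : dt ((1 / 2 : ℝ) • (x0 - y0)) ((1 / 2 : ℝ) • (x - y)) ≤ D := h3
      rw [h4, dt_sub, ← h1, ← h2] at h5
      linarith
    have hlen : |δ| * ((A.symm y) 1 - (A.symm x) 1) ≤ 4 * D := by
      rcases abs_cases δ with ⟨h, _⟩ | ⟨h, _⟩
      · rw [h]; exact key y hy x hx
      · rw [h]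
        have := key x hx y hy
        linarith
    have hsub : proj (n := 1) (A.symm '' K) ⊆
        Icc (fun _ => (A.symm x) 1) (fun _ => (A.symm y) 1) := by
      rintro _ ⟨z, hz, rfl⟩
      constructor
      · intro i
        have : i = 0 := Subsingleton.elim _ _
        subst this
        exact hmin hz
      · intro i
        have : i = 0 := Subsingleton.elim _ _
        subst this
        exact hmax hz
    calc ENNReal.ofReal |δ| * volume (proj (n := 1) (A.symm '' K))
        ≤ ENNReal.ofReal |δ| * ENNReal.ofReal ((A.symm y) 1 - (A.symm x) 1) := by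
          gcongr
          refine (measure_mono hsub).trans ?_
          rw [Real.volume_Icc_pi]
          simp
      _ = ENNReal.ofReal (|δ| * ((A.symm y) 1 - (A.symm x) 1)) := by
          rw [ENNReal.ofReal_mul hδ0.le]
      _ ≤ _ := ENNReal.ofReal_le_ofReal hlen

theorem lo : S_LO := by
  intro M hM D hD
  obtain ⟨x, hx, y, hy, hxy⟩ := hD.att
  by_cases hx0 : x = 0
  · refine ⟨0, ?_, ?_⟩
    · rw [zero_vadd, inter_self]
      exact ⟨x, hx⟩
    · have : D = 0 := by rw [← hxy, hx0]; simp [dt]
      rw [this, zero_vadd, union_self, hM.body.convex.convexHull_eq]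
      simp
  · have hp0 : (2:ℝ) • x ≠ 0 := by
      intro h
      exact hx0 ((smul_eq_zero.1 h).resolve_left two_ne_zero)
    refine ⟨(2:ℝ) • x, ⟨x, ⟨-x, hM.symm x hx, ?_⟩, hx⟩, ?_⟩
    · show (2:ℝ) • x + -x = x
      rw [two_smul]; abel
    · have hs : (Pi.single 0 (1 : ℝ) : Fin 2 → ℝ) ≠ 0 := by
        intro h
        have := congrFun h 0
        simp at this
      obtain ⟨A, hA⟩ := SeparatingDual.exists_continuousLinearEquiv_apply_eq (R := ℝ) hs hp0
      have hdet := det_ne A
      refine le_trans ?_ (measure_mono (sub_hull M ((2:ℝ) • x)))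
      rw [vol_seg hM.body.isCompact hM.body.convex A hA]
      gcongr
      set δ := LinearMap.det (A : (Fin 2 → ℝ) →ₗ[ℝ] (Fin 2 → ℝ)) with hδ
      have hδ0 : 0 < |δ| := abs_pos.2 hdet
      have hyc := coord A hA y
      have h2D : dt ((2:ℝ) • x) y = 2 * D := by
        rw [← hxy]
        simp only [dt, Pi.smul_apply, smul_eq_mul]
        ring
      rw [h2D, ← hδ] at hyc
      have hD0 : 0 ≤ D := by
        have := hD.le x hx x hx
        have e : dt x x = 0 := by simp only [dt]; ring
        rw [e] at this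
        exact this
      have hM1 := sym_image hM A.symm
      have hm1 : (A.symm y) ∈ A.symm '' M := ⟨y, hy, rfl⟩
      have hpc : Convex ℝ (proj (n := 1) (A.symm '' M)) := by
        have := hM1.body.convex.linear_image
          (LinearMap.pi fun i : Fin 1 => LinearMap.proj (R := ℝ) (φ := fun _ : Fin 2 => ℝ) i.succ)
        exact this
      set c := |(A.symm y) 1| with hc
      have hm : ∀ s : ℝ, |s| ≤ c → (fun _ : Fin 1 => s) ∈ proj (n := 1) (A.symm '' M) := by
        intro s hs
        have a1 : (fun _ : Fin 1 => (A.symm y) 1) ∈ proj (n := 1) (A.symm '' M) := by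
          refine ⟨A.symm y, hm1, ?_⟩
          funext i
          have : i = 0 := Subsingleton.elim _ _
          subst this
          rfl
        have a2 : (fun _ : Fin 1 => -(A.symm y) 1) ∈ proj (n := 1) (A.symm '' M) := by
          refine ⟨-A.symm y, hM1.symm _ hm1, ?_⟩
          funext i
          have : i = 0 := Subsingleton.elim _ _
          subst this
          rfl
        rcases eq_or_lt_of_le (abs_nonneg ((A.symm y) 1)) with h0 | h0
        · have h1 : (A.symm y) 1 = 0 := abs_eq_zero.1 h0.symm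
          have h2 : s = 0 := by
            rw [hc, ← h0] at hs
            exact abs_eq_zero.1 (le_antisymm hs (abs_nonneg _))
          rw [h2]
          rwa [h1] at a1
        · have hy0 : (A.symm y) 1 ≠ 0 := abs_pos.1 h0
          set r := s / (A.symm y) 1 with hr
          have hr1 : |r| ≤ 1 := by
            rw [hr, abs_div, div_le_one h0]
            exact hs
          have hr2 := abs_le.1 hr1
          have h3 := hpc a1 a2 (show 0 ≤ (1 + r) / 2 by linarith) (show 0 ≤ (1 - r) / 2 by linarith)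
            (by ring)
          convert h3 using 1
          funext i
          simp only [Pi.add_apply, Pi.smul_apply, smul_eq_mul]
          have : s = r * (A.symm y) 1 := by rw [hr]; field_simp
          rw [this]
          ring
      have hsub : Icc (fun _ : Fin 1 => -c) (fun _ => c) ⊆ proj (n := 1) (A.symm '' M) := by
        intro z hz
        have h1 : |z 0| ≤ c := abs_le.2 ⟨hz.1 0, hz.2 0⟩
        have h2 := hm _ h1
        have h3 : (fun _ : Fin 1 => z 0) = z := by
          funext i
          have : i = 0 := Subsingleton.elim _ _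
          subst this
          rfl
        rwa [h3] at h2
      have hlen : |δ| * (c - -c) = 4 * D := by
        have : |δ| * c = 2 * D := by
          rw [hc, ← abs_mul, hyc, abs_of_nonneg (by positivity)]
        linarith
      calc ENNReal.ofReal (4 * D) = ENNReal.ofReal |δ| * ENNReal.ofReal (c - -c) := by
            rw [← ENNReal.ofReal_mul hδ0.le, hlen]
        _ ≤ ENNReal.ofReal |δ| * volume (proj (n := 1) (A.symm '' M)) := by
            gcongr
            refine le_trans ?_ (measure_mono hsub)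
            rw [Real.volume_Icc_pi]
            simp

end Pool.Agent.Q201.HTM
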