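import Pool.Agent.Q201.HTM.Gauge

/-!
# Areas by quadrants
-/

set_option autoImplicit false
open MeasureTheory Set Pointwise
open scoped ENNReal

namespace Pool.Agent.Q201.HTM

theorem pt_eta (v : Fin 2 → ℝ) : pt (v 0) (v 1) = v := by
  ext i; fin_cases i <;> rfl

theorem measurable_pt : Measurable fun p : ℝ × ℝ => pt p.1 p.2 := by
  rw [measurable_pi_iff]
  intro i
  fin_cases i
  · exact measurable_fst
  · exact measurable_snd

theorem lint_fin2 (g : (Fin 2 → ℝ) → ℝ≥0∞) (hg : Measurable g) :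
    ∫⁻ v, g v = ∫⁻ p : ℝ × ℝ, g (pt p.1 p.2) := by
  have h := (volume_preserving_finTwoArrow ℝ).lintegral_comp
    (f := fun p : ℝ × ℝ => g (pt p.1 p.2)) (hg.comp measurable_pt)
  rw [← h]
  refine lintegral_congr fun v => ?_
  congr 1
  exact (pt_eta v).symm

theorem lint_a (g : (Fin 2 → ℝ) → ℝ≥0∞) (hg : Measurable g) :
    ∫⁻ v, g v = ∫⁻ a, ∫⁻ b, g (pt a b) := by
  rw [lint_fin2 g hg]
  exact lintegral_prod _ (hg.comp measurable_pt).aemeasurable

theorem lint_b (g : (Fin 2 → ℝ) → ℝ≥0∞) (hg : Measurable g) :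
    ∫⁻ v, g v = ∫⁻ b, ∫⁻ a, g (pt a b) := by
  rw [lint_fin2 g hg]
  exact lintegral_prod_symm _ (hg.comp measurable_pt).aemeasurable

theorem vol_a {S : Set (Fin 2 → ℝ)} (hS : MeasurableSet S) :
    volume S = ∫⁻ a, volume {b : ℝ | pt a b ∈ S} := by
  have h := lint_a (S.indicator 1) (measurable_one.indicator hS)
  rw [lintegral_indicator_one hS] at h
  rw [h]
  refine lintegral_congr fun a => ?_
  have hm : MeasurableSet {b : ℝ | pt a b ∈ S} :=
    (measurable_pt.comp (measurable_const.prodMk measurable_id)) hS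
  rw [← lintegral_indicator_one hm]
  rfl

/-- open quadrant -/
def Qd (e : ℝ) : Set (Fin 2 → ℝ) := {x | 0 < x 0 ∧ 0 < e * x 1}

theorem Qd_open (e : ℝ) : IsOpen (Qd e) := by
  have h0 : Continuous fun x : Fin 2 → ℝ => x 0 := continuous_apply 0
  have h1 : Continuous fun x : Fin 2 → ℝ => e * x 1 :=
    continuous_const.mul (continuous_apply (1 : Fin 2))
  exact (isOpen_lt continuous_const h0).inter (isOpen_lt continuous_const h1)

theorem quad {S : Set (Fin 2 → ℝ)} (hS : MeasurableSet S) (hs : ∀ x ∈ S, -x ∈ S) :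
    volume S = 2 * volume (S ∩ Qd 1) + 2 * volume (S ∩ Qd (-1)) := by
  have hn : ∀ e, volume (S ∩ -Qd e) = volume (S ∩ Qd e) := by
    intro e
    have h1 : S ∩ -Qd e = -(S ∩ Qd e) := by
      ext x
      simp only [mem_inter_iff, Set.mem_neg]
      constructor
      · rintro ⟨h, h'⟩; exact ⟨hs x h, h'⟩
      · rintro ⟨h, h'⟩; exact ⟨by simpa using hs _ h, h'⟩
    rw [h1, Measure.measure_neg]
  have hz : volume ({x : Fin 2 → ℝ | x 0 = 0} ∪ {x : Fin 2 → ℝ | x 1 = 0}) = 0 := by
    rw [measure_union_null_iff]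
    exact ⟨Measure.pi_hyperplane (fun _ => (volume : Measure ℝ)) 0 0,
      Measure.pi_hyperplane (fun _ => (volume : Measure ℝ)) 1 0⟩
  have hcov : S \ ({x : Fin 2 → ℝ | x 0 = 0} ∪ {x : Fin 2 → ℝ | x 1 = 0}) =
      ((S ∩ Qd 1) ∪ (S ∩ -Qd 1)) ∪ ((S ∩ Qd (-1)) ∪ (S ∩ -Qd (-1))) := by
    ext x
    simp only [mem_sdiff, mem_union, mem_inter_iff, Set.mem_neg, Qd, mem_ofPred_eq, Pi.neg_apply]
    constructor
    · rintro ⟨hx, h⟩
      push Not at h
      rcases lt_or_gt_of_ne h.1 with h0 | h0 <;> rcases lt_or_gt_of_ne h.2 with h1 | h1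
      · exact Or.inl (Or.inr ⟨hx, by linarith, by linarith⟩)
      · exact Or.inr (Or.inr ⟨hx, by linarith, by linarith⟩)
      · exact Or.inr (Or.inl ⟨hx, by linarith, by linarith⟩)
      · exact Or.inl (Or.inl ⟨hx, by linarith, by linarith⟩)
    · rintro ((⟨hx, h0, h1⟩ | ⟨hx, h0, h1⟩) | (⟨hx, h0, h1⟩ | ⟨hx, h0, h1⟩)) <;>
      · refine ⟨hx, ?_⟩
        rintro (h | h)
        · rw [h] at h0; simp at h0
        · rw [h] at h1; simp at h1
  have hm : ∀ e, MeasurableSet (S ∩ Qd e) := fun e => hS.inter (Qd_open e).measurableSet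
  have hm' : ∀ e, MeasurableSet (S ∩ -Qd e) := fun e => hS.inter (Qd_open e).neg.measurableSet
  rw [← measure_sdiff_null hz, hcov, measure_union, measure_union, measure_union, hn, hn]
  · ring
  · rw [Set.disjoint_left]
    rintro x ⟨-, h0, h1⟩ ⟨-, h2, h3⟩
    simp only [Pi.neg_apply] at h2
    linarith
  · exact hm' _
  · rw [Set.disjoint_left]
    rintro x ⟨-, h0, h1⟩ ⟨-, h2, h3⟩
    simp only [Pi.neg_apply] at h2
    linarith
  · exact hm' _
  · rw [Set.disjoint_left]
    rintro x (⟨-, h0, h1⟩ | ⟨-, h0, h1⟩) (⟨-, h2, h3⟩ | ⟨-, h2, h3⟩) <;>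
      linarith [show (-x) 0 = -x 0 from rfl, show (-x) 1 = -x 1 from rfl]
  · exact (hm _).union (hm' _)

/-! ## area of `M` -/

theorem GG_cont {M : Set (Fin 2 → ℝ)} (hM : Std M) (e : ℝ) : Continuous (GG M e) := by
  have h := continuous_gauge hM.sym.body.convex hM.sym.nhds
  refine h.comp ?_
  refine continuous_pi fun i => ?_
  fin_cases i
  · show Continuous fun t : ℝ => 1 / 2 + t
    fun_prop
  · show Continuous fun t : ℝ => e * (1 / 2 - t)
    fun_prop

/-- generalised polar coordinates -/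
noncomputable def pc (e : ℝ) (v : Fin 2 → ℝ) : Fin 2 → ℝ := pt (v 0 * (1 / 2 + v 1)) (e * (v 0 * (1 / 2 - v 1)))

noncomputable def pc' (e : ℝ) (v : Fin 2 → ℝ) : (Fin 2 → ℝ) →L[ℝ] (Fin 2 → ℝ) :=
  (Matrix.toLin' !![1 / 2 + v 1, v 0; e * (1 / 2 - v 1), -(e * v 0)]).toContinuousLinearMap

theorem pc'_det (e : ℝ) (v : Fin 2 → ℝ) : (pc' e v).det = -(e * v 0) := by
  unfold pc'
  rw [ContinuousLinearMap.det, LinearMap.coe_toContinuousLinearMap, LinearMap.det_toLin',
    Matrix.det_fin_two]
  simp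
  ring

theorem pc_deriv (e : ℝ) (v : Fin 2 → ℝ) : HasFDerivAt (pc e) (pc' e v) v := by
  have h0 : HasFDerivAt (fun v : Fin 2 → ℝ => v 0) (ContinuousLinearMap.proj (R := ℝ) 0) v :=
    hasFDerivAt_apply 0 v
  have h1 : HasFDerivAt (fun v : Fin 2 → ℝ => v 1) (ContinuousLinearMap.proj (R := ℝ) 1) v :=
    hasFDerivAt_apply 1 v
  rw [hasFDerivAt_pi']
  intro i
  fin_cases i
  · have h2 := h0.mul (h1.const_add (1 / 2))
    refine HasFDerivAt.congr_fderiv (f' := _) h2 ?_
    ext w
    simp [pc', dotProduct, Fin.sum_univ_two]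
    ring
  · have h2 := (h0.mul (h1.const_sub (1 / 2))).const_mul e
    refine HasFDerivAt.congr_fderiv (f' := _) h2 ?_
    ext w
    simp [pc', dotProduct, Fin.sum_univ_two]
    ring

theorem pc_smul (e : ℝ) (v : Fin 2 → ℝ) :
    pc e v = v 0 • pt (1 / 2 + v 1) (e * (1 / 2 - v 1)) := by
  ext i
  fin_cases i
  · rfl
  · show e * (v 0 * (1 / 2 - v 1)) = v 0 * (e * (1 / 2 - v 1))
    ring

def pcS (M : Set (Fin 2 → ℝ)) (e : ℝ) : Set (Fin 2 → ℝ) :=
  {v | (0 < v 0 ∧ v 0 * GG M e (v 1) ≤ 1) ∧ (-1 / 2 < v 1 ∧ v 1 < 1 / 2)}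

theorem pcS_meas {M : Set (Fin 2 → ℝ)} (hM : Std M) (e : ℝ) : MeasurableSet (pcS M e) := by
  have hc := (GG_cont hM e).measurable
  have h0 : Measurable fun v : Fin 2 → ℝ => v 0 := measurable_pi_apply 0
  have h1 : Measurable fun v : Fin 2 → ℝ => v 1 := measurable_pi_apply 1
  refine MeasurableSet.inter (MeasurableSet.inter ?_ ?_) (MeasurableSet.inter ?_ ?_)
  · exact measurableSet_lt measurable_const h0
  · exact measurableSet_le (h0.mul (hc.comp h1)) measurable_const
  · exact measurableSet_lt measurable_const h1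
  · exact measurableSet_lt h1 measurable_const

theorem pc_inj {M : Set (Fin 2 → ℝ)} {e : ℝ} (he : e = 1 ∨ e = -1) : InjOn (pc e) (pcS M e) := by
  intro v hv w hw h
  have h0 := congrFun h 0
  have h1 := congrFun h 1
  simp only [pc, pt, Matrix.cons_val_zero, Matrix.cons_val_one] at h0 h1
  have h1' : v 0 * (1 / 2 - v 1) = w 0 * (1 / 2 - w 1) := by
    rcases he with rfl | rfl <;> linarith
  have e0 : v 0 = w 0 := by linarith
  have e1 : v 0 * v 1 = v 0 * w 1 := by rw [e0] at h0 ⊢; linarith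
  have e2 : v 1 = w 1 := mul_left_cancel₀ hv.1.1.ne' e1
  ext i
  fin_cases i
  · exact e0
  · exact e2

theorem pc_image {M : Set (Fin 2 → ℝ)} (hM : Std M) {e : ℝ} (he : e = 1 ∨ e = -1) :
    pc e '' pcS M e = M ∩ Qd e := by
  have hee : e * e = 1 := by rcases he with rfl | rfl <;> norm_num
  ext x
  constructor
  · rintro ⟨v, ⟨⟨h0, hg⟩, h1, h2⟩, rfl⟩
    refine ⟨?_, ?_, ?_⟩
    · rw [hM.sym.mem_iff, pc_smul, gauge_smul_of_nonneg h0.le]
      exact hg
    · show 0 < v 0 * (1 / 2 + v 1)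
      exact mul_pos h0 (by linarith)
    · show 0 < e * (e * (v 0 * (1 / 2 - v 1)))
      rw [← mul_assoc, hee, one_mul]
      exact mul_pos h0 (by linarith)
  · rintro ⟨hx, h0, h1⟩
    have hr : 0 < x 0 + e * x 1 := by linarith
    set v : Fin 2 → ℝ := pt (x 0 + e * x 1) (x 0 / (x 0 + e * x 1) - 1 / 2) with hv
    have v0 : v 0 = x 0 + e * x 1 := rfl
    have v1 : v 1 = x 0 / (x 0 + e * x 1) - 1 / 2 := rfl
    have hpc : pc e v = x := by
      ext i
      fin_cases i
      · show v 0 * (1 / 2 + v 1) = x 0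
        rw [v0, v1]
        field_simp
        ring
      · show e * (v 0 * (1 / 2 - v 1)) = x 1
        rw [v0, v1]
        have : (x 0 + e * x 1) * (1 / 2 - (x 0 / (x 0 + e * x 1) - 1 / 2)) = e * x 1 := by
          field_simp
          ring
        rw [this, ← mul_assoc, hee, one_mul]
    refine ⟨v, ⟨⟨by rw [v0]; exact hr, ?_⟩, ?_, ?_⟩, hpc⟩
    · have := (hM.sym.mem_iff x).1 hx
      rw [← hpc, pc_smul, gauge_smul_of_nonneg (by rw [v0]; exact hr.le)] at this
      exact this
    · rw [v1]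
      have : 0 < x 0 / (x 0 + e * x 1) := by positivity
      linarith
    · rw [v1]
      have : x 0 / (x 0 + e * x 1) < 1 := by
        rw [div_lt_one hr]; linarith
      linarith

theorem area_quad {M : Set (Fin 2 → ℝ)} (hM : Std M) {e : ℝ} (he : e = 1 ∨ e = -1)
    (hG : GOK (GG M e)) : volume (M ∩ Qd e) = ENNReal.ofReal (I1 (GG M e) / 2) := by
  have h1 := lintegral_abs_det_fderiv_eq_addHaar_image volume (pcS_meas hM e)
    (fun v _ => (pc_deriv e v).hasFDerivWithinAt) (pc_inj he)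
  rw [pc_image hM he] at h1
  rw [← h1]
  have hea : |e| = 1 := by rcases he with rfl | rfl <;> simp
  rw [← lintegral_indicator (pcS_meas hM e), lint_b]
  · have h2 : ∀ b : ℝ, ∫⁻ a, (pcS M e).indicator
        (fun v => ENNReal.ofReal |(pc' e v).det|) (pt a b) =
        (Ioo (-1 / 2 : ℝ) (1 / 2)).indicator
          (fun b => ENNReal.ofReal (1 / GG M e b ^ 2 / 2)) b := by
      intro b
      by_cases hb : b ∈ Ioo (-1 / 2 : ℝ) (1 / 2)
      · rw [indicator_of_mem hb]
        have hg := hG.pos (Ioo_subset_Icc_self hb)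
        have h3 : ∀ a : ℝ, (pcS M e).indicator
            (fun v => ENNReal.ofReal |(pc' e v).det|) (pt a b) =
            (Ioc (0:ℝ) (1 / GG M e b)).indicator (fun a => ENNReal.ofReal a) a := by
          intro a
          have e0 : pt a b 0 = a := rfl
          have e1 : pt a b 1 = b := rfl
          by_cases ha : a ∈ Ioc (0:ℝ) (1 / GG M e b)
          · rw [indicator_of_mem ha, indicator_of_mem, pc'_det, abs_neg, abs_mul, hea, one_mul, e0,
              abs_of_pos ha.1]
            refine ⟨⟨ha.1, ?_⟩, hb⟩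
            have := ha.2
            rw [le_div_iff₀ hg] at this
            exact this
          · rw [indicator_of_notMem ha, indicator_of_notMem]
            rintro ⟨⟨h4, h5⟩, -⟩
            refine ha ⟨h4, ?_⟩
            rw [le_div_iff₀ hg]
            exact h5
        simp only [h3]
        rw [lintegral_indicator measurableSet_Ioc]
        have hint : IntegrableOn (fun a : ℝ => a) (Ioc 0 (1 / GG M e b)) :=
          (intervalIntegrable_iff_integrableOn_Ioc_of_le (by positivity)).1 (by simp)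
        rw [← ofReal_integral_eq_lintegral_ofReal hint, ← intervalIntegral.integral_of_le
          (by positivity), integral_id]
        · congr 1
          ring
        · exact (ae_restrict_iff' measurableSet_Ioc).2
            (Filter.Eventually.of_forall fun a ha => ha.1.le)
      · rw [indicator_of_notMem hb]
        have h3 : ∀ a : ℝ, (pcS M e).indicator
            (fun v => ENNReal.ofReal |(pc' e v).det|) (pt a b) = 0 := by
          intro a
          rw [indicator_of_notMem]
          rintro ⟨-, h4⟩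
          exact hb h4
        simp only [h3]
        simp
    simp only [h2]
    rw [lintegral_indicator measurableSet_Ioo]
    have hint : IntegrableOn (fun b : ℝ => 1 / GG M e b ^ 2 / 2) (Ioo (-1 / 2) (1 / 2)) := by
      have : ContinuousOn (fun b : ℝ => 1 / GG M e b ^ 2 / 2) (Icc (-1 / 2) (1 / 2)) :=
        (continuousOn_const.div (hG.cont.pow 2) fun t ht => (pow_pos (hG.pos ht) 2).ne').div_const 2
      exact (this.integrableOn_Icc).mono_set Ioo_subset_Icc_self
    rw [← ofReal_integral_eq_lintegral_ofReal hint]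
    · congr 1
      unfold I1
      rw [intervalIntegral.integral_of_le (by norm_num), integral_Ioc_eq_integral_Ioo,
        integral_div]
    · exact Filter.Eventually.of_forall fun b => by positivity
  · refine Measurable.indicator ?_ (pcS_meas hM e)
    refine ENNReal.measurable_ofReal.comp ?_
    simp only [pc'_det]
    fun_prop

theorem area : S_AREA := by
  intro M hM h1 h2
  have n1 : 0 ≤ I1 (GG M 1) := by
    refine intervalIntegral.integral_nonneg (by norm_num) fun t _ => ?_
    positivity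
  have n2 : 0 ≤ I1 (GG M (-1)) := by
    refine intervalIntegral.integral_nonneg (by norm_num) fun t _ => ?_
    positivity
  rw [quad hM.sym.body.isCompact.isClosed.measurableSet hM.sym.symm,
    area_quad hM (Or.inl rfl) h1, area_quad hM (Or.inr rfl) h2, ENNReal.ofReal_add n1 n2]
  have e : ∀ x : ℝ, 2 * ENNReal.ofReal (x / 2) = ENNReal.ofReal x := by
    intro x
    rw [show (2:ℝ≥0∞) = ENNReal.ofReal 2 by norm_num, ← ENNReal.ofReal_mul (by norm_num)]
    congr 1
    ring
  rw [e, e]

end Pool.Agent.Q201.HTM
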