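import Pool.Agent.Helper481.MB6
import Pool.Agent.H356R3.HT.Defs

/-!
# Maximizers of the Holmes–Thompson translative convex hull constant (MP_b5ed04_co)

Definitions and the statements of the lemmas.
-/

set_option autoImplicit false
open MeasureTheory Set Pointwise

namespace Pool.Agent.Q201.HTM

open Pool.Agent.Helper481.MS (IsConvexBody relBall)
open Pool.Agent.H356R3.HT (polar cTr htVol)

/-! ## plane geometry -/

/-- the point with coordinates `a`, `b` -/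
def pt (a b : ℝ) : Fin 2 → ℝ := ![a, b]

/-- the determinant -/
def dt (x y : Fin 2 → ℝ) : ℝ := x 0 * y 1 - x 1 * y 0

/-- symmetric convex bodies in the plane -/
structure SymBody (M : Set (Fin 2 → ℝ)) : Prop where
  body : IsConvexBody M
  symm : ∀ x ∈ M, -x ∈ M

/-- `D` is the maximum of the determinant of two points of `M` -/
structure IsMaxDet (M : Set (Fin 2 → ℝ)) (D : ℝ) : Prop where
  att : ∃ x ∈ M, ∃ y ∈ M, dt x y = D
  le : ∀ x ∈ M, ∀ y ∈ M, dt x y ≤ D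

/-- normalised symmetric bodies: between the cross-polytope and the square -/
structure Std (M : Set (Fin 2 → ℝ)) : Prop where
  sym : SymBody M
  e0 : pt 1 0 ∈ M
  e1 : pt 0 1 ∈ M
  b0 : ∀ x ∈ M, |x 0| ≤ 1
  b1 : ∀ x ∈ M, |x 1| ≤ 1

/-- the gauge of `M` on the segment from `(0, e)` to `(1, 0)`, `e = 1` or `e = -1` -/
noncomputable def GG (M : Set (Fin 2 → ℝ)) (e t : ℝ) : ℝ := gauge M (pt (1 / 2 + t) (e * (1 / 2 - t)))

/-! ## functions of one variable -/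

/-- the functions which occur as gauges -/
structure GOK (G : ℝ → ℝ) : Prop where
  conv : ConvexOn ℝ (Icc (-1 / 2) (1 / 2)) G
  left : G (-1 / 2) = 1
  right : G (1 / 2) = 1
  ge : ∀ t ∈ Icc (-1 / 2 : ℝ) (1 / 2), 1 / 2 + |t| ≤ G t

/-- `∫ G ^ (-2)` -/
noncomputable def I1 (G : ℝ → ℝ) : ℝ := ∫ t in (-1 / 2 : ℝ)..(1 / 2), 1 / G t ^ 2

/-- `∫ G' ^ 2` -/
noncomputable def I2 (G : ℝ → ℝ) : ℝ := ∫ t in (-1 / 2 : ℝ)..(1 / 2), deriv G t ^ 2

/-- `min_t (G t - k t)` -/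
noncomputable def phi (G : ℝ → ℝ) (k : ℝ) : ℝ := sInf ((fun t => G t - k * t) '' Icc (-1 / 2) (1 / 2))

/-- `1 / golden ratio` -/
noncomputable def cc : ℝ := (√5 - 1) / 2

/-- the constant `C` -/
noncomputable def CC : ℝ := 2 * √cc * Real.arccos cc - 2 * cc ^ 2

/-- `alpha`, the smaller root of `t ^ 2 alpha ^ 2 - g ^ 2 alpha + c = 0` -/
noncomputable def al (g t : ℝ) : ℝ := 2 * cc / (g ^ 2 + √(g ^ 4 - 4 * cc * t ^ 2))

/-- the calibrating slope field -/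
noncomputable def vv (g t : ℝ) : ℝ := al g t * t / g

/-- the defect -/
noncomputable def Def (G : ℝ → ℝ) : ℝ := ∫ t in (-1 / 2 : ℝ)..(1 / 2), (deriv G t - vv (G t) t) ^ 2

/-- the extremal function -/
noncomputable def G0 (t : ℝ) : ℝ := √(2 * cc ^ 2 * t ^ 2 + 1 / (2 * cc))

/-! ## the extremal body -/

/-- The body `M₀(a)`: the intersection of the ellipse `x²/a² + y²/b² ≤ 1`, `b = a / √(2a² - 1)`, and
of the same ellipse rotated by `π/2`. -/
def M0 (a : ℝ) : Set (Fin 2 → ℝ) :=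
  {x | x 0 ^ 2 / a ^ 2 + x 1 ^ 2 / (a / √(2 * a ^ 2 - 1)) ^ 2 ≤ 1 ∧
    x 0 ^ 2 / (a / √(2 * a ^ 2 - 1)) ^ 2 + x 1 ^ 2 / a ^ 2 ≤ 1}

/-- the body `M₀` in the coordinates in which it is normalised -/
def N0 : Set (Fin 2 → ℝ) :=
  {x | cc ^ 2 / 2 * (x 0 - x 1) ^ 2 + 1 / (2 * cc) * (x 0 + x 1) ^ 2 ≤ 1 ∧
    cc ^ 2 / 2 * (x 0 + x 1) ^ 2 + 1 / (2 * cc) * (x 0 - x 1) ^ 2 ≤ 1}

/-! ## the lemmas -/

/-- UP: the hull of a body and a translate, upper bound -/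
def S_UP : Prop := ∀ K : Set (Fin 2 → ℝ), IsConvexBody K → ∀ D : ℝ, IsMaxDet (relBall K) D →
  ∀ p : Fin 2 → ℝ, ((p +ᵥ K) ∩ K).Nonempty →
    volume (convexHull ℝ (K ∪ (p +ᵥ K))) ≤ volume K + ENNReal.ofReal (4 * D)

/-- LO: the hull of a symmetric body and a translate, lower bound -/
def S_LO : Prop := ∀ M : Set (Fin 2 → ℝ), SymBody M → ∀ D : ℝ, IsMaxDet M D →
  ∃ p : Fin 2 → ℝ, ((p +ᵥ M) ∩ M).Nonempty ∧
    volume M + ENNReal.ofReal (4 * D) ≤ volume (convexHull ℝ (M ∪ (p +ᵥ M)))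

/-- BMA: one-variable lemma for the equality case of the Brunn–Minkowski inequality. -/
def S_BMA : Prop := ∀ (p q : ℝ) (V : ℝ → ℝ) (W : ℝ → ENNReal), p < q →
  ContinuousOn V (Ioo p q) → (∀ x ∈ Ioo p q, 0 < V x) → IntegrableOn V (Ioo p q) → Measurable W →
  (∀ x ∈ Ioo p q, ∀ y ∈ Ioo p q, ENNReal.ofReal ((V x + V y) / 2) ≤ W ((x - y) / 2)) →
  ∫⁻ z in Ioo (-(q - p) / 2) ((q - p) / 2), W z ≤ ENNReal.ofReal (∫ x in Ioo p q, V x) →
  ∫ x in Ioo p q, x * V x = (p + q) / 2 * ∫ x in Ioo p q, V x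

/-- BMB: the equality case of the Brunn–Minkowski inequality for `K`, `-K` in the plane. -/
def S_BMB : Prop := S_BMA → ∀ K : Set (Fin 2 → ℝ), IsConvexBody K → volume (relBall K) ≤ volume K →
  ∃ v : Fin 2 → ℝ, K = v +ᵥ relBall K

/-- NORM: normalisation of a symmetric body by a linear map -/
def S_NORM : Prop := ∀ M : Set (Fin 2 → ℝ), SymBody M → ∃ D : ℝ, 0 < D ∧ IsMaxDet M D ∧
  ∃ A : (Fin 2 → ℝ) ≃L[ℝ] (Fin 2 → ℝ),
    |LinearMap.det (A : (Fin 2 → ℝ) →ₗ[ℝ] (Fin 2 → ℝ))| = D ∧ Std (A.symm '' M)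

/-- G: the gauge functions of a normalised body -/
def S_G : Prop := ∀ M : Set (Fin 2 → ℝ), Std M → GOK (GG M 1) ∧ GOK (GG M (-1))

/-- AREA: the area of a normalised body -/
def S_AREA : Prop := ∀ M : Set (Fin 2 → ℝ), Std M → GOK (GG M 1) → GOK (GG M (-1)) →
  volume M = ENNReal.ofReal (I1 (GG M 1) + I1 (GG M (-1)))

/-- POLG: the area of the polar body -/
def S_POLG : Prop := ∀ M : Set (Fin 2 → ℝ), Std M → GOK (GG M 1) → GOK (GG M (-1)) →
  volume (polar M) = ENNReal.ofReal (2 * (∫ k in (-1 : ℝ)..1, (phi (GG M 1) k - |k| / 2)) +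
    2 * ∫ k in (-1 : ℝ)..1, (phi (GG M (-1)) k - |k| / 2))

/-- PHI: the integral of `phi` -/
def S_PHI : Prop := ∀ G : ℝ → ℝ, GOK G → IntervalIntegrable (phi G) volume (-1) 1 ∧
  ∫ k in (-1 : ℝ)..1, phi G k = 3 / 2 - I2 G / 2

/-- CALA: the calibration -/
def S_CALA : Prop := ∀ G : ℝ → ℝ, GOK G → Def G = CC - (cc * I1 G - I2 G)

/-- CALB: the equality case of the calibration -/
def S_CALB : Prop := ∀ G : ℝ → ℝ, GOK G → Def G = 0 →
  ∀ t ∈ Icc (-1 / 2 : ℝ) (1 / 2), G t ^ 2 = 2 * cc ^ 2 * t ^ 2 + 1 / (2 * cc)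

/-- VAL: the extremal function -/
def S_VAL : Prop := ∀ G : ℝ → ℝ, GOK G →
  (∀ t ∈ Icc (-1 / 2 : ℝ) (1 / 2), G t ^ 2 = 2 * cc ^ 2 * t ^ 2 + 1 / (2 * cc)) →
  Def G = 0 ∧ cc * (2 * I1 G + 4) = 4 - 2 * I2 G

/-- N0: the extremal body -/
def S_N0 : Prop := Std N0 ∧ ∀ t ∈ Icc (-1 / 2 : ℝ) (1 / 2),
  GG N0 1 t ^ 2 = 2 * cc ^ 2 * t ^ 2 + 1 / (2 * cc) ∧
    GG N0 (-1) t ^ 2 = 2 * cc ^ 2 * t ^ 2 + 1 / (2 * cc)

/-- UNI: a normalised body is determined by its gauge functions -/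
def S_UNI : Prop := ∀ M M' : Set (Fin 2 → ℝ), Std M → Std M' →
  (∀ t ∈ Icc (-1 / 2 : ℝ) (1 / 2), GG M 1 t = GG M' 1 t ∧ GG M (-1) t = GG M' (-1) t) → M = M'

/-- ROT: the two descriptions of the extremal body -/
def S_ROT : Prop := ∃ A : (Fin 2 → ℝ) ≃L[ℝ] (Fin 2 → ℝ), N0 = A '' M0 ((1 + √5) / 2)

/-! ## elementary facts, for all jobs -/

theorem five : √5 ^ 2 = 5 := Real.sq_sqrt (by norm_num)

theorem cc_sq : cc ^ 2 = 1 - cc := by
  have := five
  unfold cc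
  nlinarith

theorem cc_pos : 0 < cc := by
  have h : (1:ℝ) < √5 := by
    rw [Real.lt_sqrt (by norm_num)]
    norm_num
  unfold cc
  linarith

theorem cc_lt : cc < 1 := by
  have h : √5 < (3:ℝ) := by
    rw [Real.sqrt_lt' (by norm_num)]
    norm_num
  unfold cc
  linarith

theorem GOK.le_one {G : ℝ → ℝ} (h : GOK G) {t : ℝ} (ht : t ∈ Icc (-1 / 2 : ℝ) (1 / 2)) : G t ≤ 1 := by
  have h1 := h.conv.2 (left_mem_Icc.2 (by norm_num)) (right_mem_Icc.2 (by norm_num))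
    (show 0 ≤ 1 / 2 - t by linarith [ht.2]) (show 0 ≤ 1 / 2 + t by linarith [ht.1]) (by ring)
  have h2 : (1 / 2 - t) • (-1 / 2 : ℝ) + (1 / 2 + t) • (1 / 2 : ℝ) = t := by
    simp only [smul_eq_mul]; ring
  rw [h2, h.left, h.right] at h1
  simp only [smul_eq_mul, mul_one] at h1
  linarith

theorem GOK.pos {G : ℝ → ℝ} (h : GOK G) {t : ℝ} (ht : t ∈ Icc (-1 / 2 : ℝ) (1 / 2)) : 0 < G t := by
  have := h.ge t ht
  have := abs_nonneg t
  linarith

/-- slopes lie between `-1` and `1` -/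
theorem GOK.slope {G : ℝ → ℝ} (h : GOK G) {s t : ℝ} (hs : s ∈ Icc (-1 / 2 : ℝ) (1 / 2))
    (ht : t ∈ Icc (-1 / 2 : ℝ) (1 / 2)) (hst : s < t) : |G t - G s| ≤ t - s := by
  rw [abs_le]
  have hr : (1 / 2 : ℝ) ∈ Icc (-1 / 2 : ℝ) (1 / 2) := right_mem_Icc.2 (by norm_num)
  have hl : (-1 / 2 : ℝ) ∈ Icc (-1 / 2 : ℝ) (1 / 2) := left_mem_Icc.2 (by norm_num)
  constructor
  · -- compare with the left end
    rcases eq_or_lt_of_le hs.1 with h0 | h0
    · have h1 := h.ge t ht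
      rw [← h0, h.left]
      have := neg_abs_le t
      linarith
    · have h1 := h.conv.slope_mono_adjacent hl ht h0 hst
      rw [h.left] at h1
      have h2 : -1 ≤ (G s - 1) / (s - -1 / 2) := by
        rw [le_div_iff₀ (by linarith)]
        have := h.ge s hs
        have := neg_abs_le s
        linarith
      have h3 := h2.trans h1
      rw [le_div_iff₀ (by linarith)] at h3
      linarith
  · rcases eq_or_lt_of_le ht.2 with h0 | h0
    · have h1 := h.ge s hs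
      rw [h0, h.right]
      have := le_abs_self s
      linarith
    · have h1 := h.conv.slope_mono_adjacent hs hr hst h0
      rw [h.right] at h1
      have h2 : (1 - G t) / (1 / 2 - t) ≤ 1 := by
        rw [div_le_iff₀ (by linarith)]
        have := h.ge t ht
        have := le_abs_self t
        linarith
      have h3 := h1.trans h2
      rw [div_le_iff₀ (by linarith)] at h3
      linarith

theorem GOK.lip {G : ℝ → ℝ} (h : GOK G) : LipschitzOnWith 1 G (Icc (-1 / 2 : ℝ) (1 / 2)) := by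
  refine LipschitzOnWith.of_dist_le_mul fun s hs t ht => ?_
  rw [Real.dist_eq, Real.dist_eq, NNReal.coe_one, one_mul]
  rcases lt_trichotomy s t with h1 | h1 | h1
  · rw [abs_sub_comm, abs_sub_comm s t, abs_of_pos (sub_pos.2 h1)]
    exact h.slope hs ht h1
  · rw [h1]; simp
  · rw [abs_of_pos (sub_pos.2 h1)]
    exact h.slope ht hs h1

theorem GOK.cont {G : ℝ → ℝ} (h : GOK G) : ContinuousOn G (Icc (-1 / 2 : ℝ) (1 / 2)) :=
  h.lip.continuousOn

end Pool.Agent.Q201.HTM
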